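import Pool.Agent.Lib.MP_1a0ddd_nt.Un.TrM
import Pool.Agent.Lib.MP_1a0ddd_nt.Cn.Loc
import Pool.Agent.Lib.MP_1a0ddd_nt.Cn.Poly

/-! The geometric half of the relative Tate property: affine spaces and open subsets. -/

set_option autoImplicit false

namespace Pool.Agent.Lib.MP_1a0ddd_nt.Un

open Polynomial Pool.Agent.Lib.MP_1a0ddd_nt.V Pool.Agent.Lib.MP_1a0ddd_nt.Fb
  Pool.Agent.Lib.MP_1a0ddd_nt.Cn

/-- the geometric half may be checked on any model (`kmodel_equiv`, as `relTate_of_model`) -/
theorem fact_of_model {R S O : Type} [CommRing R] [IsDomain R] [CommRing S] [Algebra R S]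
    [CommRing O] {j : S →+* O} {κ : FractionRing R →+* O} [IsDomain S]
    (h : Function.Injective (algebraMap R S)) (hf : Algebra.FiniteType R S) {n e : ℕ}
    (hn : Algebra.trdeg R S = (n : Cardinal)) (hj : KModel R j κ)
    (hu : UniqueFactorizationMonoid O) {γ : Fin e → Oˣ} (hγ : UnitFam κ γ) : Geo R S n e := by
  obtain ⟨e', he, hc'⟩ := kmodel_equiv h hj
  refine ⟨inferInstance, h, hf, hn, ?_, ?_⟩
  · exact e'.symm.toMulEquiv.uniqueFactorizationMonoid hu
  · have hκ : ∀ c : (FractionRing R)ˣ,
        Units.map (e' : Gen (algebraMap R S) →* O)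
          (Units.map (Fb.cst (algebraMap R S) : FractionRing R →* Gen (algebraMap R S)) c) =
        Units.map (κ : FractionRing R →* O) c := by
      intro c
      ext
      exact hc' c
    have hγ' : ∀ i, Units.map (e' : Gen (algebraMap R S) →* O)
        (Units.map (e'.symm : O →* Gen (algebraMap R S)) (γ i)) = γ i := by
      intro i
      ext
      exact e'.apply_symm_apply _
    have hinj : Function.Injective (Units.map (e' : Gen (algebraMap R S) →* O)) :=
      Units.map_injective e'.injective
    have hprod : ∀ n : Fin e → ℤ, Units.map (e' : Gen (algebraMap R S) →* O)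
        (∏ i, (Units.map (e'.symm : O →* Gen (algebraMap R S)) (γ i)) ^ n i) =
        ∏ i, γ i ^ n i := by
      intro n
      rw [map_prod]
      exact Finset.prod_congr rfl fun i _ => by rw [map_zpow, hγ']
    refine ⟨fun i => Units.map (e'.symm : O →* Gen (algebraMap R S)) (γ i), ?_, ?_⟩
    · intro v
      obtain ⟨c, n, hv⟩ := hγ.gen (Units.map (e' : Gen (algebraMap R S) →* O) v)
      refine ⟨c, n, hinj ?_⟩
      rw [map_mul, hκ, hprod, hv]
    · intro c n hcn
      refine hγ.indep c n ?_
      rw [← hprod, hcn, hκ]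

theorem fact_base (R : Type) [CommRing R] [IsDomain R] : Geo R R 0 0 := by
  have hm : KModel R (algebraMap R (FractionRing R)) (RingHom.id (FractionRing R)) := by
    refine ⟨IsFractionRing.injective R (FractionRing R), fun r => rfl, fun o => ?_⟩
    obtain ⟨x, y, hy, rfl⟩ := IsFractionRing.div_surjective (A := R) o
    refine ⟨x, y, nonZeroDivisors.ne_zero hy, ?_⟩
    have h0 : algebraMap R (FractionRing R) y ≠ 0 := by
      rw [Ne, IsFractionRing.to_map_eq_zero_iff]
      exact nonZeroDivisors.ne_zero hy
    have h1 : algebraMap R R y = y := rfl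
    rw [h1, div_mul_cancel₀ _ h0]
  refine fact_of_model (O := FractionRing R) (γ := Fin.elim0) Function.injective_id
    inferInstance ?_ hm inferInstance ⟨fun v => ⟨v, 0, ?_⟩, fun c n _ => Subsingleton.elim _ _⟩
  · rw [Nat.cast_zero]
    exact trdeg_eq_zero
  · ext
    simp

/-- the model of `S[X]` is `O[X]` -/
private theorem poly_model {R S O : Type} [CommRing R] [IsDomain R] [CommRing S] [Algebra R S]
    [CommRing O] {j : S →+* O} {κ : FractionRing R →+* O} (hj : KModel R j κ) :
    KModel R (S := S[X]) (mapRingHom j) ((C : O →+* O[X]).comp κ) := by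
  have ha : ∀ r : R, algebraMap R S[X] r = C (algebraMap R S r) := fun r => rfl
  refine ⟨Polynomial.map_injective j hj.inj, fun r => ?_, fun o => ?_⟩
  · rw [RingHom.comp_apply, hj.comp, ha, coe_mapRingHom, Polynomial.map_C]
  · induction o using Polynomial.induction_on' with
    | add p q hp hq =>
      obtain ⟨s, r, hr, h1⟩ := hp
      obtain ⟨s', r', hr', h2⟩ := hq
      refine ⟨s * algebraMap R S[X] r' + s' * algebraMap R S[X] r, r * r', mul_ne_zero hr hr', ?_⟩
      rw [map_add, map_mul (mapRingHom j), map_mul (mapRingHom j), ← h1, ← h2, map_mul, map_mul]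
      ring
    | monomial n a =>
      obtain ⟨s, r, hr, h1⟩ := hj.surj a
      refine ⟨monomial n s, r, hr, ?_⟩
      rw [ha, coe_mapRingHom, Polynomial.map_C, Polynomial.map_monomial, ← h1,
        Polynomial.monomial_mul_C]

/-- the units of `O[X]` -/
private theorem poly_units {k O : Type} [Field k] [CommRing O] [IsDomain O] {ι : k →+* O} {e : ℕ}
    {γ : Fin e → Oˣ} (hγ : UnitFam ι γ) :
    UnitFam ((C : O →+* O[X]).comp ι) (fun i => Units.map ((C : O →+* O[X]) : O →* O[X]) (γ i)) := by
  have hinj : Function.Injective (Units.map ((C : O →+* O[X]) : O →* O[X])) :=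
    Units.map_injective (C_injective (R := O))
  have hc : ∀ c : kˣ, Units.map ((((C : O →+* O[X]).comp ι : k →+* O[X])) : k →* O[X]) c =
      Units.map ((C : O →+* O[X]) : O →* O[X]) (Units.map (ι : k →* O) c) := fun c => Units.ext rfl
  have hp : ∀ n : Fin e → ℤ, ∏ i, Units.map ((C : O →+* O[X]) : O →* O[X]) (γ i) ^ n i =
      Units.map ((C : O →+* O[X]) : O →* O[X]) (∏ i, γ i ^ n i) := by
    intro n
    rw [map_prod]
    exact Finset.prod_congr rfl fun i _ => by rw [map_zpow]
  refine ⟨fun v => ?_, fun c n h => ?_⟩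
  · obtain ⟨r, hr, h1⟩ := Polynomial.isUnit_iff.1 v.isUnit
    obtain ⟨c, n, h2⟩ := hγ.gen hr.unit
    refine ⟨c, n, ?_⟩
    rw [hc, hp, ← map_mul, ← h2]
    refine Units.ext ?_
    rw [← h1]
    rfl
  · rw [hp, hc] at h
    exact hγ.indep c n (hinj h)

/-- proof: as `relTate_poly` -/
theorem fact_poly {R S : Type} [CommRing R] [IsDomain R] [CommRing S] [Algebra R S] {n e : ℕ}
    (h : Geo R S n e) : Geo R S[X] (n + 1) e := by
  have hdS := h.dom
  have hfS := h.finite
  have hufd := h.ufd
  have hj := kmodel_gen (R := R) (S := S) h.inj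
  have hdO : IsDomain (Gen (algebraMap R S)) := kmodel_domain hj
  obtain ⟨γ, hγ⟩ := h.units
  have hinj : Function.Injective (algebraMap R S[X]) :=
    (C_injective (R := S)).comp h.inj
  refine fact_of_model hinj inferInstance ?_ (poly_model hj) inferInstance (poly_units hγ)
  have : FaithfulSMul R S := (faithfulSMul_iff_algebraMap_injective R S).2 h.inj
  have : FaithfulSMul S S[X] := (faithfulSMul_iff_algebraMap_injective S S[X]).2 C_injective
  rw [← trdeg_add_eq R S (A := S[X]), h.dim, Polynomial.trdeg_of_isDomain]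
  push_cast
  rfl

/-- a localisation of a factorial ring is factorial -/
private theorem loc_ufd {O : Type} [CommRing O] [IsDomain O] [UniqueFactorizationMonoid O] {g : O}
    (hg : g ≠ 0) (hd : IsDomain (Localization.Away g)) :
    UniqueFactorizationMonoid (Localization.Away g) := by
  classical
  set A := algebraMap O (Localization.Away g) with hA
  have hinj : Function.Injective A :=
    IsLocalization.injective (Localization.Away g)
      (powers_le_nonZeroDivisors_of_noZeroDivisors hg)
  have hgu : IsUnit (A g) := IsLocalization.Away.algebraMap_isUnit (S := Localization.Away g) g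
  have hprime : ∀ p : O, Prime p → IsUnit (A p) ∨ Prime (A p) := by
    intro p hp
    by_cases hpg : p ∣ g
    · exact Or.inl (isUnit_of_dvd_unit (map_dvd A hpg) hgu)
    · right
      have hP : (Ideal.span {p}).IsPrime := (Ideal.span_singleton_prime hp.ne_zero).2 hp
      have hdis : Disjoint ((Submonoid.powers g : Submonoid O) : Set O) (Ideal.span {p} : Set O) := by
        rw [Set.disjoint_left]
        rintro _ ⟨n, rfl⟩ hmem
        exact hpg (hp.dvd_of_dvd_pow (Ideal.mem_span_singleton.1 hmem))
      have h1 := IsLocalization.isPrime_of_isPrime_disjoint (Submonoid.powers g)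
        (Localization.Away g) (Ideal.span {p}) hP hdis
      rw [Ideal.map_span, Set.image_singleton] at h1
      exact (Ideal.span_singleton_prime ((map_ne_zero_iff A hinj).2 hp.ne_zero)).1 h1
  have key : ∀ a : O, a ≠ 0 → ∃ f : Multiset (Localization.Away g), (∀ b ∈ f, Prime b) ∧
      Associated f.prod (A a) := by
    intro a
    induction a using UniqueFactorizationMonoid.induction_on_prime with
    | h₁ => intro h; exact absurd rfl h
    | h₂ u hu =>
      intro _
      refine ⟨0, fun b hb => absurd hb (Multiset.notMem_zero b), ?_⟩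
      rw [Multiset.prod_zero]
      exact (associated_one_iff_isUnit.2 (hu.map A)).symm
    | h₃ a p ha hp ih =>
      intro _
      obtain ⟨f, hf1, hf2⟩ := ih ha
      rcases hprime p hp with h | h
      · refine ⟨f, hf1, hf2.trans ?_⟩
        rw [map_mul]
        exact (associated_unit_mul_left _ _ h).symm
      · refine ⟨A p ::ₘ f, fun b hb => ?_, ?_⟩
        · rcases Multiset.mem_cons.1 hb with rfl | hb
          · exact h
          · exact hf1 b hb
        · rw [Multiset.prod_cons, map_mul]
          exact hf2.mul_left (A p)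
  refine UniqueFactorizationMonoid.of_exists_prime_factors fun x hx => ?_
  obtain ⟨n, a, h⟩ := IsLocalization.Away.surj g x
  have ha : a ≠ 0 := by
    rintro rfl
    rw [map_zero] at h
    exact hx (((hgu.pow n).mul_left_eq_zero).1 h)
  obtain ⟨f, hf1, hf2⟩ := key a ha
  refine ⟨f, hf1, hf2.trans ?_⟩
  have h' : x * A g ^ n = A a := h
  rw [← h']
  exact associated_mul_unit_left _ _ (hgu.pow n)

/-- the model of the localisation -/
private theorem loc_model {R S O : Type} [CommRing R] [IsDomain R] [CommRing S] [Algebra R S]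
    [CommRing O] [IsDomain O] {j : S →+* O} {κ : FractionRing R →+* O} (hj : KModel R j κ) {g : S}
    (hg : j g ≠ 0) : ∃ j' : Localization.Away g →+* Localization.Away (j g),
      KModel R j' ((algebraMap O (Localization.Away (j g))).comp κ) := by
  set A := algebraMap S (Localization.Away g) with hA
  set A' := algebraMap O (Localization.Away (j g)) with hA'
  have hinj' : Function.Injective A' :=
    IsLocalization.injective (Localization.Away (j g))
      (powers_le_nonZeroDivisors_of_noZeroDivisors hg)
  have hgu : IsUnit (A g) := IsLocalization.Away.algebraMap_isUnit (S := Localization.Away g) g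
  have hgu' : IsUnit (A' (j g)) :=
    IsLocalization.Away.algebraMap_isUnit (S := Localization.Away (j g)) (j g)
  have hu : IsUnit ((A'.comp j) g) := hgu'
  obtain ⟨j', hjd⟩ : ∃ j' : Localization.Away g →+* Localization.Away (j g), j' =
      IsLocalization.Away.lift (S := Localization.Away g) g hu := ⟨_, rfl⟩
  have hj' : ∀ s : S, j' (A s) = A' (j s) := by
    intro s
    rw [hjd]
    exact IsLocalization.Away.lift_eq (S := Localization.Away g) g hu s
  refine ⟨j', ?_, fun r => ?_, fun o => ?_⟩
  · rw [injective_iff_map_eq_zero]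
    intro x hx
    obtain ⟨n, s, h⟩ := IsLocalization.Away.surj g x
    have h' : x * A g ^ n = A s := h
    have h1 := congrArg j' h'
    rw [map_mul, hx, zero_mul, hj'] at h1
    have h2 : s = 0 := by
      have h3 : j s = 0 := hinj' (by rw [← h1, map_zero])
      exact hj.inj (by rw [h3, map_zero])
    rw [h2, map_zero] at h'
    exact ((hgu.pow n).mul_left_eq_zero).1 h'
  · rw [RingHom.comp_apply, hj.comp, IsScalarTower.algebraMap_apply R S (Localization.Away g)]
    exact (hj' _).symm
  · obtain ⟨n, o₁, h⟩ := IsLocalization.Away.surj (j g) o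
    have h' : o * A' (j g) ^ n = A' o₁ := h
    obtain ⟨s, r, hr, hs⟩ := hj.surj o₁
    refine ⟨A s * (↑(hgu.unit⁻¹) : Localization.Away g) ^ n, r, hr, ?_⟩
    rw [IsScalarTower.algebraMap_apply R S (Localization.Away g)]
    have e1 : j' (algebraMap S (Localization.Away g) (algebraMap R S r)) =
        A' (j (algebraMap R S r)) := hj' _
    rw [e1, map_mul, map_pow, hj', ← hs, map_mul, ← h']
    have e2 : A' (j g) * j' (↑(hgu.unit⁻¹) : Localization.Away g) = 1 := by
      rw [← hj', ← map_mul]
      have : A g * (↑(hgu.unit⁻¹) : Localization.Away g) = 1 := hgu.mul_val_inv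
      rw [this, map_one]
    have e3 : A' (j g) ^ n * j' (↑(hgu.unit⁻¹) : Localization.Away g) ^ n = 1 := by
      rw [← mul_pow, e2, one_pow]
    linear_combination (-(o * A' (j (algebraMap R S r)))) * e3

/-- proof: as `relTate_loc` (copy its private lemmas) -/
theorem fact_away {R S : Type} [CommRing R] [IsDomain R] [CommRing S] [Algebra R S] {n e m : ℕ}
    (h : Geo R S n e) {g : S} (hg : g ≠ 0) {q : Fin m → Gen (algebraMap R S)}
    (h1 : ∀ j, Prime (q j)) (h2 : ∀ i j, q i ∣ q j → i = j)
    (h3 : ∀ j, q j ∣ toGen (algebraMap R S) g)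
    (h4 : ∀ π, Prime π → π ∣ toGen (algebraMap R S) g → ∃ j, q j ∣ π) :
    Geo R (Localization.Away g) n (e + m) := by
  have hdS := h.dom
  have hfS := h.finite
  have hufd := h.ufd
  have hj := kmodel_gen (R := R) (S := S) h.inj
  have hdO : IsDomain (Gen (algebraMap R S)) := kmodel_domain hj
  obtain ⟨γ, hγ⟩ := h.units
  have hjg : toGen (algebraMap R S) g ≠ 0 := (map_ne_zero_iff _ hj.inj).2 hg
  obtain ⟨δ, hδ⟩ := unitFam_loc (Fb.cst (algebraMap R S)) hjg hγ h1 h2 h3 h4
  obtain ⟨j', hj'⟩ := loc_model hj hjg
  have hdL : IsDomain (Localization.Away g) :=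
    IsLocalization.isDomain_localization (powers_le_nonZeroDivisors_of_noZeroDivisors hg)
  have hdL' : IsDomain (Localization.Away (toGen (algebraMap R S) g)) :=
    IsLocalization.isDomain_localization (powers_le_nonZeroDivisors_of_noZeroDivisors hjg)
  have hinjL : Function.Injective (algebraMap S (Localization.Away g)) :=
    IsLocalization.injective (Localization.Away g)
      (powers_le_nonZeroDivisors_of_noZeroDivisors hg)
  have hinj : Function.Injective (algebraMap R (Localization.Away g)) := by
    rw [IsScalarTower.algebraMap_eq R S (Localization.Away g)]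
    exact hinjL.comp h.inj
  refine fact_of_model hinj inferInstance ?_ hj' (loc_ufd hjg hdL') hδ
  have : FaithfulSMul R S := (faithfulSMul_iff_algebraMap_injective R S).2 h.inj
  have : FaithfulSMul S (Localization.Away g) :=
    (faithfulSMul_iff_algebraMap_injective S (Localization.Away g)).2 hinjL
  have : Algebra.IsAlgebraic S (Localization.Away g) :=
    IsLocalization.isAlgebraic _ (Submonoid.powers g)
  rw [← trdeg_add_eq R S (A := Localization.Away g), h.dim, trdeg_eq_zero, add_zero]

theorem fact_model {R S S' : Type} [CommRing R] [IsDomain R] [CommRing S] [Algebra R S]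
    [CommRing S'] [Algebra R S'] {n e : ℕ} (h : Geo R S n e)
    (f : Gen (algebraMap R S) ≃+* Gen (algebraMap R S')) (hd : IsDomain S')
    (hi : Function.Injective (algebraMap R S')) (hf : Algebra.FiniteType R S')
    (hc : ∀ c, f (Fb.cst (algebraMap R S) c) = Fb.cst (algebraMap R S') c) : Geo R S' n e := by
  have hdS := h.dom
  have hj := kmodel_gen (R := R) (S := S) h.inj
  have hj' := kmodel_gen (R := R) (S := S') hi
  have hdO : IsDomain (Gen (algebraMap R S)) := kmodel_domain hj
  obtain ⟨γ, hγ⟩ := h.units
  have hc' : ∀ c, (f.symm : Gen (algebraMap R S') →+* Gen (algebraMap R S))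
      (Fb.cst (algebraMap R S') c) = Fb.cst (algebraMap R S) c := fun c => by
    rw [← hc c]
    exact f.symm_apply_apply _
  have hm : KModel R ((f.symm : Gen (algebraMap R S') →+* Gen (algebraMap R S)).comp
      (toGen (algebraMap R S'))) (Fb.cst (algebraMap R S)) := by
    refine ⟨f.symm.injective.comp hj'.inj, fun r => ?_, fun o => ?_⟩
    · rw [← hc', hj'.comp]
      rfl
    · obtain ⟨s, r, hr, hs⟩ := hj'.surj (f o)
      refine ⟨s, r, hr, f.injective ?_⟩
      show f (o * f.symm (toGen (algebraMap R S') (algebraMap R S' r))) =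
        f (f.symm (toGen (algebraMap R S') s))
      rw [map_mul, f.apply_symm_apply, f.apply_symm_apply, hs]
  exact fact_of_model hi hf ((trdeg_model hm).2 ((trdeg_model hj).1 h.dim)) hm h.ufd hγ

end Pool.Agent.Lib.MP_1a0ddd_nt.Un
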