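import Pool.Agent.Lib.MP_1a0ddd_nt.Un.CtZ
import Pool.Agent.Lib.MP_1a0ddd_nt.Un.Fct

/-! Affine spaces, open subsets, change of model. -/

set_option autoImplicit false

namespace Pool.Agent.Lib.MP_1a0ddd_nt.Un

open Polynomial Pool.Agent.Lib.MP_1a0ddd_nt.V Pool.Agent.Lib.MP_1a0ddd_nt.Fb
  Pool.Agent.Lib.MP_1a0ddd_nt.Cn

/-! ### Auxiliary lemmas -/

/-- the points of the affine line over `Spec S` -/
private theorem cls_card {S : Type} [CommRing S] (p : ℕ) (a : S) :
    Nat.card {φ : S[X] →+* ZMod p // φ (C a) ≠ 0} =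
      Nat.card {σ : S →+* ZMod p // σ a ≠ 0} * p := by
  have e : {σ : S →+* ZMod p // σ a ≠ 0} × ZMod p ≃ {φ : S[X] →+* ZMod p // φ (C a) ≠ 0} :=
    { toFun := fun w => ⟨eval₂RingHom w.1.1 w.2, by simpa using w.1.2⟩
      invFun := fun φ => (⟨φ.1.comp C, φ.2⟩, φ.1 X)
      left_inv := fun w => by
        refine Prod.ext (Subtype.ext ?_) ?_
        · refine RingHom.ext fun r => ?_
          simp
        · simp
      right_inv := fun φ => by
        refine Subtype.ext (Polynomial.ringHom_ext' ?_ ?_)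
        · refine RingHom.ext fun r => ?_
          simp
        · simp }
  rw [← Nat.card_congr e, Nat.card_prod, Nat.card_zmod]

/-- the generators of `S` have a common denominator in `R`, over `S'` -/
private theorem cls_mem {R S S' O : Type} [CommRing R] [IsDomain R] [CommRing S] [Algebra R S]
    [CommRing S'] [Algebra R S'] [CommRing O] (α : S →+* O) (β : S' →+* O)
    (hαβ : ∀ r : R, α (algebraMap R S r) = β (algebraMap R S' r))
    (hf : Algebra.FiniteType R S)
    (hs : ∀ o : O, ∃ (s : S') (r : R), r ≠ 0 ∧ o * β (algebraMap R S' r) = β s) :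
    ∃ D₀ : R, D₀ ≠ 0 ∧ ∀ D : R, D₀ ∣ D → ∀ T : Subring O, (∀ s, β s ∈ T) →
      (∃ v ∈ T, β (algebraMap R S' D) * v = 1) → ∀ s, α s ∈ T := by
  classical
  obtain ⟨t, ht⟩ := hf.out
  choose a r hr h1 using fun s : S => hs (α s)
  refine ⟨∏ s ∈ t, r s, Finset.prod_ne_zero_iff.2 fun s _ => hr s, fun D hD T hT hv s => ?_⟩
  obtain ⟨v, hv, hv1⟩ := hv
  have h2 : ∀ x ∈ t, α x ∈ T := by
    intro x hx
    obtain ⟨c, hc⟩ := (Finset.dvd_prod_of_mem r hx).trans hD
    have h3 : α x = β (a x) * β (algebraMap R S' c) * v := by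
      calc α x = α x * (β (algebraMap R S' D) * v) := by rw [hv1, mul_one]
        _ = (α x * β (algebraMap R S' (r x))) * β (algebraMap R S' c) * v := by
            rw [hc, map_mul, map_mul]
            ring
        _ = _ := by rw [h1]
    rw [h3]
    exact T.mul_mem (T.mul_mem (hT _) (hT _)) hv
  have hs : s ∈ Algebra.adjoin R (t : Set S) := by rw [ht]; trivial
  induction hs using Algebra.adjoin_induction with
  | mem x hx => exact h2 x hx
  | algebraMap r => rw [hαβ]; exact hT _
  | add x y _ _ hx hy => rw [map_add]; exact T.add_mem hx hy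
  | mul x y _ _ hx hy => rw [map_mul]; exact T.mul_mem hx hy

/-- the ring `S[1/s]` inside `O` -/
private theorem cls_range {S O : Type} [CommRing S] [CommRing O] (α : S →+* O)
    (ha : Function.Injective α) {s : S} (hu : IsUnit (α s)) :
    ∃ l : Localization.Away s →+* O, Function.Injective l ∧ (∀ x, α x ∈ l.range) ∧
      (∃ v ∈ l.range, α s * v = 1) ∧ ∀ T : Subring O, (∀ x, α x ∈ T) →
      (∃ v ∈ T, α s * v = 1) → l.range ≤ T := by
  have h1 : ∀ x : S, IsLocalization.Away.lift (S := Localization.Away s) s hu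
      (algebraMap S (Localization.Away s) x) = α x := fun x =>
    IsLocalization.Away.lift_eq (S := Localization.Away s) s hu x
  obtain ⟨l, hl⟩ : ∃ l : Localization.Away s →+* O,
    ∀ x, l (algebraMap S (Localization.Away s) x) = α x := ⟨_, h1⟩
  have hsu : IsUnit (algebraMap S (Localization.Away s) s) :=
    IsLocalization.Away.algebraMap_isUnit s
  refine ⟨l, ?_, fun x => ⟨_, hl x⟩, ?_, fun T hT hv => ?_⟩
  · rw [injective_iff_map_eq_zero]
    intro x hx
    obtain ⟨n, a, h⟩ := IsLocalization.Away.surj s x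
    have h2 := congrArg l h
    rw [map_mul, hx, zero_mul, hl] at h2
    have h3 : a = 0 := ha (by rw [← h2, map_zero])
    rw [h3, map_zero] at h
    exact ((hsu.pow n).mul_left_eq_zero).1 h
  · obtain ⟨b, hb⟩ := hsu.exists_right_inv
    refine ⟨l b, ⟨b, rfl⟩, ?_⟩
    rw [← hl, ← map_mul, hb, map_one]
  · rintro _ ⟨x, rfl⟩
    obtain ⟨v, hv, hv1⟩ := hv
    obtain ⟨n, a, h⟩ := IsLocalization.Away.surj s x
    have h2 := congrArg l h
    rw [map_mul, map_pow, hl, hl] at h2
    have h3 : l x = α a * v ^ n := by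
      rw [← h2, mul_assoc, ← mul_pow, hv1, one_pow, mul_one]
    rw [h3]
    exact T.mul_mem (hT _) (T.pow_mem hv _)

private theorem cls_equiv {S S' O : Type} [CommRing S] [CommRing S'] [CommRing O] (α : S →+* O)
    (β : S' →+* O) (ha : Function.Injective α) (hb : Function.Injective β) {s : S} {s' : S'}
    (h : α s = β s') (hu : IsUnit (α s))
    (h1 : ∀ T : Subring O, (∀ x, β x ∈ T) → (∃ v ∈ T, β s' * v = 1) → ∀ x, α x ∈ T)
    (h2 : ∀ T : Subring O, (∀ x, α x ∈ T) → (∃ v ∈ T, α s * v = 1) → ∀ x, β x ∈ T) :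
    Nonempty (Localization.Away s ≃+* Localization.Away s') := by
  obtain ⟨l, l1, l2, l3, l4⟩ := cls_range α ha hu
  obtain ⟨k, k1, k2, k3, k4⟩ := cls_range β hb (h ▸ hu)
  have hle : l.range ≤ k.range := l4 _ (h1 _ k2 k3) (by rw [h]; exact k3)
  have hge : k.range ≤ l.range := k4 _ (h2 _ l2 l3) (by rw [← h]; exact l3)
  have heq : l.range = k.range := le_antisymm hle hge
  have b1 : Function.Bijective l.rangeRestrict :=
    ⟨fun x y hxy => l1 (congrArg Subtype.val hxy), l.rangeRestrict_surjective⟩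
  have b2 : Function.Bijective k.rangeRestrict :=
    ⟨fun x y hxy => k1 (congrArg Subtype.val hxy), k.rangeRestrict_surjective⟩
  exact ⟨((RingEquiv.ofBijective l.rangeRestrict b1).trans (RingEquiv.subringCongr heq)).trans
    (RingEquiv.ofBijective k.rangeRestrict b2).symm⟩

private theorem cls_hom {A B : Type} [CommRing A] [CommRing B] (e : A ≃+* B) (p : ℕ) :
    Nat.card (A →+* ZMod p) = Nat.card (B →+* ZMod p) := by
  refine Nat.card_congr
    { toFun := fun ρ => ρ.comp (e.symm : B →+* A)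
      invFun := fun ρ => ρ.comp (e : A →+* B)
      left_inv := fun ρ => RingHom.ext fun x => by simp
      right_inv := fun ρ => RingHom.ext fun x => by simp }

private theorem cls_away {S : Type} [CommRing S] (s : S) (p : ℕ) (hp : p.Prime) :
    Nat.card (Localization.Away s →+* ZMod p) = Nat.card {σ : S →+* ZMod p // σ s ≠ 0} := by
  have h := card_away s p hp fun _ => True
  rw [Nat.card_congr (Equiv.subtypeUnivEquiv fun _ => trivial)] at h
  rw [h]
  exact Nat.card_congr (Equiv.subtypeEquivRight fun σ => by simp)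

variable {R S : Type} [CommRing R] [IsDomain R] [CommRing S] [Algebra R S] {d n e : ℕ}

theorem tate_base (R : Type) [CommRing R] [IsDomain R] (d : ℕ) : Tate R R d 0 0 := by
  refine ⟨fact_base R, 1, one_ne_zero, fun D hD _ => ?_⟩
  rw [Nat.cast_zero]
  refine Quad.TauMean.zero.congr' 0 fun p _ _ => ?_
  have h1 : Nat.card {σ : R →+* ZMod p // σ (algebraMap R R D) ≠ 0} =
      Nat.card {z : R →+* ZMod p // z D ≠ 0} := rfl
  unfold countD
  rw [h1, pow_zero, one_mul, sub_self, mul_zero, zero_div]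

/-- `#S[X] = p #S` -/
theorem tate_poly (hR : BaseVar R d) (h : Tate R S d n e) : Tate R S[X] d (n + 1) e := by
  obtain ⟨D₀, h0, h1⟩ := h.count
  refine ⟨fact_poly h.geo, D₀, h0, fun D hD hd => ?_⟩
  refine (h1 D hD hd).congr' 0 fun p _ hp => ?_
  have hp0 : (p : ℝ) ≠ 0 := by exact_mod_cast hp.ne_zero
  have h2 : Nat.card {σ : S[X] →+* ZMod p // σ (algebraMap R S[X] D) ≠ 0} =
      Nat.card {σ : S →+* ZMod p // σ (algebraMap R S D) ≠ 0} * p :=
    cls_card p (algebraMap R S D)
  have e1 : n + 1 + d = (n + d) + 1 := by omega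
  unfold countD
  rw [h2, e1, pow_succ, pow_succ (p : ℝ) (n + d)]
  push_cast
  field_simp

/-- `#S[1/g] = #S - #{g = 0}`, `count_zero` -/
theorem tate_away (hR : BaseVar R d) (h : Tate R S d n e) {g : S} (hg : g ≠ 0) {m : ℕ}
    {q : Fin m → Gen (algebraMap R S)} (h1 : ∀ j, Prime (q j)) (h2 : ∀ i j, q i ∣ q j → i = j)
    (h3 : ∀ j, q j ∣ toGen (algebraMap R S) g)
    (h4 : ∀ π, Prime π → π ∣ toGen (algebraMap R S) g → ∃ j, q j ∣ π) :
    Tate R (Localization.Away g) d n (e + m) := by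
  obtain ⟨D₁, d1, t1⟩ := h.count
  obtain ⟨D₂, d2, t2⟩ := count_zero hR h.geo hg h1 h2 h3 h4
  refine ⟨fact_away h.geo hg h1 h2 h3 h4, D₁ * D₂, mul_ne_zero d1 d2, fun D hD hd => ?_⟩
  have e3 : ((e + m : ℕ) : ℝ) = (e : ℝ) + m := by push_cast; ring
  rw [e3]
  have h5 := (t1 D hD ((dvd_mul_right _ _).trans hd)).add
    (t2 D hD ((dvd_mul_left _ _).trans hd))
  have hfR := hR.finite
  have hfS := h.geo.finite
  have hfZ : Algebra.FiniteType ℤ S := Algebra.FiniteType.trans hfR hfS
  refine h5.congr' 0 fun p _ hp => ?_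
  have hfin : Finite (S →+* ZMod p) := W.finite_hom S p hp
  have c1 : Nat.card {σ : Localization.Away g →+* ZMod p //
      σ (algebraMap R (Localization.Away g) D) ≠ 0} =
      Nat.card {σ : S →+* ZMod p // σ g ≠ 0 ∧ σ (algebraMap R S D) ≠ 0} := by
    rw [← card_away g p hp fun σ => σ (algebraMap R S D) ≠ 0]
    rfl
  have c2 : Nat.card {σ : S →+* ZMod p // σ (algebraMap R S D) ≠ 0} =
      Nat.card {σ : S →+* ZMod p // σ g ≠ 0 ∧ σ (algebraMap R S D) ≠ 0} +
      Nat.card {σ : S →+* ZMod p // σ (algebraMap R S D) ≠ 0 ∧ σ g = 0} := by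
    classical
    have := Fintype.ofFinite (S →+* ZMod p)
    rw [Nat.card_eq_fintype_card, Nat.card_eq_fintype_card, Nat.card_eq_fintype_card,
      Fintype.card_subtype, Fintype.card_subtype, Fintype.card_subtype,
      ← Finset.card_union_of_disjoint]
    · congr 1
      ext σ
      simp only [Finset.mem_filter, Finset.mem_univ, true_and, Finset.mem_union]
      tauto
    · rw [Finset.disjoint_left]
      intro σ h6 h7
      exact (Finset.mem_filter.1 h6).2.1 (Finset.mem_filter.1 h7).2.2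
  unfold countD
  rw [c1, c2]
  push_cast
  ring

/-- proof: `S` and `S'` are subrings of `S' ⊗ K`, finitely generated over `R`; so there is `D₀ ≠ 0`
in `R` with `S[1/D₀] = S'[1/D₀]`, and the points with `D ≠ 0` are the same if `D₀ ∣ D` -/
theorem tate_model (hR : BaseVar R d) {S' : Type} [CommRing S'] [Algebra R S']
    (h : Tate R S d n e) (f : Gen (algebraMap R S) ≃+* Gen (algebraMap R S'))
    (hd : IsDomain S') (hi : Function.Injective (algebraMap R S'))
    (hf : Algebra.FiniteType R S')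
    (hc : ∀ c, f (Fb.cst (algebraMap R S) c) = Fb.cst (algebraMap R S') c) : Tate R S' d n e := by
  have hS := h.geo.dom
  have hj := kmodel_gen (R := R) (S := S) h.geo.inj
  have hj' := kmodel_gen (R := R) (S := S') hi
  obtain ⟨α, hα⟩ : ∃ α : S →+* Gen (algebraMap R S'), ∀ s, α s = f (toGen (algebraMap R S) s) :=
    ⟨(f : Gen (algebraMap R S) →+* Gen (algebraMap R S')).comp (toGen (algebraMap R S)),
      fun s => rfl⟩
  have ha : Function.Injective α := by
    intro x y hxy
    rw [hα, hα] at hxy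
    exact hj.inj (f.injective hxy)
  have hαβ : ∀ r : R, α (algebraMap R S r) = toGen (algebraMap R S') (algebraMap R S' r) := by
    intro r
    rw [hα, ← hj.comp, hc, hj'.comp]
  have hs : ∀ o : Gen (algebraMap R S'), ∃ (s : S) (r : R), r ≠ 0 ∧
      o * α (algebraMap R S r) = α s := by
    intro o
    obtain ⟨s, r, hr, h1⟩ := hj.surj (f.symm o)
    refine ⟨s, r, hr, ?_⟩
    rw [hα, hα, ← h1, map_mul, f.apply_symm_apply]
  have hu : ∀ r : R, r ≠ 0 → IsUnit (α (algebraMap R S r)) := by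
    intro r hr
    rw [hαβ, ← hj'.comp]
    have h1 : algebraMap R (FractionRing R) r ≠ 0 := by
      rw [Ne, IsFractionRing.to_map_eq_zero_iff]
      exact hr
    exact (IsUnit.mk0 _ h1).map _
  obtain ⟨D₀, d0, t0⟩ := h.count
  obtain ⟨D₁, d1, t1⟩ := cls_mem α (toGen (algebraMap R S')) hαβ h.geo.finite hj'.surj
  obtain ⟨D₂, d2, t2⟩ := cls_mem (toGen (algebraMap R S')) α (fun r => (hαβ r).symm) hf hs
  refine ⟨fact_model h.geo f hd hi hf hc, D₀ * (D₁ * D₂), mul_ne_zero d0 (mul_ne_zero d1 d2),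
    fun D hD hdv => ?_⟩
  refine (t0 D hD ((dvd_mul_right _ _).trans hdv)).congr' 0 fun p _ hp => ?_
  obtain ⟨w⟩ := cls_equiv α (toGen (algebraMap R S')) ha hj'.inj (hαβ D) (hu D hD)
    (t1 D (((dvd_mul_right _ _).trans (dvd_mul_left _ _)).trans hdv))
    (t2 D (((dvd_mul_left _ _).trans (dvd_mul_left _ _)).trans hdv))
  have h1 := cls_hom w p
  rw [cls_away _ p hp, cls_away _ p hp] at h1
  unfold countD
  rw [h1]

end Pool.Agent.Lib.MP_1a0ddd_nt.Un
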