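import Pool.Agent.Lib.MP_1a0ddd_nt.Un.Fct
import Pool.Agent.Lib.MP_1a0ddd_nt.Cn.Ufd

/-! The geometric half of the relative Tate property: conic bundles. -/

set_option autoImplicit false

namespace Pool.Agent.Lib.MP_1a0ddd_nt.Un

open Polynomial Pool.Agent.Lib.MP_1a0ddd_nt.V Pool.Agent.Lib.MP_1a0ddd_nt.Fb
  Pool.Agent.Lib.MP_1a0ddd_nt.Cn

/-- divisibility by a constant -/
private theorem fcc_dvd {O : Type} [CommRing O] [Nontrivial O] {a b c π s : O} {α : O[X]}
    (h : toConic a b c π ∣ elc a b c α (C s)) : π ∣ s := by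
  obtain ⟨z, hz⟩ := h
  obtain ⟨α', β', rfl⟩ := elc_surj z
  rw [elc_C, elc_mul] at hz
  obtain ⟨-, h2⟩ := elc_inj hz
  rw [zero_mul, add_zero] at h2
  have h3 : (C π : O[X]) ∣ C s := ⟨β', h2⟩
  have h4 := (C_dvd_iff_dvd_coeff _ _).1 h3 0
  rwa [coeff_C_zero] at h4

/-- if `f s²` is a square modulo `π` then `π` divides `s` -/
private theorem fcc_sq {O : Type} [CommRing O] [Nontrivial O] {a b c π s : O}
    (hp : Prime (toConic a b c π)) {w t : O[X]} (h : cq a b c * C s ^ 2 - w ^ 2 = C π * t) :
    π ∣ s := by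
  have h1 : elc a b c w (C s) * elc a b c (-w) (C s) = toConic a b c π * elc a b c t 0 := by
    rw [elc_mul, elc_C, elc_mul]
    congr 1
    · linear_combination h
    · ring
  rcases hp.dvd_or_dvd (Dvd.intro _ h1.symm) with h2 | h2
  · exact fcc_dvd h2
  · exact fcc_dvd h2

/-- over a prime divisor of the discriminant the conic is `v² = u l²`, `u` not a square. Proof: take
`u = a` if `π` does not divide `a`, otherwise `u = c` (if `π` divides `a` and `c` then it divides `b` and
`v²`, but not `v`). If `π ∣ y² - u x²` and `π` does not divide `x`, for `u = a`, then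
`(x a v)² - (y (a X + b))²` is divisible by `π`, so `π` divides one of `x a v ± y (a X + b)`, hence
`x a` (coefficient of `v`, `elc_inj`), a contradiction; similarly for `u = c`, `(x c v)² - (y (b X + c))²` -/
theorem disc_geo {O : Type} [CommRing O] [IsDomain O] {a b c π : O} (hπ : Prime π)
    (hp : Prime (toConic a b c π)) (hd : π ∣ b ^ 2 - a * c) :
    ∃ u : O, (u = a ∨ u = c) ∧ ∀ x y : O, π ∣ y ^ 2 - u * x ^ 2 → π ∣ x := by
  obtain ⟨d, hd⟩ := hd
  have hdC : (C b ^ 2 - C a * C c : O[X]) = C π * C d := by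
    rw [← C_pow, ← C_mul, ← C_mul, ← C_sub, hd]
  by_cases ha : π ∣ a
  · have hb : π ∣ b := by
      obtain ⟨a', rfl⟩ := ha
      refine hπ.dvd_of_dvd_pow (n := 2) ⟨d + a' * c, ?_⟩
      linear_combination hd
    have hc : ¬ π ∣ c := by
      intro hc
      obtain ⟨a', rfl⟩ := ha
      obtain ⟨b', rfl⟩ := hb
      obtain ⟨c', rfl⟩ := hc
      have h1 : π ∣ (1 : O) := by
        refine fcc_sq hp (w := 0) (t := cq a' b' c') ?_
        rw [cq, cq]
        simp only [C_mul, C_1, map_ofNat]
        ring
      exact hπ.not_isUnit (isUnit_of_dvd_one h1)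
    refine ⟨c, Or.inr rfl, fun x y hxy => ?_⟩
    obtain ⟨t, ht⟩ := hxy
    have htC : (C y ^ 2 - C c * C x ^ 2 : O[X]) = C π * C t := by
      rw [← C_pow, ← C_pow, ← C_mul, ← C_mul, ← C_sub, ht]
    have h1 : π ∣ x * c := by
      refine fcc_sq hp (w := C y * (C b * X + C c))
        (t := -(C t * (C b * X + C c) ^ 2) - C c * C x ^ 2 * C d * X ^ 2) ?_
      rw [cq]
      simp only [C_mul, map_ofNat]
      linear_combination (-(C b * X + C c) ^ 2) * htC - (C c * C x ^ 2 * X ^ 2) * hdC
    exact (hπ.dvd_or_dvd h1).resolve_right hc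
  · refine ⟨a, Or.inl rfl, fun x y hxy => ?_⟩
    obtain ⟨t, ht⟩ := hxy
    have htC : (C y ^ 2 - C a * C x ^ 2 : O[X]) = C π * C t := by
      rw [← C_pow, ← C_pow, ← C_mul, ← C_mul, ← C_sub, ht]
    have h1 : π ∣ x * a := by
      refine fcc_sq hp (w := C y * (C a * X + C b))
        (t := -(C t * (C a * X + C b) ^ 2) - C a * C x ^ 2 * C d) ?_
      rw [cq]
      simp only [C_mul, map_ofNat]
      linear_combination (-(C a * X + C b) ^ 2) * htC - (C a * C x ^ 2) * hdC
    exact (hπ.dvd_or_dvd h1).resolve_right ha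

theorem conic_trdeg {R S : Type} [CommRing R] [IsDomain R] [CommRing S] [IsDomain S]
    [Algebra R S] {n : ℕ} (hn : Algebra.trdeg R S = (n : Cardinal)) {a b c : S}
    (hi : Function.Injective (algebraMap R S))
    (h : ∀ x y z : S, y ^ 2 = a * x ^ 2 + 2 * b * x * z + c * z ^ 2 → x = 0 ∧ z = 0) :
    Algebra.trdeg R (Conic a b c) = ((n + 1 : ℕ) : Cardinal) := by
  have hdom : IsDomain (Conic a b c) := conic_domain h
  let : Algebra S[X] (Conic a b c) :=
    AdjoinRoot.instAlgebra (X ^ 2 - C (C a * X ^ 2 + C (2 * b) * X + C c) : S[X][X])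
  have hinjX : Function.Injective (algebraMap S[X] (Conic a b c)) := by
    intro p q hpq
    have h1 : ∀ r : S[X], algebraMap S[X] (Conic a b c) r = elc a b c r 0 := by
      intro r
      show AdjoinRoot.of _ r = AdjoinRoot.of _ r + AdjoinRoot.of _ 0 * AdjoinRoot.root _
      rw [map_zero, zero_mul, add_zero]
    rw [h1, h1] at hpq
    exact (elc_inj hpq).1
  have hinjS : Function.Injective (algebraMap S (Conic a b c)) := by
    intro p q hpq
    have h1 : toConic a b c p = toConic a b c q := hpq
    rw [elc_C, elc_C] at h1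
    exact C_injective (elc_inj h1).1
  have : FaithfulSMul R S := (faithfulSMul_iff_algebraMap_injective R S).2 hi
  have : FaithfulSMul S (Conic a b c) := (faithfulSMul_iff_algebraMap_injective _ _).2 hinjS
  have : FaithfulSMul S[X] (Conic a b c) := (faithfulSMul_iff_algebraMap_injective _ _).2 hinjX
  have : IsScalarTower R S (Conic a b c) := IsScalarTower.of_algebraMap_eq fun r => rfl
  have : IsScalarTower S S[X] (Conic a b c) := IsScalarTower.of_algebraMap_eq fun r => rfl
  have halg : Algebra.IsAlgebraic S[X] (Conic a b c) := by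
    have hm : (X ^ 2 - C (C a * X ^ 2 + C (2 * b) * X + C c) : S[X][X]).Monic :=
      monic_X_pow_sub_C _ two_ne_zero
    have hf := hm.finite_adjoinRoot
    have h1 : Algebra.IsIntegral S[X]
        (AdjoinRoot (X ^ 2 - C (C a * X ^ 2 + C (2 * b) * X + C c) : S[X][X])) :=
      Algebra.IsIntegral.of_finite _ _
    exact h1.isAlgebraic
  have e1 := trdeg_add_eq R S (A := Conic a b c)
  have e2 := trdeg_add_eq S S[X] (A := Conic a b c)
  have e3 : Algebra.trdeg S[X] (Conic a b c) = 0 := trdeg_eq_zero
  have e4 : Algebra.trdeg S S[X] = 1 := Polynomial.trdeg_of_isDomain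
  rw [← e1, ← e2, e3, e4, hn, add_zero]
  push_cast
  rfl

private theorem fcc_unit {R S O : Type} [CommRing R] [IsDomain R] [CommRing S] [Algebra R S]
    [CommRing O] {j : S →+* O} {κ : FractionRing R →+* O} (h : KModel R j κ) {r : R}
    (hr : r ≠ 0) : IsUnit (j (algebraMap R S r)) := by
  rw [← h.comp]
  have h1 : algebraMap R (FractionRing R) r ≠ 0 := by
    rw [Ne, IsFractionRing.to_map_eq_zero_iff]
    exact hr
  exact (IsUnit.mk0 _ h1).map κ

/-- proof: as `relTate_conic`: `conic_model`, `conic_ufd` (with `disc_geo`), `conic_unitFam`; the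
model is Noetherian because `S` is -/
theorem fact_conic {R S : Type} [CommRing R] [IsDomain R] [CharZero R]
    [Algebra.FiniteType ℤ R] [CommRing S] [Algebra R S] {n e : ℕ} (h : Geo R S n e)
    {a b c : S} (hc : ConicGeo R a b c) : Geo R (Conic a b c) (n + 1) e := by
  have hdS := h.dom
  have hfRS := h.finite
  have hfS : Algebra.FiniteType ℤ S := Algebra.FiniteType.trans (S := R) inferInstance hfRS
  have hnS : IsNoetherianRing S := Algebra.FiniteType.isNoetherianRing ℤ S
  have hj : KModel R (toGen (algebraMap R S)) (Fb.cst (algebraMap R S)) := kmodel_gen h.inj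
  have hdO : IsDomain (Gen (algebraMap R S)) := kmodel_domain hj
  have huO := h.ufd
  have hnO : IsNoetherianRing (Gen (algebraMap R S)) := kmodel_noetherian hj
  obtain ⟨γ, hγ⟩ := h.units
  obtain ⟨J, hJ⟩ := conic_model (a := a) (b := b) (c := c) hj
  have hdC : IsDomain (Conic a b c) := conic_domain hc.aniso
  have han := aniso_model hj hc.aniso
  have h2 : IsUnit (2 : Gen (algebraMap R S)) := by
    have h3 := fcc_unit hj (r := (2 : R)) two_ne_zero
    rwa [map_ofNat, map_ofNat] at h3
  have hinj : Function.Injective (algebraMap R (Conic a b c)) := by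
    intro x y hxy
    have h3 : toConic a b c (algebraMap R S x) = toConic a b c (algebraMap R S y) := hxy
    rw [elc_C, elc_C] at h3
    exact h.inj (C_injective (elc_inj h3).1)
  have hft : Algebra.FiniteType R (Conic a b c) := by
    have h4 : (algebraMap R S).FiniteType := RingHom.finiteType_algebraMap.2 hfRS
    have h5 : (C : S →+* S[X]).FiniteType :=
      RingHom.finiteType_algebraMap.2 (inferInstance : Algebra.FiniteType S S[X])
    have h6 : (C : S[X] →+* S[X][X]).FiniteType :=
      RingHom.finiteType_algebraMap.2 (inferInstance : Algebra.FiniteType S[X] S[X][X])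
    have h7 : (AdjoinRoot.mk (X ^ 2 - C (C a * X ^ 2 + C (2 * b) * X + C c) :
        S[X][X])).FiniteType := RingHom.FiniteType.of_surjective _ AdjoinRoot.mk_surjective
    have h8 := h7.comp (h6.comp (h5.comp h4))
    exact h8
  exact fact_of_model hinj hft (conic_trdeg h.dim h.inj hc.aniso) hJ
    (conic_ufd h2 han fun π hπ hd => disc_geo hπ (hc.irr π hπ) hd)
    (conic_unitFam (a := toGen (algebraMap R S) a) (b := toGen (algebraMap R S) b)
      (c := toGen (algebraMap R S) c) _ hγ han)

end Pool.Agent.Lib.MP_1a0ddd_nt.Un
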