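import Pool.Agent.Lib.MP_1a0ddd_nt.Un.Cex
import Pool.Agent.Lib.MP_1a0ddd_nt.Un.FcC
import Pool.Agent.Lib.MP_1a0ddd_nt.Cn.Cm

/-! The data of a conic bundle over open subsets of the base. -/

set_option autoImplicit false

namespace Pool.Agent.Lib.MP_1a0ddd_nt.Un

open Polynomial Pool.Agent.Lib.MP_1a0ddd_nt.V Pool.Agent.Lib.MP_1a0ddd_nt.Fb
  Pool.Agent.Lib.MP_1a0ddd_nt.Cn

private theorem cd_lw {A : Type} [CommRing A] [IsDomain A] [CharZero A] (a : Algebra ℤ A)
    (hf : @Algebra.FiniteType ℤ A _ _ a) {δ : ℕ}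
    (hd : @Algebra.trdeg ℤ A _ _ a = (δ : Cardinal)) : Quad.LangWeilT A δ := by
  have e : a = Ring.toIntAlgebra A := Subsingleton.elim _ _
  subst e
  exact LW.langWeil A δ hd

private theorem cd_int {A : Type} [CommRing A] (a : Algebra ℤ A)
    (hf : @Algebra.FiniteType ℤ A _ _ a) :
    @Algebra.FiniteType ℤ A _ _ (Ring.toIntAlgebra A) := by
  have e : a = Ring.toIntAlgebra A := Subsingleton.elim _ _
  subst e
  exact hf

private theorem cd_sqt {A : Type} [CommRing A] [IsDomain A] [CharZero A] (a : Algebra ℤ A)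
    (hf : @Algebra.FiniteType ℤ A _ _ a) {δ : ℕ}
    (hd : @Algebra.trdeg ℤ A _ _ a = (δ : Cardinal)) {u : A}
    (hu : ∀ x y : A, y ^ 2 = u * x ^ 2 → x = 0) : Quad.LangWeilT (Sqt u) δ := by
  have e : a = Ring.toIntAlgebra A := Subsingleton.elim _ _
  subst e
  have h1 := sqt_domain hu
  obtain ⟨h2, h3⟩ := sqt_trdeg hu
  have hf' : Algebra.FiniteType ℤ A := hf
  have h4 : @Algebra.FiniteType ℤ A[X] _ _ (Ring.toIntAlgebra _) :=
    cd_int _ (inferInstance : @Algebra.FiniteType ℤ A[X] _ _ Polynomial.algebraOfAlgebra)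
  have h5 : Function.Surjective (AdjoinRoot.mk (X ^ 2 - C u : A[X])) := AdjoinRoot.mk_surjective
  have h6 : @Algebra.FiniteType ℤ (Sqt u) _ _ (Ring.toIntAlgebra _) :=
    Algebra.FiniteType.of_surjective
      ((AdjoinRoot.mk (X ^ 2 - C u : A[X]) : A[X] →+* Sqt u).toIntAlgHom) h5
  exact cd_lw _ h6 (h3.trans hd)

private theorem cd_frac {S : Type} [CommRing S] (g : S) (x : Localization.Away g) :
    ∃ K : ℕ, ∀ n, K ≤ n → ∃ a : S, x * algebraMap S (Localization.Away g) g ^ n =
      algebraMap S (Localization.Away g) a := by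
  obtain ⟨K, a, h⟩ := IsLocalization.Away.surj g x
  have h' : x * algebraMap S (Localization.Away g) g ^ K = algebraMap S (Localization.Away g) a := h
  refine ⟨K, fun n hn => ⟨a * g ^ (n - K), ?_⟩⟩
  rw [map_mul, map_pow, ← h', mul_assoc, ← pow_add, Nat.add_sub_cancel' hn]

private theorem cd_ne {S : Type} [CommRing S] [IsDomain S] {a b c : S}
    (h : ∀ x y z : S, y ^ 2 = a * x ^ 2 + 2 * b * x * z + c * z ^ 2 → x = 0 ∧ z = 0) :
    b ^ 2 - a * c ≠ 0 := by
  intro h0
  by_cases ha : a = 0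
  · have hb : b = 0 := by
      rw [ha, zero_mul, sub_zero] at h0
      exact pow_eq_zero_iff two_ne_zero |>.1 h0
    exact one_ne_zero (h 1 0 0 (by rw [ha, hb]; ring)).1
  · have h1 := (h b 0 (-a) (by linear_combination (a : S) * h0)).2
    exact ha (neg_eq_zero.1 h1)

private theorem cd_ft_quot {A : Type} [CommRing A] (a : Algebra ℤ A)
    (hf : @Algebra.FiniteType ℤ A _ _ a) (J : Ideal A) :
    @Algebra.FiniteType ℤ (A ⧸ J) _ _ (Ring.toIntAlgebra _) := by
  have e : a = Ring.toIntAlgebra A := Subsingleton.elim _ _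
  subst e
  exact Algebra.FiniteType.of_surjective ((Ideal.Quotient.mk J).toIntAlgHom)
    Ideal.Quotient.mk_surjective

/-- the quotients -/
private theorem cd_quot {R S : Type} [CommRing R] [IsDomain R] [CommRing S] [Algebra R S]
    {d n e : ℕ} (hR : BaseVar R d) (h : Geo R S n e) {π : Gen (algebraMap R S)} (hπ : Prime π)
    {D : R} (hD : D ≠ 0) {δ : ℕ} (hδ : δ + 1 = n + d)
    {P : Ideal (Localization.Away (algebraMap R S D))} (hP : P.IsPrime)
    (h1 : ∀ x : S, algebraMap S (Localization.Away (algebraMap R S D)) x ∈ P ↔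
          π ∣ toGen (algebraMap R S) x)
    (h2 : ∀ r : R, algebraMap R (Localization.Away (algebraMap R S D)) r ∈ P → r = 0)
    {a b c : S} (hp : Prime (toConic (toGen (algebraMap R S) a) (toGen (algebraMap R S) b)
      (toGen (algebraMap R S) c) π)) (hd : π ∣ toGen (algebraMap R S) (b ^ 2 - a * c)) :
    ∃ u : Localization.Away (algebraMap R S D),
      (u = algebraMap S (Localization.Away (algebraMap R S D)) a ∨
        u = algebraMap S (Localization.Away (algebraMap R S D)) c) ∧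
      (∀ x y : Localization.Away (algebraMap R S D), y ^ 2 - u * x ^ 2 ∈ P → x ∈ P) ∧
      Quad.LangWeilT (Sqt (Ideal.Quotient.mk P u)) δ := by
  have hdR := hR.domain
  have hzR := hR.zero
  have hdS := h.dom
  have hzS : CharZero S := charZero_of_injective_algebraMap h.inj
  have hj := kmodel_gen (R := R) (S := S) h.inj
  have hdO : IsDomain (Gen (algebraMap R S)) := kmodel_domain hj
  obtain ⟨g, hg⟩ : ∃ g : S, g = algebraMap R S D := ⟨_, rfl⟩
  obtain ⟨A, hA⟩ : ∃ A : S →+* Localization.Away (algebraMap R S D),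
    A = algebraMap S (Localization.Away (algebraMap R S D)) := ⟨_, rfl⟩
  have hfrac : ∀ x : Localization.Away (algebraMap R S D), ∃ K : ℕ, ∀ n, K ≤ n →
      ∃ s : S, x * A g ^ n = A s := by
    intro x
    rw [hA, hg]
    exact cd_frac _ x
  have h1' : ∀ x : S, A x ∈ P ↔ π ∣ toGen (algebraMap R S) x := by
    rw [hA]
    exact h1
  have hgP : A g ∉ P := by
    intro h3
    apply hD
    apply h2
    rw [IsScalarTower.algebraMap_apply R S (Localization.Away (algebraMap R S D)), ← hA]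
    rw [hg] at h3
    exact h3
  have hgP' : ∀ n : ℕ, A g ^ n ∉ P := fun n h3 => hgP (hP.mem_of_pow_mem n h3)
  have hd' : π ∣ toGen (algebraMap R S) b ^ 2 - toGen (algebraMap R S) a *
      toGen (algebraMap R S) c := by
    rw [map_sub, map_pow, map_mul] at hd
    exact hd
  obtain ⟨u, hu, hu'⟩ : ∃ u : S, (u = a ∨ u = c) ∧ ∀ x y : Gen (algebraMap R S),
      π ∣ y ^ 2 - toGen (algebraMap R S) u * x ^ 2 → π ∣ x := by
    obtain ⟨u, hu, hu'⟩ := disc_geo hπ hp hd'
    rcases hu with hu | hu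
    · exact ⟨a, Or.inl rfl, by rw [← hu]; exact hu'⟩
    · exact ⟨c, Or.inr rfl, by rw [← hu]; exact hu'⟩
  have hcond : ∀ x y : Localization.Away (algebraMap R S D), y ^ 2 - A u * x ^ 2 ∈ P → x ∈ P := by
    intro x y hxy
    obtain ⟨K, hK⟩ := hfrac x
    obtain ⟨L, hL⟩ := hfrac y
    obtain ⟨x', hx'⟩ := hK (max K L) (le_max_left _ _)
    obtain ⟨y', hy'⟩ := hL (max K L) (le_max_right _ _)
    have e1 : A (y' ^ 2 - u * x' ^ 2) = (y ^ 2 - A u * x ^ 2) * (A g ^ max K L) ^ 2 := by
      rw [map_sub, map_mul, map_pow, map_pow, ← hx', ← hy']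
      ring
    have e2 : A (y' ^ 2 - u * x' ^ 2) ∈ P := by
      rw [e1]
      exact P.mul_mem_right _ hxy
    rw [h1', map_sub, map_mul, map_pow, map_pow] at e2
    have e3 : A x' ∈ P := (h1' x').2 (hu' _ _ e2)
    rw [← hx'] at e3
    exact (hP.mem_or_mem e3).resolve_right (hgP' _)
  refine ⟨A u, ?_, hcond, ?_⟩
  · rw [← hA]
    rcases hu with rfl | rfl
    · exact Or.inl rfl
    · exact Or.inr rfl
  -- the ideal in `S`
  obtain ⟨P₀, hP₀⟩ : ∃ P₀ : Ideal S, P₀ = (Ideal.span {π}).comap (toGen (algebraMap R S)) :=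
    ⟨_, rfl⟩
  have hmem : ∀ x : S, x ∈ P₀ ↔ A x ∈ P := by
    intro x
    rw [h1', hP₀, Ideal.mem_comap, Ideal.mem_span_singleton]
  have hPc : P₀ = P.comap A := Ideal.ext fun x => by rw [hmem, Ideal.mem_comap]
  have hP₀p : P₀.IsPrime := by
    rw [hPc]
    exact Ideal.comap_isPrime A P
  obtain ⟨n', hn', htr⟩ := trdeg_divisor h hπ
  rw [← hP₀] at htr
  have hinjR : Function.Injective (algebraMap R (S ⧸ P₀)) := by
    rw [injective_iff_map_eq_zero]
    intro r hr
    apply h2
    rw [IsScalarTower.algebraMap_apply R S (Localization.Away (algebraMap R S D)), ← hA, ← hmem]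
    rw [IsScalarTower.algebraMap_apply R S (S ⧸ P₀)] at hr
    exact Ideal.Quotient.eq_zero_iff_mem.1 hr
  have hinjR' : Function.Injective
      ((Ideal.Quotient.mk P).comp (algebraMap R (Localization.Away (algebraMap R S D)))) := by
    rw [injective_iff_map_eq_zero]
    intro r hr
    exact h2 r (Ideal.Quotient.eq_zero_iff_mem.1 hr)
  have hz0 : CharZero (S ⧸ P₀) := charZero_of_injective_algebraMap hinjR
  have hz1 : CharZero (Localization.Away (algebraMap R S D) ⧸ P) :=
    charZero_of_injective_ringHom hinjR'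
  have ht0 := trdeg_tower hinjR hR.dim htr
  obtain ⟨f, hf⟩ : ∃ f : S ⧸ P₀ →+* Localization.Away (algebraMap R S D) ⧸ P,
      ∀ s, f (Ideal.Quotient.mk P₀ s) = Ideal.Quotient.mk P (A s) :=
    ⟨Ideal.Quotient.lift P₀ ((Ideal.Quotient.mk P).comp A) (fun s hs =>
      Ideal.Quotient.eq_zero_iff_mem.2 ((hmem s).1 hs)), fun s => rfl⟩
  have hfi : Function.Injective f := by
    rw [injective_iff_map_eq_zero]
    intro x hx
    obtain ⟨s, rfl⟩ := Ideal.Quotient.mk_surjective x
    rw [hf] at hx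
    exact Ideal.Quotient.eq_zero_iff_mem.2 ((hmem s).2 (Ideal.Quotient.eq_zero_iff_mem.1 hx))
  have hgn : ∀ n : ℕ, Ideal.Quotient.mk P₀ (g ^ n) ≠ 0 := by
    intro n h3
    have h4 := (hmem _).1 (Ideal.Quotient.eq_zero_iff_mem.1 h3)
    rw [map_pow] at h4
    exact hgP' n h4
  have ht1 : @Algebra.trdeg ℤ (Localization.Away (algebraMap R S D) ⧸ P) _ _
      (Ring.toIntAlgebra _) = ((d + n' : ℕ) : Cardinal) := by
    refine (trdeg_alg f hfi fun x => ?_).trans ht0
    obtain ⟨x', rfl⟩ := Ideal.Quotient.mk_surjective x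
    obtain ⟨K, hK⟩ := hfrac x'
    obtain ⟨s, hs⟩ := hK K le_rfl
    refine ⟨C (Ideal.Quotient.mk P₀ (g ^ K)) * X - C (Ideal.Quotient.mk P₀ s), ?_, ?_⟩
    · intro h3
      have h4 := congrArg (fun p => coeff p 1) h3
      simp only [coeff_sub, coeff_C_mul, coeff_X_one, mul_one, coeff_C, one_ne_zero, if_false,
        sub_zero, coeff_zero] at h4
      exact hgn K h4
    · rw [eval₂_sub, eval₂_mul, eval₂_C, eval₂_X, eval₂_C, hf, hf, map_pow, ← hs, map_mul]
      ring
  have hδ' : d + n' = δ := by omega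
  rw [hδ'] at ht1
  have hfS : Algebra.FiniteType ℤ S := by
    have := hR.finite
    have := h.finite
    exact Algebra.FiniteType.trans hR.finite h.finite
  have hfS' : Algebra.FiniteType ℤ (Localization.Away (algebraMap R S D)) := inferInstance
  refine cd_sqt _ (cd_ft_quot _ hfS' P) ht1 fun x y hxy => ?_
  obtain ⟨x', rfl⟩ := Ideal.Quotient.mk_surjective x
  obtain ⟨y', rfl⟩ := Ideal.Quotient.mk_surjective y
  rw [Ideal.Quotient.eq_zero_iff_mem]
  apply hcond x' y'
  rw [← Ideal.Quotient.eq_zero_iff_mem, map_sub, map_mul, map_pow, map_pow, hxy, sub_self]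

/-- The hypotheses of `conic_mean` for `S[1/D]`. Proof: `langWeil` for `S[1/D]`, `Sqt a` (`sqt_domain`,
`sqt_trdeg`), `comps_exist` for the discriminant (not zero because of `aniso`), `disc_geo` for the `q_i`,
and `langWeil` for the `Sqt` of the quotients -/
theorem conicData_exist {R S : Type} [CommRing R] [IsDomain R] [CommRing S] [Algebra R S]
    {d n e : ℕ} (hR : BaseVar R d) (h : Geo R S n e) {a b c : S} (hc : ConicGeo R a b c) :
    ∃ D₀ : R, D₀ ≠ 0 ∧ ∀ D : R, D ≠ 0 → D₀ ∣ D → ∀ δ : ℕ, δ + 1 = n + d →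
      ConicData R (algebraMap S (Localization.Away (algebraMap R S D)) a)
        (algebraMap S (Localization.Away (algebraMap R S D)) b)
        (algebraMap S (Localization.Away (algebraMap R S D)) c) δ := by
  have hdR := hR.domain
  have hzR := hR.zero
  have hdS := h.dom
  have hzS : CharZero S := charZero_of_injective_algebraMap h.inj
  have hj := kmodel_gen (R := R) (S := S) h.inj
  have hdO : IsDomain (Gen (algebraMap R S)) := kmodel_domain hj
  have hufd := h.ufd
  have hf0 : b ^ 2 - a * c ≠ 0 := cd_ne hc.aniso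
  have hf1 : toGen (algebraMap R S) (b ^ 2 - a * c) ≠ 0 := (map_ne_zero_iff _ hj.inj).2 hf0
  obtain ⟨m, q, h1, h2, h3, h4⟩ := factors_exist hf1
  obtain ⟨D₀, hD₀, hD₀'⟩ := comps_exist hR h hf0 h1 h2 h3 h4
  refine ⟨D₀, hD₀, fun D hD hDD δ hδ => ?_⟩
  obtain ⟨P, hP1, hP2⟩ := hD₀' D hD hDD δ hδ
  obtain ⟨g, hg⟩ : ∃ g : S, g = algebraMap R S D := ⟨_, rfl⟩
  have hg0 : algebraMap R S D ≠ 0 := (map_ne_zero_iff _ h.inj).2 hD
  obtain ⟨A, hA⟩ : ∃ A : S →+* Localization.Away (algebraMap R S D),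
    A = algebraMap S (Localization.Away (algebraMap R S D)) := ⟨_, rfl⟩
  have hinj : Function.Injective A := by
    rw [hA]
    exact IsLocalization.injective (Localization.Away (algebraMap R S D))
      (powers_le_nonZeroDivisors_of_noZeroDivisors hg0)
  have hdS' : IsDomain (Localization.Away (algebraMap R S D)) :=
    IsLocalization.isDomain_localization (powers_le_nonZeroDivisors_of_noZeroDivisors hg0)
  have hzS' : CharZero (Localization.Away (algebraMap R S D)) :=
    charZero_of_injective_ringHom hinj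
  have hAg : A g ≠ 0 := by
    rw [← hg] at hg0
    exact (map_ne_zero_iff _ hinj).2 hg0
  have hfrac : ∀ x : Localization.Away (algebraMap R S D), ∃ K : ℕ, ∀ n, K ≤ n →
      ∃ s : S, x * A g ^ n = A s := by
    intro x
    rw [hA, hg]
    exact cd_frac _ x
  rw [← hA]
  rw [← hA] at hP2
  have haniso : ∀ x y z : Localization.Away (algebraMap R S D),
      y ^ 2 = A a * x ^ 2 + 2 * A b * x * z + A c * z ^ 2 → x = 0 ∧ z = 0 := by
    intro x y z hxyz
    obtain ⟨K, hK⟩ := hfrac x
    obtain ⟨L, hL⟩ := hfrac y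
    obtain ⟨M, hM⟩ := hfrac z
    obtain ⟨x', hx'⟩ := hK (max K (max L M)) (le_max_left _ _)
    obtain ⟨y', hy'⟩ := hL (max K (max L M)) ((le_max_left _ _).trans (le_max_right _ _))
    obtain ⟨z', hz'⟩ := hM (max K (max L M)) ((le_max_right _ _).trans (le_max_right _ _))
    have e1 : y' ^ 2 = a * x' ^ 2 + 2 * b * x' * z' + c * z' ^ 2 := by
      apply hinj
      rw [map_pow, map_add, map_add, map_mul, map_mul, map_mul, map_mul, map_mul, map_pow,
        map_pow, ← hx', ← hy', ← hz', map_ofNat]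
      linear_combination (A g ^ max K (max L M)) ^ 2 * hxyz
    obtain ⟨e2, e3⟩ := hc.aniso x' y' z' e1
    rw [e2, map_zero] at hx'
    rw [e3, map_zero] at hz'
    exact ⟨(mul_eq_zero.1 hx').resolve_right (pow_ne_zero _ hAg),
      (mul_eq_zero.1 hz').resolve_right (pow_ne_zero _ hAg)⟩
  have ht : Algebra.trdeg ℤ (Localization.Away (algebraMap R S D)) =
      ((δ + 1 : ℕ) : Cardinal) := by
    have e : δ + 1 = d + n := by omega
    rw [e]
    exact (trdeg_away hg0).trans (trdeg_tower h.inj hR.dim h.dim)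
  have hfS : Algebra.FiniteType ℤ S := by
    have := hR.finite
    have := h.finite
    exact Algebra.FiniteType.trans hR.finite h.finite
  have hfS' : Algebra.FiniteType ℤ (Localization.Away (algebraMap R S D)) := inferInstance
  refine ⟨haniso, cd_lw _ hfS' ht, cd_sqt _ hfS' ht fun x y hxy => ?_, m, P, ?_, fun i => ?_⟩
  · exact (haniso x y 0 (by rw [hxy]; ring)).1
  · rw [map_sub, map_pow, map_mul] at hP2
    exact hP2
  · have h5 := cd_quot hR h (h1 i) hD hδ (hP2.prime i) (hP1 i) (hP2.dom i)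
      (hc.irr (q i) (h1 i)) (h3 i)
    rw [← hA] at h5
    exact h5

end Pool.Agent.Lib.MP_1a0ddd_nt.Un
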