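import Pool.Agent.Lib.MP_1a0ddd_nt.Un.CtZ
import Pool.Agent.Lib.MP_1a0ddd_nt.Un.CdE
import Pool.Agent.Lib.MP_1a0ddd_nt.Cn.Cm

/-! Counts of conic bundles over open subsets of the base. -/

set_option autoImplicit false

namespace Pool.Agent.Lib.MP_1a0ddd_nt.Un

open Polynomial Pool.Agent.Lib.MP_1a0ddd_nt.V Pool.Agent.Lib.MP_1a0ddd_nt.Fb
  Pool.Agent.Lib.MP_1a0ddd_nt.Cn

/-- ring maps from a localisation -/
private noncomputable def ctAway {S : Type} [CommRing S] (s : S) (p : ℕ) [Fact p.Prime] :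
    (Localization.Away s →+* ZMod p) ≃ {σ : S →+* ZMod p // σ s ≠ 0} where
  toFun ρ := ⟨ρ.comp (algebraMap S (Localization.Away s)), fun h => by
    have h1 : IsUnit (ρ (algebraMap S (Localization.Away s) s)) :=
      (IsLocalization.Away.algebraMap_isUnit s).map ρ
    exact h1.ne_zero h⟩
  invFun σ := IsLocalization.Away.lift s (isUnit_iff_ne_zero.2 σ.2)
  left_inv ρ := IsLocalization.ringHom_ext (Submonoid.powers s)
    (IsLocalization.Away.lift_comp s _)
  right_inv σ := Subtype.ext (IsLocalization.Away.lift_comp s _)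

/-- the quotient map -/
private noncomputable def ctMk {S : Type} [CommRing S] (a b c : S) : S[X][X] →+* Conic a b c :=
  AdjoinRoot.mk (X ^ 2 - C (C a * X ^ 2 + C (2 * b) * X + C c) : S[X][X])

/-- the ring map given by a point -/
private noncomputable def ctLift {S : Type} [CommRing S] (a b c : S) {p : ℕ} (σ : S →+* ZMod p)
    (u v : ZMod p) (h : v ^ 2 = σ a * u ^ 2 + 2 * σ b * u + σ c) : Conic a b c →+* ZMod p :=
  AdjoinRoot.lift (eval₂RingHom σ u) v (by
    simp only [eval₂_sub, eval₂_pow, eval₂_X, eval₂_C, coe_eval₂RingHom, eval₂_add, eval₂_mul,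
      map_mul, map_ofNat, eval₂_ofNat]
    linear_combination h)

private theorem ctLift_mk {S : Type} [CommRing S] (a b c : S) {p : ℕ} (σ : S →+* ZMod p)
    (u v : ZMod p) (h : v ^ 2 = σ a * u ^ 2 + 2 * σ b * u + σ c) (P : S[X][X]) :
    ctLift a b c σ u v h (ctMk a b c P) = P.eval₂ (eval₂RingHom σ u) v :=
  AdjoinRoot.lift_mk _ _

private theorem ctPt {S : Type} [CommRing S] {a b c : S} {p : ℕ} (ρ : Conic a b c →+* ZMod p) :
    ρ (ctMk a b c X) ^ 2 = (ρ.comp (toConic a b c)) a * ρ (ctMk a b c (C X)) ^ 2 +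
      2 * (ρ.comp (toConic a b c)) b * ρ (ctMk a b c (C X)) + (ρ.comp (toConic a b c)) c := by
  have h1 : ρ (ctMk a b c (X ^ 2 - C (C a * X ^ 2 + C (2 * b) * X + C c))) = 0 := by
    have h2 : ctMk a b c (X ^ 2 - C (C a * X ^ 2 + C (2 * b) * X + C c)) = 0 :=
      AdjoinRoot.mk_self
    rw [h2, map_zero]
  set θ : S[X][X] →+* ZMod p := ρ.comp (ctMk a b c) with hθ
  have h3 : θ (X ^ 2 - C (C a * X ^ 2 + C (2 * b) * X + C c)) = 0 := h1
  have h4 : θ (C (C (2 * b))) = 2 * θ (C (C b)) := by
    rw [C_mul, C_mul, map_mul, map_ofNat, map_ofNat, map_ofNat]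
  have h5 : θ (X ^ 2 - C (C a * X ^ 2 + C (2 * b) * X + C c)) =
      θ X ^ 2 - (θ (C (C a)) * θ (C X) ^ 2 + θ (C (C (2 * b))) * θ (C X) + θ (C (C c))) := by
    rw [C_add, C_add, C_mul, C_mul, C_pow, map_sub, map_add, map_add, map_mul, map_mul, map_pow,
      map_pow]
  change θ X ^ 2 = θ (C (C a)) * θ (C X) ^ 2 + 2 * θ (C (C b)) * θ (C X) + θ (C (C c))
  rw [h5, h4] at h3
  linear_combination h3

/-- ring maps from a conic bundle -/
private noncomputable def ctConic {S : Type} [CommRing S] (a b c : S) (p : ℕ) :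
    (Conic a b c →+* ZMod p) ≃ {x : (S →+* ZMod p) × (ZMod p × ZMod p) //
      x.2.2 ^ 2 = x.1 a * x.2.1 ^ 2 + 2 * x.1 b * x.2.1 + x.1 c} where
  toFun ρ := ⟨(ρ.comp (toConic a b c), (ρ (ctMk a b c (C X)), ρ (ctMk a b c X))), ctPt ρ⟩
  invFun x := ctLift a b c x.1.1 x.1.2.1 x.1.2.2 x.2
  left_inv ρ := by
    refine Ideal.Quotient.ringHom_ext (Polynomial.ringHom_ext' (Polynomial.ringHom_ext' ?_ ?_) ?_)
    · refine RingHom.ext fun s => (ctLift_mk a b c _ _ _ (ctPt ρ) (C (C s))).trans ?_
      rw [eval₂_C, coe_eval₂RingHom, eval₂_C]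
      rfl
    · refine (ctLift_mk a b c _ _ _ (ctPt ρ) (C X)).trans ?_
      rw [eval₂_C, coe_eval₂RingHom, eval₂_X]
      rfl
    · refine (ctLift_mk a b c _ _ _ (ctPt ρ) X).trans ?_
      rw [eval₂_X]
      rfl
  right_inv x := by
    refine Subtype.ext (Prod.ext ?_ (Prod.ext ?_ ?_))
    · refine RingHom.ext fun s => (ctLift_mk a b c _ _ _ x.2 (C (C s))).trans ?_
      rw [eval₂_C, coe_eval₂RingHom, eval₂_C]
    · refine (ctLift_mk a b c _ _ _ x.2 (C X)).trans ?_
      rw [eval₂_C, coe_eval₂RingHom, eval₂_X]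
    · refine (ctLift_mk a b c _ _ _ x.2 X).trans ?_
      rw [eval₂_X]

private theorem ctCard {S : Type} [CommRing S] (a b c : S) (p : ℕ) [Fact p.Prime]
    (Q : (S →+* ZMod p) → Prop) [Fintype {σ : S →+* ZMod p // Q σ}] :
    Nat.card {ρ : Conic a b c →+* ZMod p // Q (ρ.comp (toConic a b c))} =
      ∑ σ : {σ : S →+* ZMod p // Q σ}, Nat.card {q : ZMod p × ZMod p //
        q.2 ^ 2 = σ.1 a * q.1 ^ 2 + 2 * σ.1 b * q.1 + σ.1 c} := by
  have e : {ρ : Conic a b c →+* ZMod p // Q (ρ.comp (toConic a b c))} ≃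
      Σ σ : {σ : S →+* ZMod p // Q σ}, {q : ZMod p × ZMod p //
        q.2 ^ 2 = σ.1 a * q.1 ^ 2 + 2 * σ.1 b * q.1 + σ.1 c} :=
    (Equiv.subtypeEquiv (ctConic a b c p) (p := fun ρ => Q (ρ.comp (toConic a b c)))
      (q := fun x => Q x.1.1) (fun ρ => Iff.rfl)).trans
      { toFun := fun x => ⟨⟨x.1.1.1, x.2⟩, ⟨x.1.1.2, x.1.2⟩⟩
        invFun := fun y => ⟨⟨(y.1.1, y.2.1), y.2.2⟩, y.1.2⟩
        left_inv := fun _ => rfl
        right_inv := fun _ => rfl }
  rw [Nat.card_congr e, Nat.card_sigma]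

/-- the conic bundle over an open subset -/
private theorem ctSum {S : Type} [CommRing S] (a b c s : S) (p : ℕ) [Fact p.Prime]
    [Fintype (Localization.Away s →+* ZMod p)] :
    Nat.card {ρ : Conic a b c →+* ZMod p // ρ (toConic a b c s) ≠ 0} =
      ∑ σ : Localization.Away s →+* ZMod p, Nat.card {q : ZMod p × ZMod p //
        q.2 ^ 2 = σ (algebraMap S _ a) * q.1 ^ 2 + 2 * σ (algebraMap S _ b) * q.1 +
          σ (algebraMap S _ c)} := by
  classical
  have := Fintype.ofEquiv _ (ctAway s p)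
  have h1 := ctCard a b c p (fun σ => σ s ≠ 0)
  refine h1.trans (Fintype.sum_equiv (ctAway s p).symm _ _ fun σ => ?_)
  obtain ⟨τ, rfl⟩ := (ctAway s p).surjective σ
  rw [Equiv.symm_apply_apply]
  rfl

private theorem ft_int (S : Type) [CommRing S] [a : Algebra ℤ S]
    (h : @Algebra.FiniteType ℤ S _ _ a) : @Algebra.FiniteType ℤ S _ _ (Ring.toIntAlgebra S) := by
  have e : a = Ring.toIntAlgebra S := Subsingleton.elim _ _
  rw [← e]
  exact h

private theorem ft_away {S : Type} [CommRing S] [h : Algebra.FiniteType ℤ S] (s : S) :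
    @Algebra.FiniteType ℤ (Localization.Away s) _ _ (Ring.toIntAlgebra _) := by
  have h1 : Algebra.FiniteType S (Localization.Away s) :=
    IsLocalization.finiteType_of_monoid_fg (Submonoid.powers s) _
  exact ft_int _ (Algebra.FiniteType.trans (S := S) h h1)

private theorem trdeg_int (S : Type) [CommRing S] [a : Algebra ℤ S] {k : Cardinal}
    (h : @Algebra.trdeg ℤ S _ _ a = k) : @Algebra.trdeg ℤ S _ _ (Ring.toIntAlgebra S) = k := by
  have e : a = Ring.toIntAlgebra S := Subsingleton.elim _ _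
  rw [← e]
  exact h

private theorem ft_sqt {S : Type} [CommRing S] [h : Algebra.FiniteType ℤ S] (u : S) :
    @Algebra.FiniteType ℤ (Sqt u) _ _ (Ring.toIntAlgebra _) := by
  have h1 : (algebraMap ℤ S).FiniteType := RingHom.finiteType_algebraMap.2 h
  have h2 : (C : S →+* S[X]).FiniteType :=
    RingHom.finiteType_algebraMap.2 (inferInstance : Algebra.FiniteType S S[X])
  have h3 : (AdjoinRoot.mk (X ^ 2 - C u : S[X])).FiniteType :=
    RingHom.FiniteType.of_surjective _ AdjoinRoot.mk_surjective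
  have h4 := h3.comp (h2.comp h1)
  have e : ((AdjoinRoot.mk (X ^ 2 - C u : S[X])).comp ((C : S →+* S[X]).comp
      (algebraMap ℤ S)) : ℤ →+* Sqt u) =
      @algebraMap ℤ (Sqt u) _ _ (Ring.toIntAlgebra _) := Subsingleton.elim _ _
  have h5 : ((AdjoinRoot.mk (X ^ 2 - C u : S[X])).comp ((C : S →+* S[X]).comp
      (algebraMap ℤ S)) : ℤ →+* Sqt u).FiniteType := h4
  rw [e] at h5
  exact (RingHom.finiteType_algebraMap (A := ℤ)).1 h5

/-- the discriminant of a conic without rational points is not zero -/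
private theorem disc_ne {S : Type} [CommRing S] [IsDomain S] {a b c : S}
    (h : ∀ x y z : S, y ^ 2 = a * x ^ 2 + 2 * b * x * z + c * z ^ 2 → x = 0 ∧ z = 0) :
    b ^ 2 - a * c ≠ 0 := by
  intro h0
  obtain ⟨_, h2⟩ := h (-b) 0 a (by linear_combination a * h0)
  obtain ⟨h3, _⟩ := h 1 0 0 (by rw [h2]; ring)
  exact one_ne_zero h3

/-- Proof: `conicData_exist` and `conic_mean` for `S[1/D]` if `n + d > 0` (the ring maps of
`Conic` over `S[1/D]` and those of `Conic a b c` with `D ≠ 0` are the same, `card_conic`). If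
`n + d = 0` the discriminant divides some `D₀` in `R` up to units, so `#Conic = p #S - ∑ χ(a)`
(`conic_points`), and `mean_char` with `e = 0` -/
theorem conic_countD {R S : Type} [CommRing R] [IsDomain R] [CommRing S] [Algebra R S]
    {d n e : ℕ} (hR : BaseVar R d) (h : Geo R S n e) {a b c : S} (hc : ConicGeo R a b c) :
    ∃ D₀ : R, D₀ ≠ 0 ∧ ∀ D : R, D ≠ 0 → D₀ ∣ D → Quad.TauMean (fun p : ℕ =>
      ((p : ℝ) * Nat.card {σ : S →+* ZMod p // σ (algebraMap R S D) ≠ 0} -
        Nat.card {ρ : Conic a b c →+* ZMod p // ρ (algebraMap R (Conic a b c) D) ≠ 0}) /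
          (p : ℝ) ^ (n + d)) 0 := by
  classical
  have hdS := h.dom
  have hzR := hR.zero
  have hfR := hR.finite
  have hfRS := h.finite
  have hfS : Algebra.FiniteType ℤ S := Algebra.FiniteType.trans (S := R) hfR hfRS
  have hne : ∀ D : R, D ≠ 0 → algebraMap R S D ≠ 0 := fun D hD => by
    rwa [Ne, map_eq_zero_iff _ h.inj]
  have hdom : ∀ D : R, D ≠ 0 → IsDomain (Localization.Away (algebraMap R S D)) := fun D hD =>
    IsLocalization.isDomain_localization (powers_le_nonZeroDivisors_of_noZeroDivisors (hne D hD))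
  have hinjL : ∀ D : R, D ≠ 0 →
      Function.Injective (algebraMap S (Localization.Away (algebraMap R S D))) := fun D hD =>
    IsLocalization.injective (Localization.Away (algebraMap R S D))
      (powers_le_nonZeroDivisors_of_noZeroDivisors (hne D hD))
  have hcount : ∀ (D : R) (p : ℕ) [Fact p.Prime],
      Nat.card {σ : S →+* ZMod p // σ (algebraMap R S D) ≠ 0} =
        Nat.card (Localization.Away (algebraMap R S D) →+* ZMod p) := fun D p _ =>
    (Nat.card_congr (ctAway (algebraMap R S D) p)).symm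
  rcases Nat.eq_zero_or_pos (n + d) with h0 | h0
  · -- dimension zero
    obtain ⟨rfl, rfl⟩ : n = 0 ∧ d = 0 := by omega
    have hdisc := disc_ne hc.aniso
    have halg : IsAlgebraic R (b ^ 2 - a * c) := by
      by_contra hcon
      have h1 : AlgebraicIndependent R (fun _ : Unit => (b ^ 2 - a * c)) := by
        rw [algebraicIndependent_unique_type_iff]
        exact hcon
      have h2 := h1.cardinalMk_le_trdeg
      rw [h.dim] at h2
      simp at h2
    obtain ⟨D₀, hD₀, hdvd⟩ := halg.exists_nonzero_dvd (mem_nonZeroDivisors_of_ne_zero hdisc)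
    refine ⟨D₀, hD₀, fun D hD hDD => ?_⟩
    have := hdom D hD
    have hinj := hinjL D hD
    have hfL : @Algebra.FiniteType ℤ (Localization.Away (algebraMap R S D)) _ _
      (Ring.toIntAlgebra _) := ft_away _
    have hzS : CharZero S := charZero_of_injective_algebraMap h.inj
    have hzL : CharZero (Localization.Away (algebraMap R S D)) :=
      charZero_of_injective_algebraMap hinj
    have htr : Algebra.trdeg ℤ (Localization.Away (algebraMap R S D)) = ((0 : ℕ) : Cardinal) := by
      rw [trdeg_away (hne D hD)]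
      exact trdeg_tower h.inj hR.dim h.dim
    have hsq : ∀ x y : Localization.Away (algebraMap R S D),
        y ^ 2 = algebraMap S _ a * x ^ 2 → x = 0 := by
      intro x y hxy
      obtain ⟨k, x0, hx⟩ := IsLocalization.Away.surj (algebraMap R S D) x
      obtain ⟨l, y0, hy⟩ := IsLocalization.Away.surj (algebraMap R S D) y
      have h1 : (y0 * algebraMap R S D ^ k) ^ 2 = a * (x0 * algebraMap R S D ^ l) ^ 2 := by
        apply hinj
        simp only [map_mul, map_pow]
        rw [← hx, ← hy]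
        linear_combination (algebraMap S (Localization.Away (algebraMap R S D))
          (algebraMap R S D)) ^ (2 * l) * (algebraMap S (Localization.Away (algebraMap R S D))
          (algebraMap R S D)) ^ (2 * k) * hxy
      have h2 := (hc.aniso (x0 * algebraMap R S D ^ l) (y0 * algebraMap R S D ^ k) 0
        (by rw [h1]; ring)).1
      have h3 : x0 = 0 := (mul_eq_zero.1 h2).resolve_right (pow_ne_zero _ (hne D hD))
      rw [h3, map_zero] at hx
      exact (mul_eq_zero.1 hx).resolve_right (pow_ne_zero _ (by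
        rw [Ne, map_eq_zero_iff _ hinj]
        exact hne D hD))
    have hdq : IsDomain (Sqt (algebraMap S (Localization.Away (algebraMap R S D)) a)) :=
      sqt_domain hsq
    obtain ⟨hzq, htq⟩ := sqt_trdeg hsq
    have hfq := ft_sqt (algebraMap S (Localization.Away (algebraMap R S D)) a)
    have hm := mean_char (algebraMap S (Localization.Away (algebraMap R S D)) a) (e := 0)
      inferInstance (LW.langWeil _ 0 (trdeg_int _ htr))
      (LW.langWeil _ 0 (htq.trans (trdeg_int _ htr)))
    refine hm.congr' 3 fun p hp3 hp => ?_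
    have : Fact p.Prime := ⟨hp⟩
    have hfin : Finite (Localization.Away (algebraMap R S D) →+* ZMod p) :=
      W.finite_hom _ p hp
    have := Fintype.ofFinite (Localization.Away (algebraMap R S D) →+* ZMod p)
    have h4 : (Nat.card {ρ : Conic a b c →+* ZMod p // ρ (algebraMap R (Conic a b c) D) ≠ 0} : ℝ)
        = ∑ σ : Localization.Away (algebraMap R S D) →+* ZMod p,
          ((p : ℝ) - chi p (σ (algebraMap S _ a))) := by
      have h5 := ctSum a b c (algebraMap R S D) p
      have h6 : Nat.card {ρ : Conic a b c →+* ZMod p // ρ (algebraMap R (Conic a b c) D) ≠ 0} =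
        Nat.card {ρ : Conic a b c →+* ZMod p // ρ (toConic a b c (algebraMap R S D)) ≠ 0} := rfl
      rw [h6, h5]
      push_cast
      refine Finset.sum_congr rfl fun σ _ => ?_
      have h7 := conic_points (p := p) (by omega) (σ (algebraMap S _ a)) (σ (algebraMap S _ b))
        (σ (algebraMap S _ c))
      have h8 : σ (algebraMap S _ b) ^ 2 - σ (algebraMap S _ a) * σ (algebraMap S _ c) ≠ 0 := by
        intro h9
        have h10 : σ (algebraMap S _ (b ^ 2 - a * c)) = 0 := by
          rw [map_sub, map_pow, map_mul, map_sub, map_pow, map_mul]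
          exact h9
        have h11 : (b ^ 2 - a * c) ∣ algebraMap R S D := hdvd.trans (map_dvd _ hDD)
        obtain ⟨w, hw⟩ := h11
        have h12 : IsUnit (σ (algebraMap S (Localization.Away (algebraMap R S D))
          (algebraMap R S D))) := (IsLocalization.Away.algebraMap_isUnit _).map σ
        refine h12.ne_zero ((congrArg (fun t => σ (algebraMap S (Localization.Away
          (algebraMap R S D)) t)) hw).trans ?_)
        rw [map_mul, map_mul, h10, zero_mul]
      rw [if_neg h8, add_zero] at h7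
      have h13 : ((Nat.card {q : ZMod p × ZMod p // q.2 ^ 2 = σ (algebraMap S _ a) * q.1 ^ 2 +
          2 * σ (algebraMap S _ b) * q.1 + σ (algebraMap S _ c)} : ℤ) : ℝ) =
          (((p : ℤ) - chi p (σ (algebraMap S _ a)) : ℤ) : ℝ) := by rw [h7]
      push_cast at h13
      exact h13
    rw [h4, hcount, Finset.sum_sub_distrib, Finset.sum_const, Finset.card_univ, nsmul_eq_mul,
      Nat.card_eq_fintype_card, finsum_eq_sum_of_fintype]
    simp only [add_zero, pow_zero, div_one]
    ring
  · -- positive dimension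
    obtain ⟨δ, hδ⟩ : ∃ δ, δ + 1 = n + d := ⟨n + d - 1, by omega⟩
    obtain ⟨D₀, hD₀, hdata⟩ := conicData_exist hR h hc
    refine ⟨D₀, hD₀, fun D hD hDD => ?_⟩
    have := hdom D hD
    have hfL : @Algebra.FiniteType ℤ (Localization.Away (algebraMap R S D)) _ _
      (Ring.toIntAlgebra _) := ft_away _
    have hm := conic_mean (hdata D hD hDD δ hδ)
    refine hm.congr' 0 fun p _ hp => ?_
    have : Fact p.Prime := ⟨hp⟩
    have hfin : Finite (Localization.Away (algebraMap R S D) →+* ZMod p) :=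
      W.finite_hom _ p hp
    have := Fintype.ofFinite (Localization.Away (algebraMap R S D) →+* ZMod p)
    have h4 : Nat.card {ρ : Conic a b c →+* ZMod p // ρ (algebraMap R (Conic a b c) D) ≠ 0} =
        Nat.card (Conic (algebraMap S (Localization.Away (algebraMap R S D)) a)
          (algebraMap S _ b) (algebraMap S _ c) →+* ZMod p) := by
      rw [card_conic]
      exact ctSum a b c (algebraMap R S D) p
    rw [hcount, h4, hδ]

theorem tate_conic {R S : Type} [CommRing R] [IsDomain R] [CommRing S] [Algebra R S]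
    {d n e : ℕ} (hR : BaseVar R d) (h : Tate R S d n e) {a b c : S} (hc : ConicGeo R a b c) :
    Tate R (Conic a b c) d (n + 1) e := by
  have hzR := hR.zero
  have hfR := hR.finite
  obtain ⟨D₁, h1, h1'⟩ := h.count
  obtain ⟨D₂, h2, h2'⟩ := conic_countD hR h.geo hc
  refine ⟨fact_conic h.geo hc, D₁ * D₂, mul_ne_zero h1 h2, fun D hD hDD => ?_⟩
  have h3 := (h1' D hD ((dvd_mul_right D₁ D₂).trans hDD)).add
    (h2' D hD ((dvd_mul_left D₂ D₁).trans hDD))
  rw [add_zero] at h3
  refine h3.congr' 0 fun p _ hp => ?_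
  have hp0 : (p : ℝ) ≠ 0 := by exact_mod_cast hp.ne_zero
  unfold countD
  rw [add_right_comm n 1 d, pow_succ (p : ℝ) (n + d), pow_succ (p : ℝ) n]
  field_simp
  ring

end Pool.Agent.Lib.MP_1a0ddd_nt.Un
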