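import Pool.Agent.Lib.MP_1a0ddd_nt.Un.Main
import Pool.Agent.Lib.MP_1a0ddd_nt.Un.Cls
import Pool.Agent.Lib.MP_1a0ddd_nt.Un.CtC

/-! Assembly. -/

set_option autoImplicit false

namespace Pool.Agent.Lib.MP_1a0ddd_nt.Un

open Polynomial Pool.Agent.Lib.MP_1a0ddd_nt.V Pool.Agent.Lib.MP_1a0ddd_nt.Fb
  Pool.Agent.Lib.MP_1a0ddd_nt.Cn

theorem fin_closureU (R : Type) [CommRing R] [IsDomain R] {d : ℕ} (hR : BaseVar R d) :
    ClosureU R d where
  base := tate_base R d
  poly := fun _ _ _ _ _ h => tate_poly hR h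
  away := by
    intro S _ _ n e g h hg
    have hd := h.geo.dom
    have hj := kmodel_gen (R := R) (S := S) h.geo.inj
    have hdO : IsDomain (Gen (algebraMap R S)) := kmodel_domain hj
    have hu := h.geo.ufd
    have hg' : toGen (algebraMap R S) g ≠ 0 := (map_ne_zero_iff _ hj.inj).2 hg
    obtain ⟨m, q, h1, h2, h3, h4⟩ := factors_exist hg'
    exact ⟨m, tate_away hR h hg h1 h2 h3 h4⟩
  conic := fun _ _ _ _ _ _ _ _ h hc => tate_conic hR h hc
  model := fun _ _ _ _ _ _ _ _ f h hd hi hf hc => tate_model hR h f hd hi hf hc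

end Pool.Agent.Lib.MP_1a0ddd_nt.Un
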