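import Pool.Agent.Lib.MP_1a0ddd_nt.Un.Defs

/-! Transcendence degrees over `ℤ`. -/

set_option autoImplicit false

namespace Pool.Agent.Lib.MP_1a0ddd_nt.Un

open Polynomial Pool.Agent.Lib.MP_1a0ddd_nt.V Pool.Agent.Lib.MP_1a0ddd_nt.Fb
  Pool.Agent.Lib.MP_1a0ddd_nt.Cn

/-- `Algebra.trdeg_add_eq` -/
theorem trdeg_tower {R S : Type} [CommRing R] [IsDomain R] [CharZero R] [CommRing S] [IsDomain S]
    [Algebra R S] (hinj : Function.Injective (algebraMap R S)) {d n : ℕ}
    (hd : Algebra.trdeg ℤ R = (d : Cardinal)) (hn : Algebra.trdeg R S = (n : Cardinal)) :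
    Algebra.trdeg ℤ S = ((d + n : ℕ) : Cardinal) := by
  have h1 : FaithfulSMul R S := (faithfulSMul_iff_algebraMap_injective R S).2 hinj
  have h2 := trdeg_add_eq ℤ R (A := S)
  rw [← h2, hd, hn, Nat.cast_add]

/-- an injective algebraic extension -/
theorem trdeg_alg {S S' : Type} [CommRing S] [IsDomain S] [CharZero S] [CommRing S'] [IsDomain S']
    (f : S →+* S') (hf : Function.Injective f)
    (ha : ∀ x : S', ∃ P : S[X], P ≠ 0 ∧ P.eval₂ f x = 0) :
    Algebra.trdeg ℤ S' = Algebra.trdeg ℤ S := by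
  let _ := f.toAlgebra
  have h1 : FaithfulSMul S S' := (faithfulSMul_iff_algebraMap_injective S S').2 hf
  have h0 : Algebra.IsAlgebraic S S' := ⟨fun x => by
    obtain ⟨P, hP, he⟩ := ha x
    exact ⟨P, hP, he⟩⟩
  have h2 := trdeg_add_eq ℤ S (A := S')
  have h3 : Algebra.trdeg S S' = 0 := trdeg_eq_zero
  rw [h3, add_zero] at h2
  exact h2.symm

private theorem trdeg_inst {A : Type} [CommRing A] (i j : Algebra ℤ A) :
    @Algebra.trdeg ℤ A _ _ i = @Algebra.trdeg ℤ A _ _ j := by
  rw [Subsingleton.elim i j]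

theorem trdeg_away {S : Type} [CommRing S] [IsDomain S] [CharZero S] {D : S} (hD : D ≠ 0) :
    Algebra.trdeg ℤ (Localization.Away D) = Algebra.trdeg ℤ S := by
  have hM : Submonoid.powers D ≤ nonZeroDivisors S :=
    powers_le_nonZeroDivisors_of_noZeroDivisors hD
  have : IsDomain (Localization.Away D) := IsLocalization.isDomain_localization hM
  have hinj : Function.Injective (algebraMap S (Localization.Away D)) :=
    IsLocalization.injective _ hM
  refine (trdeg_inst _ _).trans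
    (trdeg_alg (algebraMap S (Localization.Away D)) hinj fun x => ?_)
  obtain ⟨s, ⟨m, hm⟩, rfl⟩ := IsLocalization.exists_mk'_eq (Submonoid.powers D) x
  refine ⟨C m * X - C s, fun h => ?_, ?_⟩
  · have h1 := congrArg (fun p => p.coeff 1) h
    have h2 : m = 0 := by simpa using h1
    exact nonZeroDivisors.ne_zero (hM hm) h2
  · rw [eval₂_sub, eval₂_mul, eval₂_C, eval₂_X, eval₂_C]
    exact sub_eq_zero.2 (IsLocalization.mk'_spec' _ s ⟨m, hm⟩)

/-! ### The elements of a double cover -/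

section
variable {S : Type} [CommRing S] {u : S}

/-- `(a, b) ↦ a + b w` -/
private noncomputable def sq (u : S) (a b : S) : Sqt u :=
  AdjoinRoot.mk (X ^ 2 - C u : S[X]) (C a + C b * X)

private theorem sq_surj [Nontrivial S] (z : Sqt u) : ∃ a b : S, z = sq u a b := by
  have hm : (X ^ 2 - C u : S[X]).Monic := monic_X_pow_sub_C _ two_ne_zero
  have hd : (X ^ 2 - C u : S[X]).natDegree = 2 := natDegree_X_pow_sub_C
  obtain ⟨P, hP⟩ : ∃ P : S[X], AdjoinRoot.mk (X ^ 2 - C u : S[X]) P = z :=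
    AdjoinRoot.mk_surjective (g := (X ^ 2 - C u : S[X])) z
  refine ⟨(P %ₘ (X ^ 2 - C u)).coeff 0, (P %ₘ (X ^ 2 - C u)).coeff 1, ?_⟩
  unfold sq
  have h1 : (P %ₘ (X ^ 2 - C u)).natDegree ≤ 1 := by
    have := natDegree_modByMonic_lt P hm (fun h1 => by
      rw [h1, natDegree_one] at hd
      omega)
    omega
  have h2 : C ((P %ₘ (X ^ 2 - C u)).coeff 0) + C ((P %ₘ (X ^ 2 - C u)).coeff 1) * X =
      P %ₘ (X ^ 2 - C u) := by
    rw [add_comm]
    exact (eq_X_add_C_of_natDegree_le_one h1).symm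
  rw [h2, ← hP]
  exact AdjoinRoot.mk_eq_mk.2 ⟨P /ₘ (X ^ 2 - C u), by
    have := modByMonic_add_div P (X ^ 2 - C u : S[X])
    linear_combination -this⟩

private theorem sq_zero [Nontrivial S] {a b : S} (e : sq u a b = 0) : a = 0 ∧ b = 0 := by
  have hm : (X ^ 2 - C u : S[X]).Monic := monic_X_pow_sub_C _ two_ne_zero
  have hd : (X ^ 2 - C u : S[X]).natDegree = 2 := natDegree_X_pow_sub_C
  have e' : (X ^ 2 - C u : S[X]) ∣ C a + C b * X := AdjoinRoot.mk_eq_zero.1 e
  have h1 : (C a + C b * X : S[X]).natDegree < (X ^ 2 - C u : S[X]).natDegree := by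
    rw [hd, add_comm]
    exact lt_of_le_of_lt natDegree_linear_le one_lt_two
  have h2 : (C a + C b * X : S[X]) = 0 := by
    by_contra hne
    exact hm.not_dvd_of_natDegree_lt hne h1 e'
  constructor
  · have := congrArg (fun q => q.coeff 0) h2
    simpa using this
  · have := congrArg (fun q => q.coeff 1) h2
    simpa using this

private theorem sq_mul (a b a' b' : S) :
    sq u a b * sq u a' b' = sq u (a * a' + u * b * b') (a * b' + b * a') := by
  have e : AdjoinRoot.mk (X ^ 2 - C u : S[X])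
      (C (a * a' + u * b * b') + C (a * b' + b * a') * X) =
      AdjoinRoot.mk (X ^ 2 - C u : S[X]) ((C a + C b * X) * (C a' + C b' * X)) := by
    rw [AdjoinRoot.mk_eq_mk]
    refine ⟨-(C b * C b'), ?_⟩
    simp only [C_add, C_mul]
    ring
  have e2 : AdjoinRoot.mk (X ^ 2 - C u : S[X]) ((C a + C b * X) * (C a' + C b' * X)) =
      sq u a b * sq u a' b' := map_mul _ _ _
  exact e2.symm.trans e.symm

private theorem sq_z : sq u 0 0 = 0 := by
  unfold sq
  rw [C_0, zero_mul, add_zero]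
  exact map_zero _

/-- the map from `S` to the double cover -/
private noncomputable def sqof (u : S) : S →+* Sqt u := AdjoinRoot.of (X ^ 2 - C u : S[X])

private theorem sqof_eq (a : S) : sqof u a = sq u a 0 := by
  unfold sq
  rw [C_0, zero_mul, add_zero]
  rfl

end

/-- the double cover `w² = u`, `u` not a square in the fraction field -/
theorem sqt_domain {S : Type} [CommRing S] [IsDomain S] {u : S}
    (hu : ∀ x y : S, y ^ 2 = u * x ^ 2 → x = 0) : IsDomain (Sqt u) := by
  have hN : ∀ a b : S, a ^ 2 - u * b ^ 2 = 0 → sq u a b = 0 := by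
    intro a b h
    have hb : b = 0 := hu b a (sub_eq_zero.1 h)
    rw [hb] at h ⊢
    have ha : a ^ 2 = 0 := by
      rw [← h]
      ring
    rw [pow_eq_zero_iff two_ne_zero] at ha
    rw [ha, sq_z]
  have hnt : Nontrivial (Sqt u) := by
    refine ⟨0, 1, fun e => ?_⟩
    have h1 : sqof u 1 = 0 := by rw [map_one, e]
    rw [sqof_eq] at h1
    exact one_ne_zero (sq_zero h1).1
  have : NoZeroDivisors (Sqt u) := by
    refine ⟨fun {z z'} hzz => ?_⟩
    obtain ⟨a, b, rfl⟩ := sq_surj z
    obtain ⟨a', b', rfl⟩ := sq_surj z'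
    rw [sq_mul] at hzz
    obtain ⟨h1, h2⟩ := sq_zero hzz
    have h3 : (a ^ 2 - u * b ^ 2) * (a' ^ 2 - u * b' ^ 2) = 0 := by
      linear_combination (a * a' + u * b * b') * h1 - u * (a * b' + b * a') * h2
    rcases mul_eq_zero.1 h3 with h4 | h4
    · exact Or.inl (hN _ _ h4)
    · exact Or.inr (hN _ _ h4)
  exact NoZeroDivisors.to_isDomain _

theorem sqt_trdeg {S : Type} [CommRing S] [IsDomain S] [CharZero S] {u : S}
    (hu : ∀ x y : S, y ^ 2 = u * x ^ 2 → x = 0) : CharZero (Sqt u) ∧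
      Algebra.trdeg ℤ (Sqt u) = Algebra.trdeg ℤ S := by
  have hdom := sqt_domain hu
  have hinj : Function.Injective (sqof u) := by
    rw [injective_iff_map_eq_zero]
    intro a ha
    rw [sqof_eq] at ha
    exact (sq_zero ha).1
  refine ⟨charZero_of_injective_ringHom hinj, trdeg_alg (sqof u) hinj fun z => ?_⟩
  obtain ⟨a, b, rfl⟩ := sq_surj z
  obtain ⟨t, ht⟩ : ∃ t, t = a ^ 2 - u * b ^ 2 := ⟨_, rfl⟩
  refine ⟨X ^ 2 - C (2 * a) * X + C t, fun h => ?_, ?_⟩
  · have h1 := congrArg (fun p => p.coeff 2) h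
    simp at h1
  · rw [ht, eval₂_add, eval₂_sub, eval₂_mul, eval₂_pow, eval₂_X, eval₂_C, eval₂_C, sqof_eq, sqof_eq,
      pow_two, sq_mul, sq_mul]
    have hadd : ∀ a b a' b' : S, sq u a b + sq u a' b' = sq u (a + a') (b + b') := by
      intro a b a' b'
      have e : (C (a + a') + C (b + b') * X : S[X]) = (C a + C b * X) + (C a' + C b' * X) := by
        rw [C_add, C_add]
        ring
      unfold sq
      rw [e]
      exact (map_add _ _ _).symm
    have hsub : ∀ a b a' b' : S, sq u a b - sq u a' b' = sq u (a - a') (b - b') := by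
      intro a b a' b'
      rw [sub_eq_iff_eq_add, hadd, sub_add_cancel, sub_add_cancel]
    rw [hsub, hadd, ← sq_z (u := u)]
    congr 1
    · ring
    · ring

end Pool.Agent.Lib.MP_1a0ddd_nt.Un
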