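import Pool.Agent.Lib.MP_1a0ddd_nt.Un.TrM

/-! The generic fibre is a principal ideal domain. -/

set_option autoImplicit false

namespace Pool.Agent.Lib.MP_1a0ddd_nt.Un

open Polynomial Pool.Agent.Lib.MP_1a0ddd_nt.V Pool.Agent.Lib.MP_1a0ddd_nt.Fb
  Pool.Agent.Lib.MP_1a0ddd_nt.Cn

/-- nonzero prime ideals of a localisation contain prime elements of the given ring -/
private theorem pid_loc_prime {A B : Type} [CommRing A] [IsDomain A] [CommRing B]
    [IsDomain B] [Algebra A B] (M : Submonoid A) [IsLocalization M B]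
    (hA : ∀ P : Ideal A, P ≠ ⊥ → P.IsPrime → ∃ p ∈ P, Prime p) (P : Ideal B) (hP : P ≠ ⊥)
    (hP' : P.IsPrime) : ∃ p : A, Prime p ∧ algebraMap A B p ∈ P ∧ Prime (algebraMap A B p) := by
  have hinj : Function.Injective (algebraMap A B) := by
    have h0 : (0 : A) ∉ M := by
      intro h
      have := IsLocalization.map_units B (⟨0, h⟩ : M)
      rw [map_zero] at this
      exact not_isUnit_zero this
    exact IsLocalization.injective B (le_nonZeroDivisors_of_noZeroDivisors h0)
  obtain ⟨h1, h2⟩ := (IsLocalization.isPrime_iff_isPrime_disjoint M B P).1 hP'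
  have hne : P.under A ≠ ⊥ := by
    obtain ⟨x, hx, hx0⟩ := Submodule.exists_mem_ne_zero_of_ne_bot hP
    obtain ⟨a, s, rfl⟩ := IsLocalization.exists_mk'_eq M x
    intro hbot
    have ha : a ∈ P.under A := by
      rw [Ideal.mem_comap]
      exact (IsLocalization.mk'_mem_iff).1 hx
    rw [hbot, Submodule.mem_bot] at ha
    rw [ha, IsLocalization.mk'_zero] at hx0
    exact hx0 rfl
  obtain ⟨p, hp, hpp⟩ := hA _ hne h1
  refine ⟨p, hpp, hp, ?_⟩
  have hsp : (Ideal.span {p}).IsPrime := (Ideal.span_singleton_prime hpp.ne_zero).2 hpp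
  have hle : Ideal.span {p} ≤ P.under A := (Ideal.span_singleton_le_iff_mem _).2 hp
  have hd : Disjoint (M : Set A) (Ideal.span {p} : Ideal A) :=
    h2.mono_right hle
  have h3 := IsLocalization.isPrime_of_isPrime_disjoint M B _ hsp hd
  rw [Ideal.map_span, Set.image_singleton] at h3
  exact (Ideal.span_singleton_prime fun h => hpp.ne_zero (hinj (h.trans (map_zero _).symm))).1 h3

/-- the generic fibre is an algebra over `S` -/
@[instance_reducible] private noncomputable def pidAlg {T S : Type} [CommRing T] [CommRing S] (φ : T →+* S) :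
    Algebra S (Gen φ) :=
  inferInstanceAs (Algebra S (Localization ((nonZeroDivisors T).map φ)))

private theorem pidLoc {T S : Type} [CommRing T] [CommRing S] (φ : T →+* S) :
    @IsLocalization S _ ((nonZeroDivisors T).map φ) (Gen φ) _ (pidAlg φ) :=
  inferInstanceAs (IsLocalization ((nonZeroDivisors T).map φ)
    (Localization ((nonZeroDivisors T).map φ)))

/-- a relation between `f` and `y` gives a relation for `y` modulo `f` -/
private theorem pid_rel_mod {T S F : Type} [CommRing T] [IsDomain T] [UniqueFactorizationMonoid T]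
    [CommRing S] [IsDomain S] [Field F] [Algebra T F] (hTF : Function.Injective (algebraMap T F))
    (φ : T →+* S) {D : Type} [CommRing D] [Algebra F D] (π : S →+* D)
    (hπ : ∀ t, π (φ t) = algebraMap F D (algebraMap T F t)) {f y : S} (hf : f ≠ 0)
    (hf0 : π f = 0) (Q : Polynomial (Polynomial T)) (hQ : Q ≠ 0)
    (hQ0 : Q.eval₂ (Polynomial.eval₂RingHom φ f) y = 0) : IsAlgebraic F (π y) := by
  have hirr : Irreducible (Polynomial.C (Polynomial.X : Polynomial T)) :=
    (Polynomial.prime_C_iff.2 Polynomial.prime_X).irreducible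
  obtain ⟨m, Q1, hdvd, hQ1⟩ := WfDvdMonoid.max_power_factor hQ hirr
  have h1 : Q1.eval₂ (Polynomial.eval₂RingHom φ f) y = 0 := by
    rw [hQ1, Polynomial.eval₂_mul, Polynomial.eval₂_pow, Polynomial.eval₂_C,
      Polynomial.coe_eval₂RingHom, Polynomial.eval₂_X] at hQ0
    exact (mul_eq_zero.1 hQ0).resolve_left (pow_ne_zero _ hf)
  have h2 : Q1.map (Polynomial.evalRingHom 0) ≠ 0 := by
    intro h
    apply hdvd
    rw [Polynomial.C_dvd_iff_dvd_coeff]
    intro i
    rw [Polynomial.X_dvd_iff, Polynomial.coeff_zero_eq_eval_zero]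
    have := congrArg (fun q => Polynomial.coeff q i) h
    simpa using this
  refine ⟨(Q1.map (Polynomial.evalRingHom 0)).map (algebraMap T F), ?_, ?_⟩
  · exact (Polynomial.map_ne_zero_iff hTF).2 h2
  · rw [Polynomial.aeval_def, Polynomial.eval₂_map, Polynomial.eval₂_map]
    have h3 := congrArg π h1
    rw [Polynomial.hom_eval₂, map_zero] at h3
    rw [← h3]
    congr 1
    refine Polynomial.ringHom_ext (fun t => ?_) ?_
    · simp [hπ]
    · simp [hf0]

/-- the generic fibre of a domain over a domain is a domain, and contains it -/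
private theorem pid_dom {R S : Type} [CommRing R] [IsDomain R] [CommRing S] [IsDomain S]
    [Algebra R S] (hinj : Function.Injective (algebraMap R S)) :
    IsDomain (Gen (algebraMap R S)) ∧ Function.Injective (toGen (algebraMap R S)) := by
  have hle : (nonZeroDivisors R).map (algebraMap R S) ≤ nonZeroDivisors S := by
    rintro _ ⟨a, ha, rfl⟩
    exact mem_nonZeroDivisors_of_ne_zero fun h => nonZeroDivisors.ne_zero ha
      (hinj (h.trans (map_zero _).symm))
  exact ⟨IsLocalization.isDomain_localization hle,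
    IsLocalization.injective (Localization ((nonZeroDivisors R).map (algebraMap R S))) hle⟩

private theorem pid_frac' {R S : Type} [CommRing R] [IsDomain R] [CommRing S] [Algebra R S]
    (x : Localization ((nonZeroDivisors R).map (algebraMap R S))) :
    ∃ (s : S) (r : R), r ≠ 0 ∧
      x * algebraMap S (Localization ((nonZeroDivisors R).map (algebraMap R S)))
        (algebraMap R S r) =
        algebraMap S (Localization ((nonZeroDivisors R).map (algebraMap R S))) s := by
  obtain ⟨s, ⟨_, t, ht, rfl⟩, hx⟩ :=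
    IsLocalization.exists_mk'_eq ((nonZeroDivisors R).map (algebraMap R S)) x
  refine ⟨s, t, nonZeroDivisors.ne_zero ht, ?_⟩
  rw [← hx]
  exact IsLocalization.mk'_spec _ _ _

private theorem pid_frac {R S : Type} [CommRing R] [IsDomain R] [CommRing S] [Algebra R S]
    (x : Gen (algebraMap R S)) : ∃ (s : S) (r : R), r ≠ 0 ∧
      x * toGen (algebraMap R S) (algebraMap R S r) = toGen (algebraMap R S) s :=
  pid_frac' x

private theorem pid_baseK {R T S : Type} [CommRing R] [CommRing T] [CommRing S] [Algebra R T]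
    [Algebra R S] (φ : T →ₐ[R] S) (t : T) :
    baseK φ (toGen (algebraMap R T) t) = toGen (algebraMap R S) (φ t) := by
  have h1 : IsLocalization.map (M := (nonZeroDivisors R).map (algebraMap R T))
    (T := (nonZeroDivisors R).map (algebraMap R S))
    (Localization ((nonZeroDivisors R).map (algebraMap R S))) (φ : T →+* S) (by
      rintro _ ⟨r, hr, rfl⟩
      exact ⟨r, hr, (φ.commutes r).symm⟩)
      (algebraMap T (Localization ((nonZeroDivisors R).map (algebraMap R T))) t) =
        algebraMap S (Localization ((nonZeroDivisors R).map (algebraMap R S))) ((φ : T →+* S) t) :=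
    IsLocalization.map_eq _ t
  exact h1

/-- two elements of `S` are algebraically dependent over `T`. Proof: `trdeg R T = n`,
`trdeg R S = n + 1` and `T → S` is injective, so `trdeg T S = 1` (`Algebra.trdeg_add_eq`) -/
theorem dep_rel {R T S : Type} [CommRing R] [IsDomain R] [CommRing T] [CommRing S] [Algebra R T]
    [Algebra R S] {n s m : ℕ} (hT : Geo R T n s) (hS : Geo R S (n + 1) m) (φ : T →ₐ[R] S)
    (hφ : Function.Injective φ) (f y : S) :
    ∃ Q : Polynomial (Polynomial T), Q ≠ 0 ∧
      Q.eval₂ (Polynomial.eval₂RingHom (φ : T →+* S) f) y = 0 := by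
  have _ := hφ
  have hTd := hT.dom
  have hSd := hS.dom
  have hf1 : FaithfulSMul R T := (faithfulSMul_iff_algebraMap_injective _ _).2 hT.inj
  by_contra hne
  push Not at hne
  let E : Polynomial (Polynomial T) →ₐ[R] S :=
    { Polynomial.eval₂RingHom (Polynomial.eval₂RingHom (φ : T →+* S) f) y with
      commutes' := by
        intro c
        have h : algebraMap R (Polynomial (Polynomial T)) c =
            Polynomial.C (Polynomial.C (algebraMap R T c)) := rfl
        simp only [RingHom.toMonoidHom_eq_coe, OneHom.toFun_eq_coe, MonoidHom.toOneHom_coe,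
          MonoidHom.coe_coe, h, Polynomial.coe_eval₂RingHom, Polynomial.eval₂_C]
        exact φ.commutes c }
  have hE : Function.Injective E := by
    rw [injective_iff_map_eq_zero]
    intro Q hQ
    by_contra h0
    exact hne Q h0 hQ
  have h : Algebra.trdeg R (Polynomial (Polynomial T)) ≤ Algebra.trdeg R S :=
    trdeg_le_of_injective E hE
  have hf2 : FaithfulSMul R (Polynomial T) := (faithfulSMul_iff_algebraMap_injective _ _).2
    (Polynomial.C_injective.comp hT.inj)
  have h2 : Algebra.trdeg R (Polynomial (Polynomial T)) = ((n + 2 : ℕ) : Cardinal) := by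
    rw [← trdeg_add_eq R (Polynomial T) (A := Polynomial (Polynomial T)),
      ← trdeg_add_eq R T (A := Polynomial T), Polynomial.trdeg_of_isDomain,
      Polynomial.trdeg_of_isDomain, hT.dim]
    norm_cast
  rw [h2, hS.dim] at h
  have h' : n + 2 ≤ n + 1 := by exact_mod_cast h
  omega

/-- `φ` is injective, because `baseK φ` is (`phi_ne_zero`) -/
theorem phi_inj {R T S : Type} [CommRing R] [IsDomain R] [CommRing T] [CommRing S]
    [Algebra R T] [Algebra R S] {n s m : ℕ} (hT : Geo R T n s) (hS : Geo R S (n + 1) m)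
    (φ : T →ₐ[R] S) (hφ : IrrOver (baseK φ) 1) : Function.Injective φ := by
  have hTd := hT.dom
  have hSd := hS.dom
  obtain ⟨hT1, hT2⟩ := pid_dom hT.inj
  obtain ⟨hS1, hS2⟩ := pid_dom hS.inj
  have hu := hT.ufd
  rw [injective_iff_map_eq_zero]
  intro a ha
  by_contra ha0
  have h1 : toGen (algebraMap R T) a ≠ 0 := fun h => ha0 (hT2 (h.trans (map_zero _).symm))
  have h2 : IsUnit (baseK φ 1) := by rw [map_one]; exact isUnit_one
  refine phi_ne_zero h2 hφ h1 ?_
  rw [pid_baseK, ha, map_zero]

/-- proof: as `gen_pid` in `Fb/Ded.lean`, with `dep_rel` in place of `alg_dep` -/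
theorem pid_rel {R T S : Type} [CommRing R] [IsDomain R] [CommRing T] [CommRing S] [Algebra R T]
    [Algebra R S] {n s m : ℕ} (hT : Geo R T n s) (hS : Geo R S (n + 1) m) (φ : T →ₐ[R] S)
    (hφ : IrrOver (baseK φ) 1) :
    IsDomain (Gen (baseK φ)) ∧ IsPrincipalIdealRing (Gen (baseK φ)) := by
  have hTd := hT.dom
  have hSd := hS.dom
  obtain ⟨hT1, hT2⟩ := pid_dom hT.inj
  obtain ⟨hS1, hS2⟩ := pid_dom hS.inj
  have huT := hT.ufd
  have huS := hS.ufd
  have hφi := phi_inj hT hS φ hφ
  have hB : IsUnit (baseK φ 1) := by rw [map_one]; exact isUnit_one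
  have hG : IsDomain (Gen (baseK φ)) := gen_isDomain hB hφ
  refine ⟨hG, ?_⟩
  let _ : Algebra (Gen (algebraMap R S)) (Gen (baseK φ)) := pidAlg (baseK φ)
  have _ : IsLocalization ((nonZeroDivisors (Gen (algebraMap R T))).map (baseK φ))
    (Gen (baseK φ)) := pidLoc (baseK φ)
  have hcstu : ∀ t : Gen (algebraMap R T), t ≠ 0 →
      algebraMap (Gen (algebraMap R T)) (FractionRing (Gen (algebraMap R T))) t ≠ 0 := by
    intro t ht h0
    exact ht (IsFractionRing.injective _ (FractionRing (Gen (algebraMap R T)))
      (h0.trans (map_zero _).symm))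
  -- nonzero prime ideals contain prime elements
  have hprime : ∀ P : Ideal (Gen (baseK φ)), P ≠ ⊥ → P.IsPrime → ∃ s : Gen (algebraMap R S),
      s ≠ 0 ∧ toGen (baseK φ) s ∈ P ∧ Prime (toGen (baseK φ) s) := by
    intro P hP hP'
    have h1 : ∀ P : Ideal (Gen (algebraMap R S)), P ≠ ⊥ → P.IsPrime →
        ∃ p ∈ P, Prime p := fun P hP hP' => Ideal.IsPrime.exists_mem_prime_of_ne_bot hP' hP
    obtain ⟨p, hp0, hp1, hp2⟩ :=
      pid_loc_prime ((nonZeroDivisors (Gen (algebraMap R T))).map (baseK φ)) h1 P hP hP'
    exact ⟨p, hp0.ne_zero, hp1, hp2⟩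
  -- nonzero prime ideals are maximal
  have hmax : ∀ P : Ideal (Gen (baseK φ)), P ≠ ⊥ → P.IsPrime → P.IsMaximal := by
    intro P hP hP'
    obtain ⟨f', hf'0, hf'P, -⟩ := hprime P hP hP'
    obtain ⟨f, r, hr, hfr⟩ := pid_frac f'
    have hf0 : f ≠ 0 := by
      intro h
      rw [h, map_zero] at hfr
      rcases mul_eq_zero.1 hfr with h1 | h1
      · exact hf'0 h1
      · exact hr (hS.inj ((hS2 (h1.trans (map_zero _).symm)).trans (map_zero _).symm))
    have hfP : toGen (baseK φ) (toGen (algebraMap R S) f) ∈ P := by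
      rw [← hfr, map_mul]
      exact P.mul_mem_right _ hf'P
    let _ : Algebra (FractionRing (Gen (algebraMap R T))) (Gen (baseK φ) ⧸ P) :=
      ((Ideal.Quotient.mk P).comp (cst (baseK φ))).toAlgebra
    have hD : IsDomain (Gen (baseK φ) ⧸ P) := (Ideal.Quotient.isDomain_iff_prime P).2 hP'
    have hcst : ∀ t : Gen (algebraMap R T), ((Ideal.Quotient.mk P).comp (toGen (baseK φ)))
        (baseK φ t) = algebraMap (FractionRing (Gen (algebraMap R T))) (Gen (baseK φ) ⧸ P)
          (algebraMap (Gen (algebraMap R T)) (FractionRing (Gen (algebraMap R T))) t) := by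
      intro t
      change Ideal.Quotient.mk P (toGen (baseK φ) (baseK φ t)) =
        Ideal.Quotient.mk P (cst (baseK φ) _)
      rw [cst_algebraMap]
    have halg0 : ∀ y : S,
        IsAlgebraic (FractionRing (Gen (algebraMap R T)))
          (((Ideal.Quotient.mk P).comp (toGen (baseK φ))) (toGen (algebraMap R S) y)) := by
      intro y
      obtain ⟨Q, hQ, hQ0⟩ := dep_rel hT hS φ hφi f y
      refine pid_rel_mod (IsFractionRing.injective (Gen (algebraMap R T))
        (FractionRing (Gen (algebraMap R T)))) (baseK φ)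
        ((Ideal.Quotient.mk P).comp (toGen (baseK φ))) hcst
        (f := toGen (algebraMap R S) f) (y := toGen (algebraMap R S) y)
        (fun h => hf0 (hS2 (h.trans (map_zero _).symm)))
        (Ideal.Quotient.eq_zero_iff_mem.2 hfP)
        (Q.map (Polynomial.mapRingHom (toGen (algebraMap R T)))) ?_ ?_
      · rw [Ne, Polynomial.map_eq_zero_iff (Polynomial.map_injective _ hT2)]
        exact hQ
      · have h1 := congrArg (toGen (algebraMap R S)) hQ0
        rw [map_zero, Polynomial.hom_eval₂] at h1
        rw [Polynomial.eval₂_map]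
        convert h1 using 2
        refine Polynomial.ringHom_ext (fun t => ?_) ?_
        · simp [pid_baseK]
        · simp
    have halg : ∀ y : Gen (algebraMap R S),
        IsAlgebraic (FractionRing (Gen (algebraMap R T)))
          (((Ideal.Quotient.mk P).comp (toGen (baseK φ))) y) := by
      intro y
      obtain ⟨y0, r, hr, hy⟩ := pid_frac y
      have hr1 : toGen (algebraMap R T) (algebraMap R T r) ≠ 0 := fun h =>
        hr (hT.inj ((hT2 (h.trans (map_zero _).symm)).trans (map_zero _).symm))
      have hr2 : toGen (algebraMap R S) (algebraMap R S r) =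
          baseK φ (toGen (algebraMap R T) (algebraMap R T r)) := by
        rw [pid_baseK, φ.commutes]
      have h1 := congrArg ((Ideal.Quotient.mk P).comp (toGen (baseK φ))) hy
      rw [map_mul, hr2, hcst] at h1
      have h2 : ((Ideal.Quotient.mk P).comp (toGen (baseK φ))) y =
          ((Ideal.Quotient.mk P).comp (toGen (baseK φ))) (toGen (algebraMap R S) y0) *
            algebraMap (FractionRing (Gen (algebraMap R T))) (Gen (baseK φ) ⧸ P)
              (algebraMap _ _ (toGen (algebraMap R T) (algebraMap R T r)))⁻¹ := by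
        rw [← h1, mul_assoc, ← map_mul, mul_inv_cancel₀ (hcstu _ hr1), map_one, mul_one]
      rw [h2]
      exact (halg0 y0).mul (isAlgebraic_algebraMap _)
    have hint : Algebra.IsIntegral (FractionRing (Gen (algebraMap R T)))
        (Gen (baseK φ) ⧸ P) := by
      constructor
      intro z
      rw [← isAlgebraic_iff_isIntegral]
      obtain ⟨x, rfl⟩ := Ideal.Quotient.mk_surjective z
      obtain ⟨a, s, rfl⟩ := IsLocalization.exists_mk'_eq
        ((nonZeroDivisors (Gen (algebraMap R T))).map (baseK φ)) x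
      obtain ⟨_, t, ht, rfl⟩ := s
      have ht0 := hcstu t (nonZeroDivisors.ne_zero ht)
      have hmk : (IsLocalization.mk' (Gen (baseK φ)) a
          (⟨baseK φ t, t, ht, rfl⟩ : (nonZeroDivisors (Gen (algebraMap R T))).map (baseK φ))) =
          toGen (baseK φ) a * cst (baseK φ) (algebraMap _ _ t)⁻¹ := by
        rw [IsLocalization.mk'_eq_iff_eq_mul]
        change toGen (baseK φ) a =
          toGen (baseK φ) a * cst (baseK φ) (algebraMap _ _ t)⁻¹ * toGen (baseK φ) (baseK φ t)
        rw [← cst_algebraMap, mul_assoc, ← map_mul, inv_mul_cancel₀ ht0, map_one, mul_one]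
      have hmk2 : Ideal.Quotient.mk P (IsLocalization.mk' (Gen (baseK φ)) a
          (⟨baseK φ t, t, ht, rfl⟩ : (nonZeroDivisors (Gen (algebraMap R T))).map (baseK φ))) =
          ((Ideal.Quotient.mk P).comp (toGen (baseK φ))) a *
            algebraMap (FractionRing (Gen (algebraMap R T))) (Gen (baseK φ) ⧸ P)
              (algebraMap _ _ t)⁻¹ := by
        rw [hmk, map_mul]
        rfl
      rw [hmk2]
      exact (halg a).mul (isAlgebraic_algebraMap _)
    exact Ideal.Quotient.maximal_of_isField P
      (isField_of_isIntegral_of_isField' (Field.toIsField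
        (FractionRing (Gen (algebraMap R T)))))
  refine IsPrincipalIdealRing.of_prime fun P hP' => ?_
  by_cases hP : P = ⊥
  · rw [hP]
    exact bot_isPrincipal
  · obtain ⟨f, hf0, hfP, hfp⟩ := hprime P hP hP'
    have h1 : (Ideal.span {toGen (baseK φ) f}).IsPrime :=
      (Ideal.span_singleton_prime hfp.ne_zero).2 hfp
    have h2 : (Ideal.span {toGen (baseK φ) f}).IsMaximal := by
      refine hmax _ ?_ h1
      rw [Ne, Ideal.span_singleton_eq_bot]
      exact hfp.ne_zero
    have h3 : Ideal.span {toGen (baseK φ) f} = P :=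
      h2.eq_of_le hP'.ne_top ((Ideal.span_singleton_le_iff_mem _).2 hfP)
    exact ⟨⟨toGen (baseK φ) f, h3.symm⟩⟩

end Pool.Agent.Lib.MP_1a0ddd_nt.Un
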