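import Pool.Agent.Lib.MP_1a0ddd_nt.Un.Mea
import Pool.Agent.Lib.MP_1a0ddd_nt.Un.Pid
import Pool.Agent.Lib.MP_1a0ddd_nt.Cn.Main

/-! Q1 for families with the relative Tate property, unconditional form. -/

set_option autoImplicit false

namespace Pool.Agent.Lib.MP_1a0ddd_nt.Un

open Pool.Agent.Lib.MP_1a0ddd_nt.V Pool.Agent.Lib.MP_1a0ddd_nt.Fb
  Pool.Agent.Lib.MP_1a0ddd_nt.Cn

variable {R T S : Type} [CommRing R] [IsDomain R] [CommRing T] [CommRing S] [Algebra R T]
  [Algebra R S] {d n s m : ℕ}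

private theorem um_baseK_toGen {R T S : Type} [CommRing R] [CommRing T] [CommRing S]
    [Algebra R T] [Algebra R S] (φ : T →ₐ[R] S) (t : T) :
    baseK φ (toGen (algebraMap R T) t) = toGen (algebraMap R S) (φ t) := by
  unfold baseK toGen
  exact IsLocalization.map_eq (M := (nonZeroDivisors R).map (algebraMap R T))
    (S := Localization ((nonZeroDivisors R).map (algebraMap R T)))
    (T := (nonZeroDivisors R).map (algebraMap R S))
    (Q := Localization ((nonZeroDivisors R).map (algebraMap R S))) _ t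

private theorem um_cst_toGen {A B : Type} [CommRing A] [CommRing B] (f : A →+* B) (a : A) :
    Fb.cst f (algebraMap A (FractionRing A) a) = toGen f (f a) := by
  unfold Fb.cst toGen
  exact IsLocalization.map_eq (M := nonZeroDivisors A) (S := FractionRing A)
    (T := (nonZeroDivisors A).map f) (Q := Localization ((nonZeroDivisors A).map f)) _ a

private theorem um_baseK_cst {R T S : Type} [CommRing R] [CommRing T] [CommRing S]
    [Algebra R T] [Algebra R S] (φ : T →ₐ[R] S) :
    (baseK φ).comp (Fb.cst (algebraMap R T)) = Fb.cst (algebraMap R S) := by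
  refine IsLocalization.ringHom_ext (nonZeroDivisors R) (RingHom.ext fun r => ?_)
  simp only [RingHom.comp_apply]
  rw [um_cst_toGen, um_cst_toGen, um_baseK_toGen, AlgHom.commutes]

/-- proof: `rank_rel` in `Cn/Main.lean` (copy; only the geometric half of `RelTate` is used there) -/
theorem rank_T (hT : Geo R T n s) (hS : Geo R S (n + 1) m) (φ : T →ₐ[R] S)
    (hφ : IrrOver (baseK φ) 1) [IsDomain (Gen (algebraMap R T))] :
    unitRk (baseK φ) + s = m := by
  have hdT := hT.dom
  have hdS := hS.dom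
  have hS1 : IsDomain (Gen (algebraMap R S)) := kmodel_domain (kmodel_gen hS.inj)
  have hT2 := hT.ufd
  have hS2 := hS.ufd
  obtain ⟨γ, hγ⟩ := hS.units
  obtain ⟨δ, hδ⟩ := hT.units
  refine rank_units_rel hφ (Fb.cst (algebraMap R T)) (γ := γ) (δ := δ) ?_ hδ
  rw [um_baseK_cst]
  exact hγ

theorem main_T (hR : BaseVar R d) (hT : Tate R T d n s) (hS : Tate R S d (n + 1) m)
    (φ : T →ₐ[R] S) (hφ : IrrOver (baseK φ) 1) :
    ∃ u : ℕ, u + s = m ∧ NagaoT φ (n + d) u := by
  have hdT := hT.geo.dom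
  have hT1 : IsDomain (Gen (algebraMap R T)) := kmodel_domain (kmodel_gen hT.geo.inj)
  have h3 := rank_T hT.geo hS.geo φ hφ
  obtain ⟨h1, h2⟩ := pid_rel hT.geo hS.geo φ hφ
  refine ⟨unitRk (baseK φ), h3, ?_, ⟨h1, h2, ?_⟩, ?_⟩
  · have h4 := mean_T hR hT hS φ
    have e : (m : ℝ) - s = (unitRk (baseK φ) : ℝ) := by
      rw [← h3]
      push_cast
      ring
    rwa [e] at h4
  · intro _
    rfl
  · intro c A _ _ _ ψ hψ hA
    have h4 := proj_T hR hT hS φ c A ψ hψ hA
    have e : (m : ℝ) - s + 1 - c = -((c : ℝ) - 1 - (unitRk (baseK φ) : ℝ)) := by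
      rw [← h3]
      push_cast
      ring
    rwa [e] at h4

end Pool.Agent.Lib.MP_1a0ddd_nt.Un
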