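import Pool.Agent.Lib.MP_1a0ddd_nt.Un.Defs

/-! Transcendence degrees. -/

set_option autoImplicit false

namespace Pool.Agent.Lib.MP_1a0ddd_nt.Un

open Polynomial Pool.Agent.Lib.MP_1a0ddd_nt.V Pool.Agent.Lib.MP_1a0ddd_nt.Fb
  Pool.Agent.Lib.MP_1a0ddd_nt.Cn

/-- The norm argument for a simple extension, in abstract form. -/
private theorem dvd_aux {B F E : Type*} [CommRing B] [IsDomain B] [IsIntegrallyClosed B]
    [Field F] [Algebra B F] [IsFractionRing B F] [Field E] [Algebra F E] [Algebra B E]
    [IsScalarTower B F E] (pb : PowerBasis F E) {p : B[X]} (hp : p.Monic)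
    (hpb : minpoly F pb.gen = p.map (algebraMap B F)) {a' : E} (hai : IsIntegral B a') {g : B}
    (hg : algebraMap B E g = pb.gen * a') : p.coeff 0 ∣ g ^ p.natDegree := by
  have hfin : FiniteDimensional F E := pb.finite
  have hN : IsIntegral B (Algebra.norm F a') := Algebra.isIntegral_norm F hai
  obtain ⟨b, hb⟩ := (IsIntegrallyClosed.isIntegral_iff (K := F)).mp hN
  have hdim : pb.dim = p.natDegree := by
    rw [← pb.natDegree_minpoly, hpb]
    exact hp.natDegree_map _
  have hnorm : Algebra.norm F pb.gen = (-1) ^ pb.dim * algebraMap B F (p.coeff 0) := by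
    rw [Algebra.PowerBasis.norm_gen_eq_coeff_zero_minpoly, hpb, coeff_map]
  have h1 := congrArg (Algebra.norm F) hg
  rw [IsScalarTower.algebraMap_apply B F E, map_mul, Algebra.norm_algebraMap, hnorm, ← hb,
    pb.finrank, hdim, ← map_pow] at h1
  have h2 : algebraMap B F (g ^ p.natDegree) =
      algebraMap B F (p.coeff 0 * ((-1) ^ p.natDegree * b)) := by
    rw [h1, map_mul, map_mul, map_pow, map_neg, map_one]
    ring
  exact ⟨_, IsFractionRing.injective B F h2⟩

/-- The constant coefficient of the minimal polynomial of `π` is not zero and divides a power of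
every element of the base which is a multiple of `π`. -/
private theorem dvd_pow_of_mul {B O : Type} [CommRing B] [IsDomain B] [IsIntegrallyClosed B]
    [CommRing O] [IsDomain O] [Algebra B O] [FaithfulSMul B O] [Algebra.IsIntegral B O]
    {π : O} (hπ : π ≠ 0) :
    (minpoly B π).coeff 0 ≠ 0 ∧ ∀ (a : O) (g : B), algebraMap B O g = π * a →
      (minpoly B π).coeff 0 ∣ g ^ (minpoly B π).natDegree := by
  let F := FractionRing B
  let L := FractionRing O
  let : Algebra F L := FractionRing.liftAlgebra B L
  have : IsScalarTower B F L := FractionRing.isScalarTower_liftAlgebra B L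
  have hπi : IsIntegral B π := Algebra.IsIntegral.isIntegral π
  have hπL : IsIntegral F (algebraMap O L π) := (hπi.algebraMap (B := L)).tower_top
  have hπ0 : algebraMap O L π ≠ 0 := by
    rw [ne_eq, map_eq_zero_iff _ (IsFractionRing.injective O L)]
    exact hπ
  have hmin : minpoly F (algebraMap O L π) = (minpoly B π).map (algebraMap B F) :=
    minpoly.isIntegrallyClosed_eq_field_fractions F L hπi
  refine ⟨?_, ?_⟩
  · intro h0
    have h1 := minpoly.coeff_zero_ne_zero hπL hπ0
    rw [hmin, coeff_map, h0, map_zero] at h1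
    exact h1 rfl
  intro a g hg
  let E := IntermediateField.adjoin F {algebraMap O L π}
  let pb := IntermediateField.adjoin.powerBasis hπL
  have hgenL : algebraMap E L pb.gen = algebraMap O L π := rfl
  have hBEL : ∀ b : B, algebraMap E L (algebraMap B E b) = algebraMap B L b := fun b => rfl
  have : IsScalarTower B E L := IsScalarTower.of_algebraMap_eq fun b => (hBEL b).symm
  have hgenmin : minpoly F pb.gen = (minpoly B π).map (algebraMap B F) := by
    rw [← hmin]
    exact IntermediateField.minpoly_gen F (algebraMap O L π)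
  have haE : algebraMap O L a = algebraMap E L (algebraMap B E g / pb.gen) := by
    rw [map_div₀, hgenL, hBEL, IsScalarTower.algebraMap_apply B O L, hg, map_mul,
      mul_div_cancel_left₀ _ hπ0]
  have hai : IsIntegral B (algebraMap B E g / pb.gen) := by
    have h1 : IsIntegral B (algebraMap E L (algebraMap B E g / pb.gen)) := by
      rw [← haE]
      exact (Algebra.IsIntegral.isIntegral (R := B) a).algebraMap
    exact (isIntegral_algebraMap_iff (algebraMap E L).injective).mp h1
  have hgen0 : pb.gen ≠ 0 := by
    intro h0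
    apply hπ0
    rw [← hgenL, h0, map_zero]
  exact dvd_aux pb (minpoly.monic hπi) hgenmin hai (mul_div_cancel₀ _ hgen0).symm

/-- A nonzero polynomial in which the variable `i` occurs does not divide a nonzero polynomial in
which it does not. -/
private theorem not_dvd {K : Type} [Field K] {r : ℕ} {i : Fin r} {c g : MvPolynomial (Fin r) K}
    (hc : c ≠ 0) (hci : c.degreeOf i ≠ 0) (hg : g ≠ 0) (hgi : g.degreeOf i = 0) : ¬ c ∣ g := by
  rintro ⟨e, rfl⟩
  have he : e ≠ 0 := right_ne_zero_of_mul hg
  rw [MvPolynomial.degreeOf_mul_eq hc he] at hgi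
  omega

/-- A polynomial in which no variable occurs is zero or a unit. -/
private theorem exists_var {K : Type} [Field K] {r : ℕ} {c : MvPolynomial (Fin r) K}
    (hc : c ≠ 0) (hu : ¬ IsUnit c) : ∃ i, c.degreeOf i ≠ 0 := by
  by_contra hcon
  push Not at hcon
  have h1 : c.totalDegree = 0 := by
    rw [MvPolynomial.totalDegree_eq_zero_iff]
    intro m hm i
    have h2 := MvPolynomial.monomial_le_degreeOf i hm
    rw [hcon i] at h2
    omega
  rw [MvPolynomial.totalDegree_eq_zero_iff_eq_C] at h1
  apply hu
  rw [h1]
  have h3 : c.coeff 0 ≠ 0 := by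
    intro h0
    rw [h0, map_zero] at h1
    exact hc h1
  exact (isUnit_iff_ne_zero.mpr h3).map MvPolynomial.C

/-- A quotient of an integral extension of a polynomial ring is integral over the subalgebra
generated by the images of the variables. -/
private theorem integral_adjoin {K O Q : Type} [Field K] [CommRing O] [Algebra K O] [CommRing Q]
    [Algebra K Q] {r : ℕ} (φ : MvPolynomial (Fin r) K →ₐ[K] O) (hφ : φ.IsIntegral)
    (ψ : O →ₐ[K] Q) (hψ : Function.Surjective ψ) :
    Algebra.IsIntegral
      (Algebra.adjoin K (Set.range fun j : Fin r => ψ (φ (MvPolynomial.X j)))) Q := by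
  set S := Algebra.adjoin K (Set.range fun j : Fin r => ψ (φ (MvPolynomial.X j))) with hS
  have hmem : ∀ b, (ψ.comp φ) b ∈ S := by
    intro b
    induction b using MvPolynomial.induction_on with
    | C a =>
      have h1 : (ψ.comp φ) (MvPolynomial.C a) = algebraMap K Q a :=
        (ψ.comp φ).commutes a
      rw [h1]
      exact S.algebraMap_mem a
    | add p q hp hq =>
      rw [map_add]
      exact add_mem hp hq
    | mul_X p j hp =>
      rw [map_mul]
      exact mul_mem hp (Algebra.subset_adjoin ⟨j, rfl⟩)
  let f' := (ψ.comp φ).codRestrict S hmem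
  have h1 : (algebraMap S Q).comp f'.toRingHom = ψ.toRingHom.comp φ.toRingHom := rfl
  have h2 : (ψ.toRingHom.comp φ.toRingHom).IsIntegral :=
    RingHom.IsIntegral.trans _ _ hφ (RingHom.isIntegral_of_surjective _ hψ)
  rw [← h1] at h2
  exact ⟨RingHom.IsIntegral.tower_top _ _ h2⟩

/-- The dimension of a principal prime divisor. Proof. Noether normalisation
(`exists_integral_inj_algHom_of_fg`): `O` is integral over `B = K[y_1, …, y_r]`, `r = n + 1`. Let
`𝔮 = (π) ∩ B`; then `O/π` is integral over `B/𝔮`, so both have the same transcendence degree.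
Let `N` be the norm of `π` for the extension of fraction fields; it is in `B` (integrally closed),
not zero, and in `(π)` (constant coefficient of the minimal polynomial). If `b = π a` is in `𝔮`
then a power of `b` is `N N(a)`. So `𝔮` is the radical of `(N)`, hence `𝔮 = (h)`, `h` prime in `B`,
and `B/(h)` has transcendence degree `r - 1` (a variable occurs in `h`, the others are
independent modulo `h`) -/
theorem trdeg_quot_prime {K O : Type} [Field K] [CommRing O] [IsDomain O] [Algebra K O]
    [Algebra.FiniteType K O] {π : O} (hπ : Prime π) (n : ℕ)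
    (hn : Algebra.trdeg K O = ((n + 1 : ℕ) : Cardinal)) :
    Algebra.trdeg K (O ⧸ Ideal.span {π}) = (n : Cardinal) := by
  classical
  obtain ⟨r, φ, hinj, hint⟩ := exists_integral_inj_algHom_of_fg K O
  let : Algebra (MvPolynomial (Fin r) K) O := φ.toRingHom.toAlgebra
  have hφ : ∀ b, algebraMap (MvPolynomial (Fin r) K) O b = φ b := fun b => rfl
  have hfs : FaithfulSMul (MvPolynomial (Fin r) K) O :=
    (faithfulSMul_iff_algebraMap_injective _ _).mpr hinj
  have hai : Algebra.IsIntegral (MvPolynomial (Fin r) K) O := ⟨hint⟩
  -- the transcendence degree of `O` is `r`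
  have hind : AlgebraicIndependent K fun j : Fin r => φ (MvPolynomial.X j) := by
    rw [algebraicIndependent_iff_injective_aeval]
    have h1 : MvPolynomial.aeval (fun j : Fin r => φ (MvPolynomial.X j)) = φ :=
      (MvPolynomial.aeval_unique φ).symm
    rw [h1]
    exact hinj
  have hintO := integral_adjoin φ hint (AlgHom.id K O) Function.surjective_id
  have hbas : IsTranscendenceBasis K fun j : Fin r => φ (MvPolynomial.X j) := by
    rw [hind.isTranscendenceBasis_iff_isAlgebraic]
    exact inferInstanceAs (Algebra.IsAlgebraic (Algebra.adjoin K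
      (Set.range fun j : Fin r => AlgHom.id K O (φ (MvPolynomial.X j)))) O)
  have hr : r = n + 1 := by
    have h1 := hbas.cardinalMk_eq_trdeg
    rw [hn, Cardinal.mk_fin] at h1
    exact_mod_cast h1
  -- the element `c`
  obtain ⟨hc0, hcd⟩ := dvd_pow_of_mul (B := MvPolynomial (Fin r) K) hπ.ne_zero
  set c := (minpoly (MvPolynomial (Fin r) K) π).coeff 0 with hc
  set d := (minpoly (MvPolynomial (Fin r) K) π).natDegree with hd
  have hπc : π ∣ φ c := by
    have h1 := minpoly.aeval (MvPolynomial (Fin r) K) π
    have h2 := Polynomial.divX_mul_X_add (minpoly (MvPolynomial (Fin r) K) π)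
    rw [← h2, map_add, map_mul, aeval_X, aeval_C] at h1
    refine ⟨-aeval π (minpoly (MvPolynomial (Fin r) K) π).divX, ?_⟩
    rw [← hφ, hc]
    linear_combination h1
  have hcu : ¬ IsUnit c := by
    intro h
    exact hπ.not_isUnit (isUnit_of_dvd_unit hπc (h.map φ))
  obtain ⟨i, hi⟩ := exists_var hc0 hcu
  have hprime : (Ideal.span {π}).IsPrime := (Ideal.span_singleton_prime hπ.ne_zero).mpr hπ
  have hdom : IsDomain (O ⧸ Ideal.span {π}) := Ideal.Quotient.isDomain _
  let ψ : O →ₐ[K] (O ⧸ Ideal.span {π}) := Ideal.Quotient.mkₐ K (Ideal.span {π})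
  have hψ : Function.Surjective ψ := Ideal.Quotient.mk_surjective
  have hψ0 : ∀ z, ψ z = 0 ↔ π ∣ z := by
    intro z
    have : ψ z = Ideal.Quotient.mk (Ideal.span {π}) z := rfl
    rw [this, Ideal.Quotient.eq_zero_iff_mem, Ideal.mem_span_singleton]
  -- lower bound
  have hlow : AlgebraicIndependent K
      fun j : {j : Fin r // j ≠ i} => ψ (φ (MvPolynomial.X j.1)) := by
    rw [algebraicIndependent_iff]
    intro q hq
    by_contra hq0
    set g := MvPolynomial.rename (Subtype.val : {j : Fin r // j ≠ i} → Fin r) q with hg
    have h1 : ψ (φ g) = 0 := by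
      rw [← hq, hg]
      have h2 : (ψ.comp (φ.comp (MvPolynomial.rename Subtype.val))) =
          MvPolynomial.aeval fun j : {j : Fin r // j ≠ i} => ψ (φ (MvPolynomial.X j.1)) := by
        apply MvPolynomial.algHom_ext
        intro j
        simp
      exact congrArg (fun F => F q) h2
    rw [hψ0] at h1
    obtain ⟨a, ha⟩ := h1
    have hg0 : g ≠ 0 := by
      intro h0
      apply hq0
      apply MvPolynomial.rename_injective _ Subtype.val_injective
      rw [map_zero]
      exact h0
    have hgi : g.degreeOf i = 0 := by
      by_contra h0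
      rw [← ne_eq, ← MvPolynomial.mem_vars_iff_degreeOf_ne_zero] at h0
      have h3 := MvPolynomial.vars_rename (Subtype.val : {j : Fin r // j ≠ i} → Fin r) q h0
      rw [Finset.mem_image] at h3
      obtain ⟨j, -, hj⟩ := h3
      exact j.2 hj
    exact not_dvd hc0 hi (pow_ne_zero d hg0) (by
      have := MvPolynomial.degreeOf_pow_le i g d
      rw [hgi, mul_zero] at this
      omega) (hcd a g ha)
  have hge : (n : Cardinal) ≤ Algebra.trdeg K (O ⧸ Ideal.span {π}) := by
    have h1 := hlow.cardinalMk_le_trdeg
    have h2 : Cardinal.mk {j : Fin r // j ≠ i} = (n : Cardinal) := by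
      rw [Cardinal.mk_fintype]
      congr 1
      rw [Fintype.card_subtype_compl, Fintype.card_fin, Fintype.card_subtype_eq, hr]
      rfl
    rw [h2] at h1
    exact h1
  -- upper bound
  have hintQ := integral_adjoin φ hint ψ hψ
  have hfK : FaithfulSMul K (O ⧸ Ideal.span {π}) :=
    (faithfulSMul_iff_algebraMap_injective _ _).mpr (algebraMap K _).injective
  set v : Fin r → O ⧸ Ideal.span {π} := fun j => ψ (φ (MvPolynomial.X j)) with hv
  have hintQ' : Algebra.IsIntegral (Algebra.adjoin K (Set.range v)) (O ⧸ Ideal.span {π}) := hintQ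
  have halgQ : Algebra.IsAlgebraic (Algebra.adjoin K (Set.range v)) (O ⧸ Ideal.span {π}) :=
    Algebra.IsIntegral.isAlgebraic
  obtain ⟨s, hs, hsb⟩ := exists_isTranscendenceBasis_subset (R := K) (Set.range v)
  have hst := hsb.cardinalMk_eq_trdeg
  have hfin : s.Finite := (Set.finite_range _).subset hs
  have hcard : Cardinal.mk s = (hfin.toFinset.card : Cardinal) := by
    have := hfin.fintype
    rw [Cardinal.mk_fintype, Set.Finite.card_toFinset]
  rw [← hst, hcard] at hge ⊢
  have hge' : n ≤ hfin.toFinset.card := by exact_mod_cast hge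
  have hsub : hfin.toFinset ⊆ Finset.univ.image v := by
    intro z hz
    rw [Set.Finite.mem_toFinset] at hz
    obtain ⟨j, hj⟩ := hs hz
    exact Finset.mem_image.mpr ⟨j, Finset.mem_univ j, hj⟩
  have hle : hfin.toFinset.card < n + 1 := by
    by_contra hcon
    push Not at hcon
    have h1 : (Finset.univ.image v).card ≤ hfin.toFinset.card := by
      refine le_trans Finset.card_image_le ?_
      rw [Finset.card_univ, Fintype.card_fin, hr]
      exact hcon
    have h2 : hfin.toFinset = Finset.univ.image v := Finset.eq_of_subset_of_card_le hsub h1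
    have h3 : Function.Injective v := by
      have h4 : (Finset.univ.image v).card = (Finset.univ : Finset (Fin r)).card := by
        apply le_antisymm Finset.card_image_le
        rw [← h2, Finset.card_univ, Fintype.card_fin, hr]
        exact hcon
      have h5 := Finset.card_image_iff.mp h4
      intro a b hab
      exact h5 (Finset.mem_coe.mpr (Finset.mem_univ a)) (Finset.mem_coe.mpr (Finset.mem_univ b)) hab
    have hmem : ∀ j, v j ∈ s := by
      intro j
      rw [← Set.Finite.mem_toFinset hfin, h2]
      exact Finset.mem_image.mpr ⟨j, Finset.mem_univ j, rfl⟩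
    have h6 : AlgebraicIndependent K v :=
      hsb.1.comp (fun j : Fin r => (⟨v j, hmem j⟩ : s))
        (fun a b hab => h3 (congrArg Subtype.val hab))
    have h7 : MvPolynomial.aeval v c = 0 := by
      have h8 : (ψ.comp φ) = MvPolynomial.aeval v := by
        apply MvPolynomial.algHom_ext
        intro j
        simp [hv]
      rw [← h8]
      exact (hψ0 _).mpr hπc
    exact hc0 ((algebraicIndependent_iff.mp h6) c h7)
  have : hfin.toFinset.card = n := by omega
  rw [this]

end Pool.Agent.Lib.MP_1a0ddd_nt.Un
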