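import Pool.Agent.Lib.MP_1a0ddd_nt.Quad.TBase

/-! The base of a family. -/

set_option autoImplicit false

namespace Pool.Agent.Lib.MP_1a0ddd_nt.Un

/-- `R` is a finitely generated domain of characteristic zero, of transcendence degree `d` -/
structure BaseVar (R : Type) [CommRing R] (d : ℕ) : Prop where
  domain : IsDomain R
  zero : CharZero R
  finite : Algebra.FiniteType ℤ R
  dim : Algebra.trdeg ℤ R = d

end Pool.Agent.Lib.MP_1a0ddd_nt.Un
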