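import Pool.Agent.Lib.MP_1a0ddd_nt.Cn.Defs
import Pool.Agent.Lib.MP_1a0ddd_nt.Un.Base

/-! Curve fibrations, unconditional form: definitions. -/

set_option autoImplicit false

namespace Pool.Agent.Lib.MP_1a0ddd_nt.Un

open Polynomial Pool.Agent.Lib.MP_1a0ddd_nt.V Pool.Agent.Lib.MP_1a0ddd_nt.Fb
  Pool.Agent.Lib.MP_1a0ddd_nt.Cn

/-- `S` is a finitely generated domain over `R`, of relative dimension `n`, and over the fraction
field `K` of `R` it is factorial with units `K^* × ℤ^e` -/
structure Geo (R S : Type) [CommRing R] [IsDomain R] [CommRing S] [Algebra R S] (n e : ℕ) :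
    Prop where
  dom : IsDomain S
  inj : Function.Injective (algebraMap R S)
  finite : Algebra.FiniteType R S
  dim : Algebra.trdeg R S = n
  ufd : UniqueFactorizationMonoid (Gen (algebraMap R S))
  units : ∃ γ : Fin e → (Gen (algebraMap R S))ˣ, UnitFam (Fb.cst (algebraMap R S)) γ

/-- `(p^n #R(F_p) - #S(F_p)) / p^(n + d - 1)`, only points with `D ≠ 0` counted -/
noncomputable def countD (R S : Type) [CommRing R] [CommRing S] [Algebra R S] (D : R)
    (d n p : ℕ) : ℝ :=
  (p : ℝ) * ((p : ℝ) ^ n * Nat.card {z : R →+* ZMod p // z D ≠ 0} -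
    Nat.card {σ : S →+* ZMod p // σ (algebraMap R S D) ≠ 0}) / (p : ℝ) ^ (n + d)

/-- the Tauberian Tate property for divisors of `Spec S` relative to `Spec R`, after removal of a
closed subset `D₀ = 0` of `Spec R` -/
structure Tate (R S : Type) [CommRing R] [IsDomain R] [CommRing S] [Algebra R S] (d n e : ℕ) :
    Prop where
  geo : Geo R S n e
  count : ∃ D₀ : R, D₀ ≠ 0 ∧ ∀ D : R, D ≠ 0 → D₀ ∣ D → Quad.TauMean (countD R S D d n) e

/-- the sum of `f τ` over the `F_p`-points `τ` of `Spec T` with `D ≠ 0`, divided by `p^e` -/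
noncomputable def avgT {R T : Type} [CommRing R] [CommRing T] [Algebra R T] (D : R) (e p : ℕ)
    (f : (T →+* ZMod p) → ℤ) : ℝ :=
  (∑ᶠ τ : {τ : T →+* ZMod p // τ (algebraMap R T D) ≠ 0}, (f τ : ℝ)) / (p : ℝ) ^ e

/-- the number of `F_p`-points of `Spec A` over the point `τ` of `Spec T` -/
noncomputable def ptsT {T A : Type} [CommRing T] [CommRing A] (ψ : T →+* A) (p : ℕ)
    (τ : T →+* ZMod p) : ℕ :=
  Nat.card {ρ : A →+* ZMod p // ρ.comp ψ = τ}

/-- Q1 for the generic fibre `U` of the family of curves `Spec S → Spec T` over `Spec R`. `mean`: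
the mean of the averages of `p - #U_τ` is `u` (points over a closed subset `D = 0` of `Spec R` are left
out). `rank`: over the fraction field of `R` the coordinate ring of `U` is a principal ideal
domain, and its units have rank `u` modulo constants. `proj`: for a compactification `C` of `U` by
`c` closed points, the spectra of the fraction fields of domains `A_i` over `T`, the mean of the
averages of `p + 1 - #C_τ` is `-(c - 1 - u)`, and `c - 1 - u` is the rank of `Pic⁰(C)` -/
structure NagaoT {R T S : Type} [CommRing R] [CommRing T] [CommRing S] [Algebra R T]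
    [Algebra R S] (φ : T →ₐ[R] S) (e u : ℕ) : Prop where
  mean : ∃ D₀ : R, D₀ ≠ 0 ∧ ∀ D : R, D ≠ 0 → D₀ ∣ D →
    Quad.TauMean (fun p => avgT D e p fun τ => (p : ℤ) - ptsT (φ : T →+* S) p τ) u
  rank : IsDomain (Gen (baseK φ)) ∧ IsPrincipalIdealRing (Gen (baseK φ)) ∧
    ∀ [IsDomain (Gen (algebraMap R T))], unitRk (baseK φ) = u
  proj : ∀ (c : ℕ) (A : Fin c → Type) [∀ i, CommRing (A i)] [∀ i, IsDomain (A i)]
    [∀ i, Algebra.FiniteType ℤ (A i)] (ψ : ∀ i, T →+* A i),
    (∀ i, Function.Injective (ψ i)) → (∀ i, Algebra.trdeg ℤ (A i) = e) →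
    ∃ D₀ : R, D₀ ≠ 0 ∧ ∀ D : R, D ≠ 0 → D₀ ∣ D → Quad.TauMean (fun p => avgT D e p fun τ =>
      (p : ℤ) + 1 - ptsT (φ : T →+* S) p τ - ∑ i, (ptsT (ψ i) p τ : ℤ)) (-((c : ℝ) - 1 - u))

/-- the conic bundle `v² = a u² + 2 b u + c` has no rational point over the fraction field of `S`,
and over the fraction field of `R` its fibres over prime divisors are irreducible -/
structure ConicGeo (R : Type) {S : Type} [CommRing R] [CommRing S] [Algebra R S] (a b c : S) :
    Prop where
  aniso : ∀ x y z : S, y ^ 2 = a * x ^ 2 + 2 * b * x * z + c * z ^ 2 → x = 0 ∧ z = 0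
  irr : ∀ π : Gen (algebraMap R S), Prime π →
    Prime (toConic (toGen (algebraMap R S) a) (toGen (algebraMap R S) b)
      (toGen (algebraMap R S) c) π)

/-- affine spaces, open subsets and conic bundles inherit the relative Tate property, and it only
depends on `S ⊗ K` -/
structure ClosureU (R : Type) [CommRing R] [IsDomain R] (d : ℕ) : Prop where
  base : Tate R R d 0 0
  poly : ∀ (S : Type) [CommRing S] [Algebra R S] (n e : ℕ), Tate R S d n e →
    Tate R S[X] d (n + 1) e
  away : ∀ (S : Type) [CommRing S] [Algebra R S] (n e : ℕ) (g : S), Tate R S d n e → g ≠ 0 →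
    ∃ m : ℕ, Tate R (Localization.Away g) d n (e + m)
  conic : ∀ (S : Type) [CommRing S] [Algebra R S] (n e : ℕ) (a b c : S), Tate R S d n e →
    ConicGeo R a b c → Tate R (Conic a b c) d (n + 1) e
  model : ∀ (S S' : Type) [CommRing S] [Algebra R S] [CommRing S'] [Algebra R S'] (n e : ℕ)
    (f : Gen (algebraMap R S) ≃+* Gen (algebraMap R S')), Tate R S d n e → IsDomain S' →
    Function.Injective (algebraMap R S') → Algebra.FiniteType R S' →
    (∀ c, f (Fb.cst (algebraMap R S) c) = Fb.cst (algebraMap R S') c) → Tate R S' d n e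

end Pool.Agent.Lib.MP_1a0ddd_nt.Un
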