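import Pool.Agent.Lib.MP_1a0ddd_nt.Un.Trd
import Pool.Agent.Lib.MP_1a0ddd_nt.Un.TrZ
import Pool.Agent.Lib.MP_1a0ddd_nt.Cn.Km

/-! Transcendence degrees of models. -/

set_option autoImplicit false

namespace Pool.Agent.Lib.MP_1a0ddd_nt.Un

open Polynomial Pool.Agent.Lib.MP_1a0ddd_nt.V Pool.Agent.Lib.MP_1a0ddd_nt.Fb
  Pool.Agent.Lib.MP_1a0ddd_nt.Cn

private theorem km_inj {R S O : Type} [CommRing R] [IsDomain R] [CommRing S]
    [Algebra R S] [CommRing O] [Nontrivial O] {j : S →+* O} {κ : FractionRing R →+* O}
    (hj : KModel R j κ) : Function.Injective (algebraMap R S) := by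
  intro a b hab
  have h1 : κ (algebraMap R (FractionRing R) a) = κ (algebraMap R (FractionRing R) b) := by
    rw [hj.comp, hj.comp, hab]
  exact IsFractionRing.injective R (FractionRing R) (κ.injective h1)

private theorem trdeg_model_eq {R S O : Type} [CommRing R] [IsDomain R] [CommRing S] [IsDomain S]
    [Algebra R S] [CommRing O] [IsDomain O] {j : S →+* O} {κ : FractionRing R →+* O}
    (hj : KModel R j κ) :
    Algebra.trdeg R S = @Algebra.trdeg (FractionRing R) O _ _ κ.toAlgebra := by
  let aK : Algebra (FractionRing R) O := κ.toAlgebra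
  let aS : Algebra S O := j.toAlgebra
  let aR : Algebra R O := (κ.comp (algebraMap R (FractionRing R))).toAlgebra
  have t1 : IsScalarTower R (FractionRing R) O := IsScalarTower.of_algebraMap_eq fun r => rfl
  have t2 : IsScalarTower R S O := IsScalarTower.of_algebraMap_eq fun r => hj.comp r
  have hRS := km_inj hj
  have f1 : FaithfulSMul R S := (faithfulSMul_iff_algebraMap_injective _ _).2 hRS
  have f2 : FaithfulSMul S O := (faithfulSMul_iff_algebraMap_injective _ _).2 hj.inj
  have f3 : FaithfulSMul (FractionRing R) O :=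
    (faithfulSMul_iff_algebraMap_injective _ _).2 κ.injective
  have alg : Algebra.IsAlgebraic S O := by
    refine ⟨fun o => ?_⟩
    obtain ⟨s, r, hr, e⟩ := hj.surj o
    refine ⟨C (algebraMap R S r) * X - C s, ?_, ?_⟩
    · intro h0
      have h1 := congrArg (fun p : S[X] => p.coeff 1) h0
      simp only [coeff_sub, coeff_C_mul, coeff_X_one, mul_one, coeff_C_succ, sub_zero,
        coeff_zero] at h1
      exact hr (hRS (by rw [h1, map_zero]))
    · have e' : o * algebraMap S O (algebraMap R S r) = algebraMap S O s := e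
      simp only [map_sub, map_mul, aeval_C, aeval_X]
      rw [← e']
      ring
  have e1 := trdeg_add_eq R S (A := O)
  have e2 := trdeg_add_eq R (FractionRing R) (A := O)
  have algK : Algebra.IsAlgebraic R (FractionRing R) := IsLocalization.isAlgebraic _ (nonZeroDivisors R)
  have z2 : Algebra.trdeg R (FractionRing R) = 0 := trdeg_eq_zero
  rw [trdeg_eq_zero (R := S) (A := O), add_zero] at e1
  rw [z2, zero_add] at e2
  rw [e1, e2]

/-- the model `O = S ⊗ K` as an algebra over `K`. Proof: a transcendence basis of `S` over `R` in `S`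
is one of `O` over `K` -/
theorem trdeg_model {R S O : Type} [CommRing R] [IsDomain R] [CommRing S] [IsDomain S]
    [Algebra R S] [CommRing O] [IsDomain O] {j : S →+* O} {κ : FractionRing R →+* O}
    (hj : KModel R j κ) {n : ℕ} : Algebra.trdeg R S = (n : Cardinal) ↔
      @Algebra.trdeg (FractionRing R) O _ _ κ.toAlgebra = (n : Cardinal) := by
  rw [trdeg_model_eq hj]

/-- the model is finitely generated over `K` -/
theorem ft_model {R S O : Type} [CommRing R] [IsDomain R] [CommRing S] [Algebra R S] [CommRing O]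
    {j : S →+* O} {κ : FractionRing R →+* O} (hj : KModel R j κ)
    (hf : Algebra.FiniteType R S) : @Algebra.FiniteType (FractionRing R) O _ _ κ.toAlgebra := by
  classical
  let aK : Algebra (FractionRing R) O := κ.toAlgebra
  obtain ⟨t, ht⟩ := hf.out
  refine ⟨⟨t.image j, ?_⟩⟩
  rw [Finset.coe_image, eq_top_iff]
  have h1 : ∀ s : S, j s ∈ Algebra.adjoin (FractionRing R) (j '' (t : Set S)) := by
    intro s
    have hs : s ∈ Algebra.adjoin R (t : Set S) := by rw [ht]; trivial
    induction hs using Algebra.adjoin_induction with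
    | mem x hx => exact Algebra.subset_adjoin ⟨x, hx, rfl⟩
    | algebraMap r =>
      rw [← hj.comp]
      exact Subalgebra.algebraMap_mem _ (algebraMap R (FractionRing R) r)
    | add x y _ _ hx hy => rw [map_add]; exact add_mem hx hy
    | mul x y _ _ hx hy => rw [map_mul]; exact mul_mem hx hy
  intro o _
  obtain ⟨s, r, hr, e⟩ := hj.surj o
  have hr' : algebraMap R (FractionRing R) r ≠ 0 := by
    rw [Ne, IsFractionRing.to_map_eq_zero_iff]
    exact hr
  have h2 : o = algebraMap (FractionRing R) O (algebraMap R (FractionRing R) r)⁻¹ * j s := by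
    rw [← e, ← hj.comp]
    change o = κ (algebraMap R (FractionRing R) r)⁻¹ * (o * κ (algebraMap R (FractionRing R) r))
    have h3 : κ (algebraMap R (FractionRing R) r)⁻¹ * κ (algebraMap R (FractionRing R) r) = 1 := by
      rw [← map_mul, inv_mul_cancel₀ hr', map_one]
    calc o = o * (κ (algebraMap R (FractionRing R) r)⁻¹ *
          κ (algebraMap R (FractionRing R) r)) := by rw [h3, mul_one]
      _ = _ := by ring
  rw [h2]
  exact mul_mem (Subalgebra.algebraMap_mem _ _) (h1 s)

/-- the model of `S / P` -/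
private theorem kmodel_quot {R S O : Type} [CommRing R] [IsDomain R] [CommRing S]
    [Algebra R S] [CommRing O] {j : S →+* O} {κ : FractionRing R →+* O}
    (hj : KModel R j κ) (I : Ideal O) :
    KModel R (S := S ⧸ I.comap j) (Ideal.quotientMap I j le_rfl)
      ((Ideal.Quotient.mk I).comp κ) := by
  refine ⟨Ideal.quotientMap_injective, fun r => ?_, fun o => ?_⟩
  · change Ideal.Quotient.mk I (κ (algebraMap R (FractionRing R) r)) =
      Ideal.quotientMap I j le_rfl (Ideal.Quotient.mk _ (algebraMap R S r))
    rw [Ideal.quotientMap_mk, hj.comp]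
  · obtain ⟨o, rfl⟩ := Ideal.Quotient.mk_surjective o
    obtain ⟨s, r, hr, e⟩ := hj.surj o
    refine ⟨Ideal.Quotient.mk _ s, r, hr, ?_⟩
    change Ideal.Quotient.mk I o *
      Ideal.quotientMap I j le_rfl (Ideal.Quotient.mk _ (algebraMap R S r)) = _
    rw [Ideal.quotientMap_mk, Ideal.quotientMap_mk, ← map_mul, e]

/-- the prime divisor `π` of the model, and the prime ideal `P = (π) ∩ S`. Proof: the model of `S/P`
is `O/π`; `trdeg_quot_prime` and `trdeg_model` -/
theorem trdeg_divisor {R S : Type} [CommRing R] [IsDomain R] [CommRing S] [Algebra R S]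
    {n e : ℕ} (h : Geo R S n e) {π : Gen (algebraMap R S)} (hπ : Prime π) :
    ∃ n' : ℕ, n = n' + 1 ∧
      Algebra.trdeg R (S ⧸ (Ideal.span {π}).comap (toGen (algebraMap R S))) =
        (n' : Cardinal) := by
  have hS := h.dom
  have hj := kmodel_gen (R := R) (S := S) h.inj
  have hO := kmodel_domain hj
  have h1 := ft_model hj h.finite
  have h2 := (trdeg_model hj).1 h.dim
  let aK : Algebra (FractionRing R) (Gen (algebraMap R S)) := (Fb.cst (algebraMap R S)).toAlgebra
  have hprime : (Ideal.span {π}).IsPrime := (Ideal.span_singleton_prime hπ.ne_zero).2 hπ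
  have hn : n ≠ 0 := by
    rintro rfl
    have f3 : FaithfulSMul (FractionRing R) (Gen (algebraMap R S)) :=
      (faithfulSMul_iff_algebraMap_injective _ _).2 (Fb.cst (algebraMap R S)).injective
    have h3 : Algebra.trdeg (FractionRing R) (Gen (algebraMap R S)) = 0 := by
      rw [h2, Nat.cast_zero]
    have h4 : Algebra.IsAlgebraic (FractionRing R) (Gen (algebraMap R S)) :=
      trdeg_eq_zero_iff.1 h3
    have h5 : Algebra.IsIntegral (FractionRing R) (Gen (algebraMap R S)) :=
      Algebra.isAlgebraic_iff_isIntegral.1 h4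
    have h6 : IsField (Gen (algebraMap R S)) := isField_of_isIntegral_of_isField' (Field.toIsField (FractionRing R))
    obtain ⟨b, hb⟩ := h6.mul_inv_cancel hπ.ne_zero
    exact hπ.not_isUnit (IsUnit.of_mul_eq_one b hb)
  obtain ⟨n', rfl⟩ := Nat.exists_eq_succ_of_ne_zero hn
  refine ⟨n', rfl, ?_⟩
  have h7 := trdeg_quot_prime hπ n' h2
  have hj' := kmodel_quot hj (Ideal.span {π})
  have hP : ((Ideal.span {π}).comap (toGen (algebraMap R S))).IsPrime := hprime.comap _
  have d1 : IsDomain (S ⧸ (Ideal.span {π}).comap (toGen (algebraMap R S))) :=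
    Ideal.Quotient.isDomain _
  have d2 : IsDomain (Gen (algebraMap R S) ⧸ Ideal.span {π}) := Ideal.Quotient.isDomain _
  rw [trdeg_model hj', ← h7]
  congr 1

end Pool.Agent.Lib.MP_1a0ddd_nt.Un
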