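import Pool.Agent.Lib.MP_1a0ddd_nt.Un.Cex
import Pool.Agent.Lib.MP_1a0ddd_nt.V.Cnt

/-! Counts over open subsets of the base. -/

set_option autoImplicit false

namespace Pool.Agent.Lib.MP_1a0ddd_nt.Un

open Polynomial Pool.Agent.Lib.MP_1a0ddd_nt.V Pool.Agent.Lib.MP_1a0ddd_nt.Fb
  Pool.Agent.Lib.MP_1a0ddd_nt.Cn

/-- ring maps from a localisation -/
theorem card_away {S : Type} [CommRing S] (s : S) (p : ℕ) (hp : p.Prime)
    (Q : (S →+* ZMod p) → Prop) :
    Nat.card {ρ : Localization.Away s →+* ZMod p // Q (ρ.comp (algebraMap S _))} =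
      Nat.card {σ : S →+* ZMod p // σ s ≠ 0 ∧ Q σ} := by
  have : Fact p.Prime := ⟨hp⟩
  refine Nat.card_congr
    { toFun := fun ρ => ⟨ρ.1.comp (algebraMap S _), fun h0 => ?_, ρ.2⟩
      invFun := fun σ => ⟨IsLocalization.Away.lift (S := Localization.Away s) s
        (g := σ.1) (isUnit_iff_ne_zero.2 σ.2.1), ?_⟩
      left_inv := fun ρ => ?_
      right_inv := fun σ => ?_ }
  · have h1 : IsUnit (algebraMap S (Localization.Away s) s) :=
      IsLocalization.Away.algebraMap_isUnit s
    exact (h1.map ρ.1).ne_zero h0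
  · have h1 : (IsLocalization.Away.lift (S := Localization.Away s) s
        (g := σ.1) (isUnit_iff_ne_zero.2 σ.2.1)).comp (algebraMap S _) = σ.1 :=
      IsLocalization.Away.lift_comp s _
    rw [h1]
    exact σ.2.2
  · refine Subtype.ext (IsLocalization.ringHom_ext (Submonoid.powers s) (RingHom.ext fun x => ?_))
    simp
  · refine Subtype.ext (RingHom.ext fun x => ?_)
    simp

private theorem tau_zero {c : ℕ → ℝ} (h : ∀ p : ℕ, p.Prime → c p = 0) : Quad.TauMean c 0 :=
  Quad.TauMean.zero.congr' 0 fun p _ hp => h p hp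

private theorem ctz_charZero {R S : Type} [CommRing R] [CommRing S] [Algebra R S] {d : ℕ}
    (hR : BaseVar R d) (hi : Function.Injective (algebraMap R S)) : CharZero S := by
  have := hR.zero
  exact charZero_of_injective_algebraMap hi

private theorem ctz_finite {R S : Type} [CommRing R] [CommRing S] [Algebra R S] {d : ℕ}
    (hR : BaseVar R d) (hf : Algebra.FiniteType R S) : Algebra.FiniteType ℤ S := by
  have := hR.finite
  exact Algebra.FiniteType.trans (R := ℤ) (S := R) inferInstance hf

/-- the number of points of a divisor. Proof: `comps_exist` and `comps_countG`, if `n + d > 0`. If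
`n + d = 0` (or `n = 0`) then `S ⊗ K` is a field, so `m = 0` and `f` divides some `D₀ ≠ 0` in `R`
times a unit of `S[1/D₀]`, and no point with `D₀ ≠ 0` lies on `f = 0` -/
theorem count_zero {R S : Type} [CommRing R] [IsDomain R] [CommRing S] [Algebra R S]
    {d n e : ℕ} (hR : BaseVar R d) (h : Geo R S n e) {f : S} (hf : f ≠ 0) {m : ℕ}
    {q : Fin m → Gen (algebraMap R S)} (h1 : ∀ j, Prime (q j)) (h2 : ∀ i j, q i ∣ q j → i = j)
    (h3 : ∀ j, q j ∣ toGen (algebraMap R S) f)
    (h4 : ∀ π, Prime π → π ∣ toGen (algebraMap R S) f → ∃ j, q j ∣ π) :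
    ∃ D₀ : R, D₀ ≠ 0 ∧ ∀ D : R, D ≠ 0 → D₀ ∣ D → Quad.TauMean (fun p : ℕ =>
      (p : ℝ) * Nat.card {σ : S →+* ZMod p // σ (algebraMap R S D) ≠ 0 ∧ σ f = 0} /
        (p : ℝ) ^ (n + d)) m := by
  have hdom := h.dom
  rcases Nat.eq_zero_or_pos (n + d) with hn | hn
  · have hn0 : n = 0 := by omega
    have hm : m = 0 := by
      rcases Nat.eq_zero_or_pos m with hm | hm
      · exact hm
      · obtain ⟨n', hn', -⟩ := trdeg_divisor h (h1 ⟨0, hm⟩)
        omega
    have halg : Algebra.IsAlgebraic R S := by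
      have h5 := h.dim
      rw [hn0, Nat.cast_zero] at h5
      have := (faithfulSMul_iff_algebraMap_injective R S).2 h.inj
      exact trdeg_eq_zero_iff.1 h5
    obtain ⟨D₀, h6, h7⟩ := (halg.isAlgebraic f).exists_nonzero_dvd (mem_nonZeroDivisors_of_ne_zero hf)
    refine ⟨D₀, h6, fun D hD hDD => ?_⟩
    rw [hm, Nat.cast_zero]
    refine tau_zero fun p hp => ?_
    have h8 : IsEmpty {σ : S →+* ZMod p // σ (algebraMap R S D) ≠ 0 ∧ σ f = 0} := by
      refine ⟨fun ⟨σ, h9, h10⟩ => h9 ?_⟩
      obtain ⟨x, hx⟩ := h7.trans (map_dvd (algebraMap R S) hDD)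
      rw [hx, map_mul, h10, zero_mul]
    rw [Nat.card_of_isEmpty, Nat.cast_zero, mul_zero, zero_div]
  · obtain ⟨D₀, h5, h6⟩ := comps_exist hR h hf h1 h2 h3 h4
    refine ⟨D₀, h5, fun D hD hDD => ?_⟩
    obtain ⟨P, -, hP⟩ := h6 D hD hDD (n + d - 1) (by omega)
    have hfS : Algebra.FiniteType ℤ S := ctz_finite hR h.finite
    have hfL : Algebra.FiniteType ℤ (Localization.Away (algebraMap R S D)) := by
      have h7 : Algebra.FiniteType S (Localization.Away (algebraMap R S D)) :=
        IsLocalization.finiteType_of_monoid_fg (Submonoid.powers (algebraMap R S D)) _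
      exact Algebra.FiniteType.trans (R := ℤ) (S := S) hfS h7
    have h7 := @comps_countG R (Localization.Away (algebraMap R S D)) _ _ _
      (by
        convert hfL
        · rfl
        · exact Subsingleton.elim _ _) _ _ _ _ hP
    refine h7.congr' 0 fun p _ hp => ?_
    have h8 : Nat.card {φ : Localization.Away (algebraMap R S D) →+* ZMod p //
        ∀ u ∈ Ideal.span {algebraMap S (Localization.Away (algebraMap R S D)) f}, φ u = 0} =
        Nat.card {σ : S →+* ZMod p // σ (algebraMap R S D) ≠ 0 ∧ σ f = 0} := by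
      rw [← card_away (algebraMap R S D) p hp (fun σ => σ f = 0)]
      refine Nat.card_congr (Equiv.subtypeEquivRight fun φ => ?_)
      constructor
      · intro h9
        exact h9 _ (Ideal.subset_span rfl)
      · intro h9 u hu
        obtain ⟨x, rfl⟩ := Ideal.mem_span_singleton'.1 hu
        rw [map_mul]
        have h10 : φ (algebraMap S _ f) = 0 := h9
        rw [h10, mul_zero]
    rw [h8]
    have hp0 : (p : ℝ) ≠ 0 := by exact_mod_cast hp.ne_zero
    have h9 : n + d = (n + d - 1) + 1 := by omega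
    rw [h9, pow_succ]
    simp only [Nat.add_sub_cancel]
    field_simp

/-- the number of all points (`langWeil`) -/
theorem count_all {R S : Type} [CommRing R] [IsDomain R] [CommRing S] [Algebra R S]
    {d n e : ℕ} (hR : BaseVar R d) (h : Geo R S n e) {D : R} (hD : D ≠ 0) :
    Quad.TauMean (fun p : ℕ =>
      (Nat.card {σ : S →+* ZMod p // σ (algebraMap R S D) ≠ 0} : ℝ) / (p : ℝ) ^ (n + d)) 1 := by
  have hdom := h.dom
  have hz := ctz_charZero hR h.inj
  have hz' := hR.zero
  have hfS : Algebra.FiniteType ℤ S := ctz_finite hR h.finite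
  have htr := trdeg_tower (S := S) h.inj hR.dim h.dim
  rw [add_comm d n] at htr
  exact LW.langWeil S (n + d) htr (algebraMap R S D)
    ((map_ne_zero_iff _ h.inj).2 hD)

end Pool.Agent.Lib.MP_1a0ddd_nt.Un
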