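import Pool.Agent.Lib.MP_1a0ddd_nt.Un.CtZ
import Pool.Agent.Lib.MP_1a0ddd_nt.Cn.Main

/-! Means of the averages for families with the relative Tate property. -/

set_option autoImplicit false

namespace Pool.Agent.Lib.MP_1a0ddd_nt.Un

open Pool.Agent.Lib.MP_1a0ddd_nt.V Pool.Agent.Lib.MP_1a0ddd_nt.Fb
  Pool.Agent.Lib.MP_1a0ddd_nt.Cn

variable {R T S : Type} [CommRing R] [IsDomain R] [CommRing T] [CommRing S] [Algebra R T]
  [Algebra R S] {d n s m : ℕ}

private theorem ft_tr {R T : Type} [CommRing R] [CommRing T] [Algebra R T]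
    (hR : Algebra.FiniteType ℤ R) (hT : Algebra.FiniteType R T) : Algebra.FiniteType ℤ T :=
  Algebra.FiniteType.trans (S := R) hR hT

/-- the sum over `τ` with `D ≠ 0` of the numbers of points over `τ` -/
theorem sum_ptsT {A : Type} [CommRing A] (hT : Algebra.FiniteType ℤ T)
    (hA : Algebra.FiniteType ℤ A) (ψ : T →+* A) (D : R) {p : ℕ} (hp : p.Prime) :
    ∑ᶠ τ : {τ : T →+* ZMod p // τ (algebraMap R T D) ≠ 0}, (ptsT ψ p τ : ℝ) =
      Nat.card {ρ : A →+* ZMod p // ρ (ψ (algebraMap R T D)) ≠ 0} := by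
  classical
  have hfT : Finite (T →+* ZMod p) := W.finite_hom T p hp
  have hfA : Finite (A →+* ZMod p) := W.finite_hom A p hp
  have := Fintype.ofFinite {τ : T →+* ZMod p // τ (algebraMap R T D) ≠ 0}
  rw [finsum_eq_sum_of_fintype, ← Nat.cast_sum]
  unfold ptsT
  rw [← Nat.card_sigma]
  congr 1
  refine Nat.card_eq_of_bijective (fun x => ⟨x.2.1, ?_⟩) ⟨?_, ?_⟩
  · have h := x.1.2
    rw [← x.2.2] at h
    exact h
  · rintro ⟨⟨τ, hτ⟩, ρ, hρ⟩ ⟨⟨τ', hτ'⟩, ρ', hρ'⟩ h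
    have h1 : ρ = ρ' := congrArg Subtype.val h
    subst h1
    have h2 : τ = τ' := hρ.symm.trans hρ'
    subst h2
    rfl
  · rintro ⟨ρ, hρ⟩
    exact ⟨⟨⟨ρ.comp ψ, hρ⟩, ρ, rfl⟩, rfl⟩

/-- the averages are finite sums -/
private theorem avgT_sum (hT : Algebra.FiniteType ℤ T) (D : R) (e : ℕ) {p : ℕ} (hp : p.Prime)
    [Fintype {τ : T →+* ZMod p // τ (algebraMap R T D) ≠ 0}] (f : (T →+* ZMod p) → ℤ) :
    avgT D e p f = (∑ τ : {τ : T →+* ZMod p // τ (algebraMap R T D) ≠ 0}, (f τ : ℝ)) /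
      (p : ℝ) ^ e := by
  unfold avgT
  rw [finsum_eq_sum_of_fintype]

/-- the averages of the traces and the relative counts (`avg_eq_count` in `Cn/Fin.lean`) -/
theorem avgT_eq (hR : BaseVar R d) (hT : Algebra.FiniteType R T) (hS : Algebra.FiniteType R S)
    (φ : T →ₐ[R] S) (D : R) (n p : ℕ) (hp : p.Prime) :
    avgT (R := R) D (n + d) p (fun τ => (p : ℤ) - ptsT (φ : T →+* S) p τ) =
      countD R S D d (n + 1) p - countD R T D d n p := by
  classical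
  have hfT : Algebra.FiniteType ℤ T := ft_tr hR.finite hT
  have hfS : Algebra.FiniteType ℤ S := ft_tr hR.finite hS
  have hF : Finite (T →+* ZMod p) := W.finite_hom T p hp
  have := Fintype.ofFinite {τ : T →+* ZMod p // τ (algebraMap R T D) ≠ 0}
  have hp0 : (p : ℝ) ≠ 0 := by exact_mod_cast hp.ne_zero
  have h1 := sum_ptsT hfT hfS (φ : T →+* S) D hp
  rw [finsum_eq_sum_of_fintype] at h1
  have e1 : ((φ : T →+* S) (algebraMap R T D)) = algebraMap R S D := φ.commutes D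
  rw [e1] at h1
  rw [avgT_sum hfT D (n + d) hp]
  push_cast
  rw [Finset.sum_sub_distrib, h1, Finset.sum_const, Finset.card_univ, nsmul_eq_mul,
    ← Nat.card_eq_fintype_card]
  unfold countD
  rw [add_right_comm n 1 d, pow_succ (p : ℝ) (n + d), pow_succ (p : ℝ) n]
  field_simp
  ring

theorem mean_T (hR : BaseVar R d) (hT : Tate R T d n s) (hS : Tate R S d (n + 1) m)
    (φ : T →ₐ[R] S) : ∃ D₀ : R, D₀ ≠ 0 ∧ ∀ D : R, D ≠ 0 → D₀ ∣ D →
      Quad.TauMean (fun p => avgT D (n + d) p fun τ => (p : ℤ) - ptsT (φ : T →+* S) p τ)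
        ((m : ℝ) - s) := by
  obtain ⟨D₁, h1, h2⟩ := hT.count
  obtain ⟨D₂, h3, h4⟩ := hS.count
  refine ⟨D₁ * D₂, mul_ne_zero h1 h3, fun D hD hdvd => ?_⟩
  refine ((h4 D hD ((Dvd.intro_left _ rfl).trans hdvd)).sub
    (h2 D hD ((Dvd.intro _ rfl).trans hdvd))).congr' 0 fun p _ hp => ?_
  exact avgT_eq hR hT.geo.finite hS.geo.finite φ D n p hp

/-- proof: `mean_T`, `count_all` for `T`, and `langWeil` for the `A i` (`ψ i D ≠ 0`) -/
theorem proj_T (hR : BaseVar R d) (hT : Tate R T d n s) (hS : Tate R S d (n + 1) m)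
    (φ : T →ₐ[R] S) (c : ℕ) (A : Fin c → Type) [∀ i, CommRing (A i)] [∀ i, IsDomain (A i)]
    [∀ i, Algebra.FiniteType ℤ (A i)] (ψ : ∀ i, T →+* A i)
    (hψ : ∀ i, Function.Injective (ψ i))
    (hA : ∀ i, Algebra.trdeg ℤ (A i) = ((n + d : ℕ) : Cardinal)) :
    ∃ D₀ : R, D₀ ≠ 0 ∧ ∀ D : R, D ≠ 0 → D₀ ∣ D → Quad.TauMean (fun p => avgT D (n + d) p fun τ =>
      (p : ℤ) + 1 - ptsT (φ : T →+* S) p τ - ∑ i, (ptsT (ψ i) p τ : ℤ))
        ((m : ℝ) - s + 1 - c) := by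
  classical
  have hfT : Algebra.FiniteType ℤ T := ft_tr hR.finite hT.geo.finite
  obtain ⟨D₀, h0, h1⟩ := mean_T hR hT hS φ
  refine ⟨D₀, h0, fun D hD hdvd => ?_⟩
  have h2 := count_all hR hT.geo hD
  have h3 : ∀ i, Quad.TauMean (fun p : ℕ =>
      (Nat.card {ρ : A i →+* ZMod p // ρ (ψ i (algebraMap R T D)) ≠ 0} : ℝ) /
        (p : ℝ) ^ (n + d)) 1 := by
    intro i
    have hz : CharZero R := hR.zero
    have hinj : Function.Injective ((ψ i).comp (algebraMap R T)) := (hψ i).comp hT.geo.inj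
    have hzA : CharZero (A i) := charZero_of_injective_ringHom hinj
    refine LW.langWeil (A i) (n + d) (hA i) (ψ i (algebraMap R T D)) ?_
    exact (map_ne_zero_iff _ hinj).2 hD
  have h4 := ((h1 D hD hdvd).add h2).sub (Quad.TauMean.sum Finset.univ
    (fun i (p : ℕ) => (Nat.card {ρ : A i →+* ZMod p // ρ (ψ i (algebraMap R T D)) ≠ 0} : ℝ) /
      (p : ℝ) ^ (n + d)) (fun _ => 1) fun i _ => h3 i)
  simp only [Finset.sum_const, Finset.card_univ, Fintype.card_fin, nsmul_eq_mul, mul_one] at h4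
  refine h4.congr' 0 fun p _ hp => ?_
  have hF : Finite (T →+* ZMod p) := W.finite_hom T p hp
  have := Fintype.ofFinite {τ : T →+* ZMod p // τ (algebraMap R T D) ≠ 0}
  have e1 : ∀ i, (Nat.card {ρ : A i →+* ZMod p // ρ (ψ i (algebraMap R T D)) ≠ 0} : ℝ) =
      ∑ τ : {τ : T →+* ZMod p // τ (algebraMap R T D) ≠ 0}, (ptsT (ψ i) p τ : ℝ) := by
    intro i
    rw [← sum_ptsT hfT (inferInstance : Algebra.FiniteType ℤ (A i)) (ψ i) D hp,
      finsum_eq_sum_of_fintype]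
  have e2 : (Nat.card {τ : T →+* ZMod p // τ (algebraMap R T D) ≠ 0} : ℝ) =
      ∑ _τ : {τ : T →+* ZMod p // τ (algebraMap R T D) ≠ 0}, (1 : ℝ) := by
    rw [Finset.sum_const, Finset.card_univ, nsmul_eq_mul, mul_one, Nat.card_eq_fintype_card]
  rw [avgT_sum hfT D (n + d) hp, avgT_sum hfT D (n + d) hp, e2]
  simp only [e1]
  rw [← Finset.sum_div, ← add_div, ← sub_div]
  congr 1
  rw [Finset.sum_comm, ← Finset.sum_add_distrib, ← Finset.sum_sub_distrib]
  refine Finset.sum_congr rfl fun τ _ => ?_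
  push_cast
  ring

end Pool.Agent.Lib.MP_1a0ddd_nt.Un
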