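import Pool.Agent.Lib.MP_1a0ddd_nt.Un.TrM
import Pool.Agent.Lib.MP_1a0ddd_nt.LW.Main

/-! Components of divisors. -/

set_option autoImplicit false

namespace Pool.Agent.Lib.MP_1a0ddd_nt.Un

open Polynomial Pool.Agent.Lib.MP_1a0ddd_nt.V Pool.Agent.Lib.MP_1a0ddd_nt.Fb
  Pool.Agent.Lib.MP_1a0ddd_nt.Cn

/-- the prime factors of `f` over `K` (choose one in every class of associated factors) -/
theorem factors_exist {O : Type} [CommRing O] [IsDomain O] [UniqueFactorizationMonoid O] {f : O}
    (hf : f ≠ 0) : ∃ (m : ℕ) (q : Fin m → O), (∀ j, Prime (q j)) ∧ (∀ i j, q i ∣ q j → i = j) ∧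
      (∀ j, q j ∣ f) ∧ ∀ π, Prime π → π ∣ f → ∃ j, q j ∣ π := by
  classical
  obtain ⟨s, hs, hsf⟩ := UniqueFactorizationMonoid.exists_prime_factors f hf
  set T : Finset (Associates O) := (s.map Associates.mk).toFinset with hT
  have hmem : ∀ a : Associates O, a ∈ T ↔ ∃ b ∈ s, Associates.mk b = a := by
    intro a
    rw [hT, Multiset.mem_toFinset, Multiset.mem_map]
  let e := T.equivFin
  have hq : ∀ j : Fin T.card, ∃ b ∈ s, Associates.mk b = (e.symm j : Associates O) :=
    fun j => (hmem _).1 (e.symm j).2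
  choose q hqs hq using hq
  refine ⟨T.card, q, fun j => hs _ (hqs j), ?_, ?_, ?_⟩
  · intro i j hij
    have h1 : Associated (q i) (q j) :=
      (hs _ (hqs i)).irreducible.associated_of_dvd (hs _ (hqs j)).irreducible hij
    have h2 := Associates.mk_eq_mk_iff_associated.2 h1
    rw [hq, hq] at h2
    exact e.symm.injective (Subtype.ext h2)
  · intro j
    exact (Multiset.dvd_prod (hqs j)).trans hsf.dvd
  · intro π hπ hπf
    have h1 : π ∣ s.prod := hπf.trans hsf.symm.dvd
    obtain ⟨b, hb, hπb⟩ := Prime.exists_mem_multiset_dvd hπ h1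
    have h2 : Associated π b := hπ.irreducible.associated_of_dvd (hs b hb).irreducible hπb
    refine ⟨e ⟨Associates.mk b, (hmem _).2 ⟨b, hb, rfl⟩⟩, ?_⟩
    have h3 := hq (e ⟨Associates.mk b, (hmem _).2 ⟨b, hb, rfl⟩⟩)
    rw [Equiv.symm_apply_apply] at h3
    exact ((Associates.mk_eq_mk_iff_associated.1 h3).trans h2.symm).dvd

/-- a power of the product of the primes is divisible by `f` -/
private theorem cex_pow {O : Type} [CommRing O] [IsDomain O] [UniqueFactorizationMonoid O] {f : O}
    (hf : f ≠ 0) {m : ℕ} {q : Fin m → O} (h1 : ∀ j, Prime (q j))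
    (h4 : ∀ π, Prime π → π ∣ f → ∃ j, q j ∣ π) : ∃ k : ℕ, f ∣ (∏ j, q j) ^ k := by
  classical
  obtain ⟨s, hs, hsf⟩ := UniqueFactorizationMonoid.exists_prime_factors f hf
  refine ⟨Multiset.card s, ?_⟩
  have h5 : ∀ b ∈ s, b ∣ ∏ j, q j := by
    intro b hb
    obtain ⟨j, hj⟩ := h4 b (hs b hb) ((Multiset.dvd_prod hb).trans hsf.dvd)
    have h6 : Associated (q j) b :=
      (h1 j).irreducible.associated_of_dvd (hs b hb).irreducible hj
    exact h6.symm.dvd.trans (Finset.dvd_prod_of_mem q (Finset.mem_univ j))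
  have h6 : ∀ t : Multiset O, (∀ b ∈ t, b ∣ ∏ j, q j) →
      t.prod ∣ (∏ j, q j) ^ Multiset.card t := by
    intro t
    induction t using Multiset.induction_on with
    | empty => intro _; simp
    | cons a t ih =>
      intro h
      rw [Multiset.prod_cons, Multiset.card_cons, pow_succ, mul_comm]
      exact mul_dvd_mul (ih fun b hb => h b (Multiset.mem_cons_of_mem hb))
        (h a (Multiset.mem_cons_self a t))
  exact hsf.symm.dvd.trans (h6 s h5)

/-- clearing denominators in a finitely generated ideal -/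
private theorem cex_clear {R S : Type} [CommRing R] [IsDomain R] [CommRing S] [Algebra R S]
    {I J : Ideal S} (hJ : J.FG)
    (h : ∀ x ∈ J, ∃ r : R, r ≠ 0 ∧ algebraMap R S r * x ∈ I) :
    ∃ r : R, r ≠ 0 ∧ ∀ x ∈ J, algebraMap R S r * x ∈ I := by
  classical
  obtain ⟨s, rfl⟩ := hJ
  have h' : ∀ x : s, ∃ r : R, r ≠ 0 ∧ algebraMap R S r * x ∈ I :=
    fun x => h x (Submodule.subset_span x.2)
  choose r hr hrI using h'
  refine ⟨∏ x : s, r x, Finset.prod_ne_zero_iff.2 fun x _ => hr x, ?_⟩
  intro x hx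
  refine Submodule.span_induction (p := fun y _ => algebraMap R S (∏ x : s, r x) * y ∈ I)
    ?_ ?_ ?_ ?_ hx
  · intro y hy
    obtain ⟨c, hc⟩ := Finset.dvd_prod_of_mem r (Finset.mem_univ (⟨y, hy⟩ : s))
    rw [hc, map_mul, mul_comm (algebraMap R S (r ⟨y, hy⟩)), mul_assoc]
    exact I.mul_mem_left _ (hrI ⟨y, hy⟩)
  · rw [mul_zero]
    exact I.zero_mem
  · intro y z _ _ hy hz
    rw [mul_add]
    exact I.add_mem hy hz
  · intro a y _ hy
    rw [smul_eq_mul, mul_left_comm]
    exact I.mul_mem_left _ hy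

/-- the ideal of the component in the open subset `D ≠ 0`: its point count -/
private theorem cex_count {R S : Type} [CommRing R] [IsDomain R] [CommRing S] [Algebra R S]
    {d n' : ℕ} (hR : BaseVar R d) (hS : Algebra.FiniteType R S) {P₀ : Ideal S} (hP : P₀.IsPrime)
    (hdom : ∀ r : R, algebraMap R S r ∈ P₀ → r = 0)
    (htr : Algebra.trdeg R (S ⧸ P₀) = (n' : Cardinal)) {D : R} (hD : D ≠ 0)
    {P : Ideal (Localization.Away (algebraMap R S D))} (hP' : P.IsPrime)
    (hmem : ∀ x : S, algebraMap S (Localization.Away (algebraMap R S D)) x ∈ P ↔ x ∈ P₀) :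
    Quad.LangWeilT (Localization.Away (algebraMap R S D) ⧸ P) (d + n') := by
  have := hR.zero
  have := hR.finite
  have hSf : Algebra.FiniteType ℤ S := Algebra.FiniteType.trans hR.finite hS
  have hinj : Function.Injective (algebraMap R (S ⧸ P₀)) := by
    rw [injective_iff_map_eq_zero]
    intro r hr
    apply hdom
    rw [← Ideal.Quotient.eq_zero_iff_mem]
    exact hr
  have hz : CharZero (S ⧸ P₀) := charZero_of_injective_ringHom hinj
  have ht : Algebra.trdeg ℤ (S ⧸ P₀) = ((d + n' : ℕ) : Cardinal) :=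
    trdeg_tower hinj hR.dim htr
  have hle : P₀ ≤ P.comap (algebraMap S (Localization.Away (algebraMap R S D))) :=
    fun x hx => (hmem x).2 hx
  let f : S ⧸ P₀ →+* Localization.Away (algebraMap R S D) ⧸ P :=
    Ideal.quotientMap P (algebraMap S (Localization.Away (algebraMap R S D))) hle
  have hf : Function.Injective f :=
    Ideal.quotientMap_injective' fun x hx => (hmem x).1 hx
  have hz' : CharZero (Localization.Away (algebraMap R S D) ⧸ P) :=
    charZero_of_injective_ringHom hf
  have hD0 : Ideal.Quotient.mk P₀ (algebraMap R S D) ≠ 0 := by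
    intro h0
    exact hD (hdom D (Ideal.Quotient.eq_zero_iff_mem.1 h0))
  have ha : ∀ x : Localization.Away (algebraMap R S D) ⧸ P,
      ∃ Q : (S ⧸ P₀)[X], Q ≠ 0 ∧ Q.eval₂ f x = 0 := by
    intro x
    obtain ⟨y, rfl⟩ := Ideal.Quotient.mk_surjective x
    obtain ⟨k, s, hks⟩ := IsLocalization.Away.surj (algebraMap R S D) y
    refine ⟨C (Ideal.Quotient.mk P₀ (algebraMap R S D) ^ k) * X - C (Ideal.Quotient.mk P₀ s),
      ?_, ?_⟩
    · intro h0
      have h1 := congrArg (fun Q => Q.coeff 1) h0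
      simp only [coeff_sub, coeff_C_mul, coeff_X_one, mul_one, coeff_zero] at h1
      rw [coeff_C_of_ne_zero one_ne_zero, sub_zero] at h1
      exact pow_ne_zero k hD0 h1
    · rw [eval₂_sub, eval₂_mul, eval₂_C, eval₂_X, eval₂_C, map_pow]
      change (Ideal.Quotient.mk P (algebraMap S _ (algebraMap R S D))) ^ k *
        Ideal.Quotient.mk P y - Ideal.Quotient.mk P (algebraMap S _ s) = 0
      rw [← hks, map_mul, map_pow, mul_comm, sub_self]
  have hfin : @Algebra.FiniteType ℤ (Localization.Away (algebraMap R S D) ⧸ P) _ _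
      (Ring.toIntAlgebra _) := by
    have h5 : Algebra.FiniteType ℤ (Localization.Away (algebraMap R S D) ⧸ P) := inferInstance
    have h6 : Ideal.instAlgebraQuotient ℤ P = Ring.toIntAlgebra _ := Subsingleton.elim _ _
    rw [← h6]
    exact h5
  exact LW.langWeil _ _ ((trdeg_alg f hf ha).trans ht)

/-- The components of `f = 0` over an open subset `D ≠ 0` of `Spec R`. Proof: let `P_j` be the prime
ideal `(q_j) ∩ S`; `f ∈ P_j`, `P_j ∩ R = 0`, no inclusions. In `S ⊗ K` some power of `∏ q_j` is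
divisible by `f`; the ideals `P_j` are finitely generated, so `D₀ (∏ P_j)^k ⊆ (f)` for some `D₀ ≠ 0`
in `R`. Over `S[1/D]` take the extensions `P'_j`; their quotients are the `(S/P_j)[1/D]`, and
`langWeil` applies, with `trdeg_divisor`, `trdeg_tower`, `trdeg_away` -/
theorem comps_exist {R S : Type} [CommRing R] [IsDomain R] [CommRing S] [Algebra R S]
    {d n e : ℕ} (hR : BaseVar R d) (h : Geo R S n e) {f : S} (hf : f ≠ 0) {m : ℕ}
    {q : Fin m → Gen (algebraMap R S)} (h1 : ∀ j, Prime (q j)) (h2 : ∀ i j, q i ∣ q j → i = j)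
    (h3 : ∀ j, q j ∣ toGen (algebraMap R S) f)
    (h4 : ∀ π, Prime π → π ∣ toGen (algebraMap R S) f → ∃ j, q j ∣ π) :
    ∃ D₀ : R, D₀ ≠ 0 ∧ ∀ D : R, D ≠ 0 → D₀ ∣ D → ∀ δ : ℕ, δ + 1 = n + d →
      ∃ P : Fin m → Ideal (Localization.Away (algebraMap R S D)),
        (∀ i (x : S), algebraMap S (Localization.Away (algebraMap R S D)) x ∈ P i ↔
          q i ∣ toGen (algebraMap R S) x) ∧
        CompsG R (Ideal.span {algebraMap S (Localization.Away (algebraMap R S D)) f}) δ P := by
  classical
  have := h.dom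
  have hSR := h.finite
  have hRf := hR.finite
  have hK : KModel R (toGen (algebraMap R S)) (Fb.cst (algebraMap R S)) := kmodel_gen h.inj
  have hO : IsDomain (Gen (algebraMap R S)) := kmodel_domain hK
  have hU := h.ufd
  have hRN : IsNoetherianRing R := Algebra.FiniteType.isNoetherianRing ℤ R
  have hSN : IsNoetherianRing S := Algebra.FiniteType.isNoetherianRing R S
  set j := toGen (algebraMap R S) with hj
  -- units
  have hunit : ∀ r : R, r ≠ 0 → IsUnit (j (algebraMap R S r)) := by
    intro r hr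
    rw [← hK.comp]
    have h1 : algebraMap R (FractionRing R) r ≠ 0 := by
      rw [Ne, IsFractionRing.to_map_eq_zero_iff]
      exact hr
    exact (IsUnit.mk0 _ h1).map _
  -- the ideals
  let P₀ : Fin m → Ideal S := fun i => (Ideal.span {q i}).comap j
  have hm₀ : ∀ i x, x ∈ P₀ i ↔ q i ∣ j x := by
    intro i x
    rw [Ideal.mem_comap, Ideal.mem_span_singleton]
  have hpr₀ : ∀ i, (P₀ i).IsPrime := by
    intro i
    have : (Ideal.span {q i}).IsPrime := (Ideal.span_singleton_prime (h1 i).ne_zero).2 (h1 i)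
    exact Ideal.comap_isPrime j _
  have hdom₀ : ∀ i (r : R), algebraMap R S r ∈ P₀ i → r = 0 := by
    intro i r hr
    by_contra h0
    exact (h1 i).not_isUnit (isUnit_of_dvd_unit ((hm₀ i _).1 hr) (hunit r h0))
  have hinc₀ : ∀ i k, P₀ i ≤ P₀ k → i = k := by
    intro i k hik
    obtain ⟨s, r, hr, hs⟩ := hK.surj (q i)
    have h5 : s ∈ P₀ k := by
      apply hik
      rw [hm₀]
      exact ⟨_, hs.symm⟩
    rw [hm₀, ← hs] at h5
    exact (h2 k i ((hunit r hr).dvd_mul_right.1 h5)).symm
  -- the power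
  have hjf : j f ≠ 0 := (map_ne_zero_iff _ hK.inj).2 hf
  obtain ⟨k, hk⟩ := cex_pow hjf h1 h4
  have hcl : ∀ x ∈ (∏ i, P₀ i) ^ k, ∃ r : R, r ≠ 0 ∧ algebraMap R S r * x ∈ Ideal.span {f} := by
    intro x hx
    have h5 : j x ∈ ((∏ i, P₀ i) ^ k).map j := Ideal.mem_map_of_mem j hx
    have h6 : ((∏ i, P₀ i) ^ k).map j ≤ Ideal.span {(∏ i, q i) ^ k} := by
      rw [Ideal.map_pow, ← Ideal.span_singleton_pow]
      apply Ideal.pow_right_mono
      have h7 : (∏ i, P₀ i).map j = ∏ i, (P₀ i).map j := map_prod (Ideal.mapHom j) P₀ Finset.univ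
      rw [h7, ← Ideal.prod_span_singleton]
      exact Finset.prod_le_prod' fun i _ => Ideal.map_le_iff_le_comap.2 le_rfl
    have h7 : j f ∣ j x := hk.trans (Ideal.mem_span_singleton.1 (h6 h5))
    obtain ⟨o, ho⟩ := h7
    obtain ⟨s, r, hr, hs⟩ := hK.surj o
    refine ⟨r, hr, ?_⟩
    rw [Ideal.mem_span_singleton]
    refine ⟨s, hK.inj ?_⟩
    rw [map_mul, map_mul, ho, ← hs]
    ring
  obtain ⟨D₀, hD₀, hD₀'⟩ := cex_clear (R := R) (S := S) (I := Ideal.span {f})
    ((isNoetherianRing_iff_ideal_fg S).1 hSN ((∏ i, P₀ i) ^ k)) hcl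
  refine ⟨D₀, hD₀, fun D hD hDD δ hδ => ?_⟩
  -- the ideals over `S[1/D]`
  have hdisj : ∀ i, Disjoint ((Submonoid.powers (algebraMap R S D) : Submonoid S) : Set S)
      (P₀ i : Set S) := by
    intro i
    rw [Set.disjoint_left]
    rintro _ ⟨l, rfl⟩ hmem
    exact hD (hdom₀ i D ((hpr₀ i).mem_of_pow_mem l hmem))
  let P : Fin m → Ideal (Localization.Away (algebraMap R S D)) :=
    fun i => (P₀ i).map (algebraMap S (Localization.Away (algebraMap R S D)))
  have hprP : ∀ i, (P i).IsPrime := fun i =>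
    IsLocalization.isPrime_of_isPrime_disjoint (Submonoid.powers (algebraMap R S D))
      (Localization.Away (algebraMap R S D)) (P₀ i) (hpr₀ i) (hdisj i)
  have hcomP : ∀ i x, algebraMap S (Localization.Away (algebraMap R S D)) x ∈ P i ↔
      x ∈ P₀ i := by
    intro i x
    have h5 := IsLocalization.under_map_of_isPrime_disjoint (Submonoid.powers (algebraMap R S D))
      (Localization.Away (algebraMap R S D)) (hpr₀ i) (hdisj i)
    conv_rhs => rw [← h5]
    exact Iff.rfl
  refine ⟨P, fun i x => (hcomP i x).trans (hm₀ i x), ?_⟩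
  refine ⟨?_, ⟨k, ?_⟩, ?_, hprP, ?_, ?_⟩
  · intro i
    rw [Ideal.span_singleton_le_iff_mem]
    exact (hcomP i f).2 ((hm₀ i f).2 (h3 i))
  · have h7 : (∏ i, P i) = (∏ i, P₀ i).map
        (algebraMap S (Localization.Away (algebraMap R S D))) :=
      (map_prod (Ideal.mapHom (algebraMap S (Localization.Away (algebraMap R S D)))) P₀
        Finset.univ).symm
    rw [h7, ← Ideal.map_pow, Ideal.map_le_iff_le_comap]
    intro x hx
    have h8 := hD₀' x hx
    rw [Ideal.mem_span_singleton] at h8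
    rw [Ideal.mem_comap, Ideal.mem_span_singleton]
    have h9 : IsUnit (algebraMap S (Localization.Away (algebraMap R S D))
        (algebraMap R S D₀)) := by
      obtain ⟨c, hc⟩ := hDD
      have h10 := IsLocalization.Away.algebraMap_isUnit (S := Localization.Away (algebraMap R S D))
        (algebraMap R S D)
      have h11 : algebraMap S (Localization.Away (algebraMap R S D)) (algebraMap R S D₀) ∣
          algebraMap S (Localization.Away (algebraMap R S D)) (algebraMap R S D) := by
        refine map_dvd _ (map_dvd _ ⟨c, hc⟩)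
      exact isUnit_of_dvd_unit h11 h10
    have h10 : algebraMap S (Localization.Away (algebraMap R S D)) f ∣
        algebraMap S (Localization.Away (algebraMap R S D)) (algebraMap R S D₀) *
          algebraMap S (Localization.Away (algebraMap R S D)) x := by
      rw [← map_mul]
      exact map_dvd _ h8
    exact (h9.dvd_mul_left).1 h10
  · intro i l hil
    apply hinc₀
    intro x hx
    exact (hcomP l x).1 (hil ((hcomP i x).2 hx))
  · intro i r hr
    apply hdom₀ i
    rw [← hcomP i, ← IsScalarTower.algebraMap_apply R S (Localization.Away (algebraMap R S D)) r]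
    exact hr
  · intro i
    obtain ⟨n', hn, htr⟩ := trdeg_divisor h (h1 i)
    have hδ' : δ = d + n' := by omega
    rw [hδ']
    exact cex_count hR h.finite (hpr₀ i) (hdom₀ i) htr hD (hprP i) (hcomP i)

end Pool.Agent.Lib.MP_1a0ddd_nt.Un
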