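import Pool.Agent.Lib.MP_1a0ddd_nt.Un.Defs

/-! Fibrations in curves of rational varieties, unconditional form: definitions. -/

set_option autoImplicit false

namespace Pool.Agent.Lib.MP_1a0ddd_nt.Un

open MvPolynomial Pool.Agent.Lib.MP_1a0ddd_nt.V Pool.Agent.Lib.MP_1a0ddd_nt.Fb

/-- the sum of `f z t` over the `F_p`-points `(z, t)` of `Spec R × A^n` with `D ≠ 0` and `B ≠ 0`,
divided by `p^e` -/
noncomputable def avgR {R : Type} [CommRing R] {n : ℕ} (D : R) (B : MvPolynomial (Fin n) R)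
    (e p : ℕ) (f : (R →+* ZMod p) → (Fin n → ZMod p) → ℤ) : ℝ :=
  (∑ᶠ z : {z : R →+* ZMod p // z D ≠ 0},
    ∑ᶠ t : {t : Fin n → ZMod p // eval₂Hom z.1 t B ≠ 0}, (f z.1 t : ℝ)) / (p : ℝ) ^ e

/-- the map `x ↦ (F_0/g, …, F_k/g)` from `g ≠ 0` in `A^(k+2)` to `B ≠ 0` in `A^(k+1)`, over
`Spec R`; over the fraction field of `R` its fibres over the prime divisors of `B ≠ 0` are
irreducible -/
structure FibGeo (R : Type) [CommRing R] (k : ℕ) (F : Fin (k + 1) → MvPolynomial (Fin (k + 2)) R)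
    (g : MvPolynomial (Fin (k + 2)) R) (B : MvPolynomial (Fin (k + 1)) R) : Prop where
  ne : g ≠ 0
  neB : B ≠ 0
  unit : IsUnit (pull F g B)
  irr : ∀ (K : Type) [Field K] [Algebra R K] [IsFractionRing R K],
    IrrOver (pull (fun i => map (algebraMap R K) (F i)) (map (algebraMap R K) g))
      (map (algebraMap R K) B)

/-- Q1 for the generic fibre `U` of `x ↦ F/g`, as in `NagaoT` -/
structure NagaoR {R : Type} [CommRing R] {k : ℕ} (F : Fin (k + 1) → MvPolynomial (Fin (k + 2)) R)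
    (g : MvPolynomial (Fin (k + 2)) R) (B : MvPolynomial (Fin (k + 1)) R) (d u : ℕ) : Prop where
  mean : ∃ D₀ : R, D₀ ≠ 0 ∧ ∀ D : R, D ≠ 0 → D₀ ∣ D →
    Quad.TauMean (fun p => avgR D B (d + k + 1) p (trU F g p)) u
  rank : ∀ (K : Type) [Field K] [Algebra R K] [IsFractionRing R K],
    IsDomain (Gen (pull (fun i => map (algebraMap R K) (F i)) (map (algebraMap R K) g))) ∧
    IsPrincipalIdealRing (Gen (pull (fun i => map (algebraMap R K) (F i))
      (map (algebraMap R K) g))) ∧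
    unitRk (pull (fun i => map (algebraMap R K) (F i)) (map (algebraMap R K) g)) = u
  proj : ∀ (c : ℕ) (A : Fin c → Type) [∀ i, CommRing (A i)] [∀ i, IsDomain (A i)]
    [∀ i, Algebra.FiniteType ℤ (A i)] (ψ : ∀ i, MvPolynomial (Fin (k + 1)) R →+* A i),
    (∀ i, Function.Injective (ψ i)) → (∀ i, IsUnit (ψ i B)) →
    (∀ i, Algebra.trdeg ℤ (A i) = ((d + k + 1 : ℕ) : Cardinal)) →
    ∃ D₀ : R, D₀ ≠ 0 ∧ ∀ D : R, D ≠ 0 → D₀ ∣ D → Quad.TauMean (fun p =>
      avgR D B (d + k + 1) p fun z t =>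
        trU F g p z t + 1 - ∑ i, (pts (ψ i) p z t : ℤ)) (-((c : ℝ) - 1 - u))

end Pool.Agent.Lib.MP_1a0ddd_nt.Un
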