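import Pool.Agent.Lib.MP_1a0ddd_nt.Un.RDefs
import Pool.Agent.Lib.MP_1a0ddd_nt.Un.CtZ
import Pool.Agent.Lib.MP_1a0ddd_nt.Un.Fct
import Pool.Agent.Lib.MP_1a0ddd_nt.Fb.Cnt

/-! Prime factors over the fraction field and counts, for polynomial rings. -/

set_option autoImplicit false

namespace Pool.Agent.Lib.MP_1a0ddd_nt.Un

open MvPolynomial Pool.Agent.Lib.MP_1a0ddd_nt.V Pool.Agent.Lib.MP_1a0ddd_nt.Fb
  Pool.Agent.Lib.MP_1a0ddd_nt.Cn

/-- the model of `R[x]` is `K[x]` -/
theorem mv_model (R : Type) [CommRing R] [IsDomain R] (l : ℕ) :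
    KModel R (map (algebraMap R (FractionRing R)) : MvPolynomial (Fin l) R →+* _) C := by
  refine ⟨?_, fun r => ?_, fun o => ?_⟩
  · exact map_injective _ (IsFractionRing.injective R (FractionRing R))
  · rw [MvPolynomial.algebraMap_eq, map_C]
  · let _ : Algebra (MvPolynomial (Fin l) R) (MvPolynomial (Fin l) (FractionRing R)) :=
      MvPolynomial.algebraMvPolynomial
    have h1 : IsLocalization ((nonZeroDivisors R).map (C : R →+* MvPolynomial (Fin l) R))
        (MvPolynomial (Fin l) (FractionRing R)) :=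
      MvPolynomial.isLocalization (nonZeroDivisors R) (FractionRing R)
    obtain ⟨⟨s, ⟨_, r, hr, rfl⟩⟩, e⟩ := IsLocalization.surj
      ((nonZeroDivisors R).map (C : R →+* MvPolynomial (Fin l) R)) o
    refine ⟨s, r, nonZeroDivisors.ne_zero hr, ?_⟩
    simp only [MvPolynomial.algebraMap_def] at e
    rw [MvPolynomial.algebraMap_eq]
    exact e

theorem mv_geo (R : Type) [CommRing R] [IsDomain R] (l : ℕ) :
    Geo R (MvPolynomial (Fin l) R) l 0 := by
  refine fact_of_model (γ := fun i => Fin.elim0 i) ?_ inferInstance ?_ (mv_model R l)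
    inferInstance ?_
  · rw [MvPolynomial.algebraMap_eq]
    exact C_injective _ _
  · rw [MvPolynomial.trdeg_of_isDomain]
    simp
  · refine ⟨fun v => ?_, fun c n _ => Subsingleton.elim _ _⟩
    obtain ⟨r, hr, e⟩ := MvPolynomial.isUnit_iff_eq_C_of_isReduced.1 v.isUnit
    refine ⟨hr.unit, fun i => Fin.elim0 i, ?_⟩
    ext1
    rw [e]
    simp

private theorem card_split {R : Type} [CommRing R] [Algebra.FiniteType ℤ R] (l p : ℕ)
    (hp : p.Prime) (D : R) (f : MvPolynomial (Fin l) R) :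
    (Nat.card {σ : MvPolynomial (Fin l) R →+* ZMod p //
      σ (algebraMap R (MvPolynomial (Fin l) R) D) ≠ 0 ∧ σ f = 0} : ℝ) =
    ∑ᶠ z : {z : R →+* ZMod p // z D ≠ 0},
      (Nat.card {x : Fin l → ZMod p // eval₂Hom z.1 x f = 0} : ℝ) := by
  classical
  have hfin : Finite (R →+* ZMod p) := W.finite_hom R p hp
  have := Fintype.ofFinite (R →+* ZMod p)
  rw [hom_count l p hp fun σ => σ (algebraMap R (MvPolynomial (Fin l) R) D) ≠ 0 ∧ σ f = 0,
    finsum_eq_sum_of_fintype]
  push_cast
  rw [← Finset.sum_subtype (Finset.univ.filter fun z : R →+* ZMod p => z D ≠ 0) (by simp)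
    fun z : R →+* ZMod p => (Nat.card {x : Fin l → ZMod p // eval₂Hom z x f = 0} : ℝ),
    Finset.sum_filter]
  refine Finset.sum_congr rfl fun z _ => ?_
  have e : ∀ x : Fin l → ZMod p,
      eval₂Hom z x (algebraMap R (MvPolynomial (Fin l) R) D) = z D := by
    intro x
    rw [MvPolynomial.algebraMap_eq, eval₂Hom_C]
  split_ifs with hz
  · congr 2
    refine congrArg _ (funext fun x => ?_)
    rw [e x]
    exact propext ⟨fun h => h.2, fun h => ⟨hz, h⟩⟩
  · have h1 : IsEmpty {x : Fin l → ZMod p //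
        eval₂Hom z x (algebraMap R (MvPolynomial (Fin l) R) D) ≠ 0 ∧ eval₂Hom z x f = 0} := by
      refine ⟨fun x => ?_⟩
      have h2 := x.2.1
      rw [e x.1] at h2
      exact hz h2
    rw [Nat.card_of_isEmpty, Nat.cast_zero]

/-- the prime factors of `f` over the fraction field. Proof: transport of the family in
`Gen (algebraMap R (MvPolynomial (Fin l) R))` along `kmodel_equiv` for `K[x]`, where `K` is any
fraction field of `R` -/
theorem mv_family {R : Type} [CommRing R] [IsDomain R] {d l : ℕ} (hR : BaseVar R d)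
    {f : MvPolynomial (Fin l) R} (hf : f ≠ 0) : ∃ m : ℕ,
      (∀ (K : Type) [Field K] [Algebra R K] [IsFractionRing R K],
        ∃ q : Fin m → MvPolynomial (Fin l) K, (∀ j, Prime (q j)) ∧ (∀ i j, q i ∣ q j → i = j) ∧
          (∀ j, q j ∣ map (algebraMap R K) f) ∧
          ∀ π, Prime π → π ∣ map (algebraMap R K) f → ∃ j, q j ∣ π) ∧
      ∃ D₀ : R, D₀ ≠ 0 ∧ ∀ D : R, D ≠ 0 → D₀ ∣ D → Quad.TauMean (fun p : ℕ => (p : ℝ) *
        (∑ᶠ z : {z : R →+* ZMod p // z D ≠ 0},
          (Nat.card {x : Fin l → ZMod p // eval₂Hom z.1 x f = 0} : ℝ)) / (p : ℝ) ^ (l + d)) m := by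
  have hG := mv_geo R l
  have hM := mv_model R l
  have hj := kmodel_gen (R := R) (S := MvPolynomial (Fin l) R) hG.inj
  have hdom := kmodel_domain hj
  have hufd := hG.ufd
  have hf' : toGen (algebraMap R (MvPolynomial (Fin l) R)) f ≠ 0 :=
    (map_ne_zero_iff _ hj.inj).2 hf
  obtain ⟨m, q, h1, h2, h3, h4⟩ := factors_exist hf'
  refine ⟨m, ?_, ?_⟩
  · intro K _ _ _
    obtain ⟨e, he, -⟩ := kmodel_equiv hG.inj hM
    let E : Gen (algebraMap R (MvPolynomial (Fin l) R)) ≃+* MvPolynomial (Fin l) K :=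
      e.trans (MvPolynomial.mapEquiv (Fin l) (FractionRing.algEquiv R K).toRingEquiv)
    have hE : ∀ s, E (toGen (algebraMap R (MvPolynomial (Fin l) R)) s) =
        map (algebraMap R K) s := by
      intro s
      change MvPolynomial.mapEquiv (Fin l) (FractionRing.algEquiv R K).toRingEquiv
        (e (toGen (algebraMap R (MvPolynomial (Fin l) R)) s)) = _
      rw [he, MvPolynomial.mapEquiv_apply, MvPolynomial.map_map]
      congr 1
      congr 1
      ext r
      exact (FractionRing.algEquiv R K).commutes r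
    refine ⟨fun j => E (q j), fun j => (MulEquiv.prime_iff E).2 (h1 j), fun i j hij => ?_,
      fun j => ?_, fun π hπ hπf => ?_⟩
    · exact h2 i j ((map_dvd_iff E).1 hij)
    · rw [← hE]
      exact (map_dvd_iff E).2 (h3 j)
    · rw [← hE] at hπf
      have h5 : Prime (E.symm π) := (MulEquiv.prime_iff E.symm).2 hπ
      have h6 : E.symm π ∣ toGen (algebraMap R (MvPolynomial (Fin l) R)) f := by
        rw [← map_dvd_iff E, E.apply_symm_apply]
        exact hπf
      obtain ⟨j, hj'⟩ := h4 _ h5 h6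
      refine ⟨j, ?_⟩
      rw [← map_dvd_iff E, E.apply_symm_apply] at hj'
      exact hj'
  · obtain ⟨D₀, hD₀, H⟩ := count_zero hR hG hf h1 h2 h3 h4
    refine ⟨D₀, hD₀, fun D hD hdvd => ?_⟩
    refine (H D hD hdvd).congr' 0 fun p _ hpp => ?_
    have := hR.finite
    rw [card_split l p hpp D f]

end Pool.Agent.Lib.MP_1a0ddd_nt.Un
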