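import Pool.Agent.Lib.MP_1a0ddd_nt.Un.RDefs
import Pool.Agent.Lib.MP_1a0ddd_nt.Un.CtZ
import Pool.Agent.Lib.MP_1a0ddd_nt.Fb.Fin

/-! The means. -/

set_option autoImplicit false

namespace Pool.Agent.Lib.MP_1a0ddd_nt.Un

open MvPolynomial Pool.Agent.Lib.MP_1a0ddd_nt.V Pool.Agent.Lib.MP_1a0ddd_nt.Fb
  Pool.Agent.Lib.MP_1a0ddd_nt.Cn

/-- proof: `sum_trU` and `mv_family` for `g` and `B` -/
theorem mean_R {R : Type} [CommRing R] [IsDomain R] {d k : ℕ} (hR : BaseVar R d)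
    {F : Fin (k + 1) → MvPolynomial (Fin (k + 2)) R} {g : MvPolynomial (Fin (k + 2)) R}
    {B : MvPolynomial (Fin (k + 1)) R} (hB : IsUnit (pull F g B)) {m s : ℕ}
    (hm : ∃ D₀ : R, D₀ ≠ 0 ∧ ∀ D : R, D ≠ 0 → D₀ ∣ D → Quad.TauMean (fun p : ℕ => (p : ℝ) *
      (∑ᶠ z : {z : R →+* ZMod p // z D ≠ 0},
        (Nat.card {x : Fin (k + 2) → ZMod p // eval₂Hom z.1 x g = 0} : ℝ)) /
          (p : ℝ) ^ (k + 2 + d)) m)
    (hs : ∃ D₀ : R, D₀ ≠ 0 ∧ ∀ D : R, D ≠ 0 → D₀ ∣ D → Quad.TauMean (fun p : ℕ => (p : ℝ) *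
      (∑ᶠ z : {z : R →+* ZMod p // z D ≠ 0},
        (Nat.card {x : Fin (k + 1) → ZMod p // eval₂Hom z.1 x B = 0} : ℝ)) /
          (p : ℝ) ^ (k + 1 + d)) s) :
    ∃ D₀ : R, D₀ ≠ 0 ∧ ∀ D : R, D ≠ 0 → D₀ ∣ D →
      Quad.TauMean (fun p => avgR D B (d + k + 1) p (trU F g p)) ((m : ℝ) - s) := by
  classical
  have := hR.finite
  obtain ⟨D₁, h1, h1'⟩ := hm
  obtain ⟨D₂, h2, h2'⟩ := hs
  refine ⟨D₁ * D₂, mul_ne_zero h1 h2, fun D hD hdvd => ?_⟩
  have mG := h1' D hD ((Dvd.intro _ rfl).trans hdvd)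
  have mB := h2' D hD ((Dvd.intro_left _ rfl).trans hdvd)
  refine (mG.sub mB).congr' 0 fun p _ hpp => ?_
  have : Fact p.Prime := ⟨hpp⟩
  have hfin : Finite (R →+* ZMod p) := W.finite_hom R p hpp
  have := Fintype.ofFinite {z : R →+* ZMod p // z D ≠ 0}
  have hp0 : (p : ℝ) ≠ 0 := by exact_mod_cast hpp.ne_zero
  simp only [avgR]
  rw [finsum_eq_sum_of_fintype, finsum_eq_sum_of_fintype, finsum_eq_sum_of_fintype,
    Finset.sum_congr rfl fun z _ => sum_trU hpp hB z.1, Finset.sum_sub_distrib, ← Finset.mul_sum]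
  have e1 : (p : ℝ) ^ (k + 2 + d) = p ^ (d + k + 1) * p := by rw [← pow_succ]; congr 1; omega
  have e2 : (p : ℝ) ^ (k + 1 + d) = p ^ (d + k + 1) := by congr 1; omega
  rw [e1, e2]
  field_simp

/-- a ring map `R[t] → F_p` is given by its values on `R` and at the `t_i` -/
private theorem eval_inj {R : Type} [CommRing R] {n p : ℕ} {z z' : R →+* ZMod p}
    {t t' : Fin n → ZMod p} (h : eval₂Hom z t = eval₂Hom z' t') : z = z' ∧ t = t' := by
  constructor
  · refine RingHom.ext fun r => ?_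
    have := RingHom.congr_fun h (C r)
    simpa using this
  · funext i
    have := RingHom.congr_fun h (X i)
    simpa using this

private theorem eval_surj {R : Type} [CommRing R] {n p : ℕ}
    (φ : MvPolynomial (Fin n) R →+* ZMod p) :
    φ = eval₂Hom (φ.comp C) (fun i => φ (X i)) := by
  refine MvPolynomial.ringHom_ext (fun a => ?_) fun i => ?_
  · simp
  · simp

private theorem avgR_eq {R : Type} [CommRing R] {n p : ℕ} (hp : p.Prime) {D : R}
    [Fintype {z : R →+* ZMod p // z D ≠ 0}] {B : MvPolynomial (Fin n) R}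
    [∀ z : {z : R →+* ZMod p // z D ≠ 0}, Fintype {t : Fin n → ZMod p // eval₂Hom z.1 t B ≠ 0}]
    {e : ℕ} (f : (R →+* ZMod p) → (Fin n → ZMod p) → ℤ) : avgR D B e p f =
      (∑ z : {z : R →+* ZMod p // z D ≠ 0}, ∑ t : {t : Fin n → ZMod p // eval₂Hom z.1 t B ≠ 0},
        (f z.1 t : ℝ)) / (p : ℝ) ^ e := by
  unfold avgR
  rw [finsum_eq_sum_of_fintype]
  congr 1
  exact Finset.sum_congr rfl fun z _ => finsum_eq_sum_of_fintype _

/-- the sum of the `pts` over the points `(z, t)` with `D ≠ 0` and `B ≠ 0` -/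
private theorem sum_ptsR {R A : Type} [CommRing R] [CommRing A] {n p e : ℕ} (hp : p.Prime)
    [Finite (R →+* ZMod p)] [Finite (A →+* ZMod p)] (D : R) (B : MvPolynomial (Fin n) R)
    (ψ : MvPolynomial (Fin n) R →+* A) :
    avgR D B e p (fun z t => (pts ψ p z t : ℤ)) =
      (Nat.card {ρ : A →+* ZMod p // ρ (ψ (C D * B)) ≠ 0} : ℝ) / (p : ℝ) ^ e := by
  classical
  have : Fact p.Prime := ⟨hp⟩
  have := Fintype.ofFinite {z : R →+* ZMod p // z D ≠ 0}
  rw [avgR_eq hp]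
  have h1 : ∀ z : {z : R →+* ZMod p // z D ≠ 0},
      (∑ t : {t : Fin n → ZMod p // eval₂Hom z.1 t B ≠ 0}, ((pts ψ p z.1 t : ℤ) : ℝ)) =
        (Nat.card (Σ t : {t : Fin n → ZMod p // eval₂Hom z.1 t B ≠ 0},
          {ρ : A →+* ZMod p // ρ.comp ψ = eval₂Hom z.1 t.1}) : ℝ) := by
    intro z
    rw [Nat.card_sigma]
    push_cast
    rfl
  rw [Finset.sum_congr rfl fun z _ => h1 z, ← Nat.cast_sum, ← Nat.card_sigma]
  congr 2
  have hval : ∀ (z : R →+* ZMod p) (t : Fin n → ZMod p) (ρ : A →+* ZMod p),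
      ρ.comp ψ = eval₂Hom z t → ρ (ψ (C D * B)) = z D * eval₂Hom z t B := by
    intro z t ρ h
    have h2 := RingHom.congr_fun h (C D * B)
    rw [RingHom.comp_apply, map_mul (eval₂Hom z t), eval₂Hom_C] at h2
    exact h2
  refine Nat.card_eq_of_bijective (fun x => (⟨x.2.2.1, by
    rw [hval x.1.1 x.2.1.1 x.2.2.1 x.2.2.2]
    exact mul_ne_zero x.1.2 x.2.1.2⟩ : {ρ : A →+* ZMod p // ρ (ψ (C D * B)) ≠ 0})) ⟨?_, ?_⟩
  · rintro ⟨⟨z, hz⟩, ⟨t, ht⟩, ⟨ρ, hρ⟩⟩ ⟨⟨z', hz'⟩, ⟨t', ht'⟩, ⟨ρ', hρ'⟩⟩ h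
    have h3 : ρ = ρ' := congrArg Subtype.val h
    subst h3
    obtain ⟨h1, h2⟩ := eval_inj (hρ.symm.trans hρ')
    subst h1
    subst h2
    rfl
  · rintro ⟨ρ, hρ⟩
    have h2 := eval_surj (ρ.comp ψ)
    have h3 := hval _ _ ρ h2
    have h4 : (ρ.comp ψ).comp C D * eval₂Hom ((ρ.comp ψ).comp C)
        (fun i => (ρ.comp ψ) (X i)) B ≠ 0 := by
      rw [← h3]
      exact hρ
    exact ⟨⟨⟨(ρ.comp ψ).comp C, left_ne_zero_of_mul h4⟩,
      ⟨⟨fun i => (ρ.comp ψ) (X i), right_ne_zero_of_mul h4⟩, ⟨ρ, h2⟩⟩⟩, rfl⟩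

/-- the mean number of points of `Spec A` over the points with `D ≠ 0` and `B ≠ 0` -/
private theorem mean_ptsR {R A : Type} [CommRing R] [Algebra.FiniteType ℤ R] [CommRing A]
    [IsDomain A] [CharZero A] [Algebra.FiniteType ℤ A] {n e : ℕ} (D : R)
    (B : MvPolynomial (Fin n) R) (ψ : MvPolynomial (Fin n) R →+* A) (h0 : ψ (C D * B) ≠ 0)
    (hA : Algebra.trdeg ℤ A = e) :
    Quad.TauMean (fun p => avgR D B e p fun z t => (pts ψ p z t : ℤ)) 1 := by
  refine (LW.langWeil A e hA _ h0).congr' 0 fun p _ hp => ?_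
  have hfin : Finite (R →+* ZMod p) := W.finite_hom R p hp
  have hfin' : Finite (A →+* ZMod p) := W.finite_hom A p hp
  exact sum_ptsR hp D B ψ

private theorem ft_mv (R : Type) [CommRing R] [Algebra.FiniteType ℤ R] (n : ℕ) :
    @Algebra.FiniteType ℤ (MvPolynomial (Fin n) R) _ _
      (Ring.toIntAlgebra (MvPolynomial (Fin n) R)) := by
  have h1 : Algebra.FiniteType ℤ (MvPolynomial (Fin n) R) :=
    Algebra.FiniteType.trans (S := R) inferInstance inferInstance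
  have h2 : ∀ a : Algebra ℤ (MvPolynomial (Fin n) R),
      @Algebra.FiniteType ℤ (MvPolynomial (Fin n) R) _ _ a →
      @Algebra.FiniteType ℤ (MvPolynomial (Fin n) R) _ _
        (Ring.toIntAlgebra (MvPolynomial (Fin n) R)) := by
    intro a ha
    have e : a = Ring.toIntAlgebra (MvPolynomial (Fin n) R) := Subsingleton.elim _ _
    rw [← e]
    exact ha
  exact h2 _ h1

private theorem trdeg_mv (R : Type) [CommRing R] [IsDomain R] [CharZero R] (d n : ℕ)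
    (h : Algebra.trdeg ℤ R = d) :
    @Algebra.trdeg ℤ (MvPolynomial (Fin n) R) _ _
      (Ring.toIntAlgebra (MvPolynomial (Fin n) R)) = ((d + n : ℕ) : Cardinal) := by
  have h3 : FaithfulSMul ℤ R :=
    (faithfulSMul_iff_algebraMap_injective ℤ R).2 (RingHom.injective_int (algebraMap ℤ R))
  have h1 := _root_.trdeg_add_eq ℤ R (A := MvPolynomial (Fin n) R)
  rw [h, MvPolynomial.trdeg_of_isDomain, Cardinal.mk_fin, Cardinal.lift_natCast,
    ← Nat.cast_add] at h1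
  have h2 : ∀ a : Algebra ℤ (MvPolynomial (Fin n) R),
      ((d + n : ℕ) : Cardinal) = @Algebra.trdeg ℤ (MvPolynomial (Fin n) R) _ _ a →
      @Algebra.trdeg ℤ (MvPolynomial (Fin n) R) _ _
        (Ring.toIntAlgebra (MvPolynomial (Fin n) R)) = ((d + n : ℕ) : Cardinal) := by
    intro a ha
    have e : a = Ring.toIntAlgebra (MvPolynomial (Fin n) R) := Subsingleton.elim _ _
    rw [← e]
    exact ha.symm
  exact h2 _ h1

/-- proof: the mean of `1` (points of `R[t]` with `D ≠ 0` minus those with `B = 0`), the means of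
the `pts` (`langWeil` for `A i`), and `mean_R` -/
theorem proj_R {R : Type} [CommRing R] [IsDomain R] {d k : ℕ} (hR : BaseVar R d)
    {F : Fin (k + 1) → MvPolynomial (Fin (k + 2)) R} {g : MvPolynomial (Fin (k + 2)) R}
    {B : MvPolynomial (Fin (k + 1)) R} (hB0 : B ≠ 0) {v : ℝ}
    (hm : ∃ D₀ : R, D₀ ≠ 0 ∧ ∀ D : R, D ≠ 0 → D₀ ∣ D →
      Quad.TauMean (fun p => avgR D B (d + k + 1) p (trU F g p)) v)
    (c : ℕ) (A : Fin c → Type) [∀ i, CommRing (A i)] [∀ i, IsDomain (A i)]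
    [∀ i, Algebra.FiniteType ℤ (A i)] (ψ : ∀ i, MvPolynomial (Fin (k + 1)) R →+* A i)
    (hi : ∀ i, Function.Injective (ψ i)) (hB : ∀ i, IsUnit (ψ i B))
    (hA : ∀ i, Algebra.trdeg ℤ (A i) = ((d + k + 1 : ℕ) : Cardinal)) :
    ∃ D₀ : R, D₀ ≠ 0 ∧ ∀ D : R, D ≠ 0 → D₀ ∣ D → Quad.TauMean (fun p =>
      avgR D B (d + k + 1) p fun z t =>
        trU F g p z t + 1 - ∑ i, (pts (ψ i) p z t : ℤ)) (v + 1 - c) := by
  classical
  have _ := hB
  have := hR.finite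
  have := hR.zero
  obtain ⟨D₀, h0, h0'⟩ := hm
  refine ⟨D₀, h0, fun D hD hdvd => ?_⟩
  have hCB : (C D * B : MvPolynomial (Fin (k + 1)) R) ≠ 0 :=
    mul_ne_zero (fun h => hD (C_eq_zero.1 h)) hB0
  have hz : ∀ i, CharZero (A i) := fun i =>
    charZero_of_injective_ringHom (f := (ψ i).comp (C : R →+* MvPolynomial (Fin (k + 1)) R))
      ((hi i).comp (C_injective _ _))
  have hft := ft_mv R (k + 1)
  have hone : Quad.TauMean (fun p => avgR D B (d + k + 1) p fun z t =>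
      (pts (RingHom.id (MvPolynomial (Fin (k + 1)) R)) p z t : ℤ)) 1 :=
    mean_ptsR D B (RingHom.id _) hCB (trdeg_mv R d (k + 1) hR.dim)
  have h1 := ((h0' D hD hdvd).add hone).sub (Quad.TauMean.sum Finset.univ
    (fun i p => avgR D B (d + k + 1) p fun z t => (pts (ψ i) p z t : ℤ)) (fun _ => 1)
    fun i _ => mean_ptsR D B (ψ i) (fun h => hCB (hi i (h.trans (map_zero _).symm))) (hA i))
  simp only [Finset.sum_const, Finset.card_univ, Fintype.card_fin, nsmul_eq_mul, mul_one] at h1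
  refine h1.congr' 0 fun p _ hp => ?_
  have : Fact p.Prime := ⟨hp⟩
  have hfin : Finite (R →+* ZMod p) := W.finite_hom R p hp
  have := Fintype.ofFinite {z : R →+* ZMod p // z D ≠ 0}
  have hid : ∀ (z : R →+* ZMod p) (t : Fin (k + 1) → ZMod p),
      pts (RingHom.id (MvPolynomial (Fin (k + 1)) R)) p z t = 1 := by
    intro z t
    unfold pts
    have : Unique {ρ : MvPolynomial (Fin (k + 1)) R →+* ZMod p //
        ρ.comp (RingHom.id _) = eval₂Hom z t} :=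
      ⟨⟨⟨eval₂Hom z t, RingHom.comp_id _⟩⟩, fun ρ => Subtype.ext
        ((RingHom.comp_id ρ.1).symm.trans ρ.2)⟩
    exact Nat.card_unique
  simp only [avgR_eq hp, hid]
  rw [← Finset.sum_div, ← add_div, ← sub_div]
  congr 1
  rw [Finset.sum_comm, ← Finset.sum_add_distrib, ← Finset.sum_sub_distrib]
  refine Finset.sum_congr rfl fun z _ => ?_
  rw [Finset.sum_comm, ← Finset.sum_add_distrib, ← Finset.sum_sub_distrib]
  refine Finset.sum_congr rfl fun t _ => ?_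
  push_cast
  ring

end Pool.Agent.Lib.MP_1a0ddd_nt.Un
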