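import Pool.Agent.Lib.MP_1a0ddd_nt.Un.RDefs
import Pool.Agent.Lib.MP_1a0ddd_nt.Fb.Fin

/-! The rank. -/

set_option autoImplicit false

namespace Pool.Agent.Lib.MP_1a0ddd_nt.Un

open MvPolynomial Pool.Agent.Lib.MP_1a0ddd_nt.V Pool.Agent.Lib.MP_1a0ddd_nt.Fb
  Pool.Agent.Lib.MP_1a0ddd_nt.Cn

/-- proof: as `frac_rank` in `Fb/Frc.lean`, with the families of `mv_family` -/
theorem rank_R {R : Type} [CommRing R] [IsDomain R] {k : ℕ}
    {F : Fin (k + 1) → MvPolynomial (Fin (k + 2)) R} {g : MvPolynomial (Fin (k + 2)) R}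
    {B : MvPolynomial (Fin (k + 1)) R} (h : FibGeo R k F g B) (K : Type) [Field K] [Algebra R K]
    [IsFractionRing R K] {m s : ℕ} {q : Fin m → MvPolynomial (Fin (k + 2)) K}
    (h1 : ∀ j, Prime (q j)) (h2 : ∀ i j, q i ∣ q j → i = j)
    (h3 : ∀ j, q j ∣ map (algebraMap R K) g)
    (h4 : ∀ π, Prime π → π ∣ map (algebraMap R K) g → ∃ j, q j ∣ π)
    {q' : Fin s → MvPolynomial (Fin (k + 1)) K} (h1' : ∀ j, Prime (q' j))
    (h2' : ∀ i j, q' i ∣ q' j → i = j) (h3' : ∀ j, q' j ∣ map (algebraMap R K) B)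
    (h4' : ∀ π, Prime π → π ∣ map (algebraMap R K) B → ∃ j, q' j ∣ π) :
    unitRk (pull (fun i => map (algebraMap R K) (F i)) (map (algebraMap R K) g)) + s = m := by
  have hinj : Function.Injective (map (algebraMap R K) :
      MvPolynomial (Fin (k + 2)) R →+* MvPolynomial (Fin (k + 2)) K) :=
    MvPolynomial.map_injective _ (IsFractionRing.injective R K)
  have hg : map (algebraMap R K) g ≠ 0 := (map_ne_zero_iff _ hinj).2 h.ne
  have hdom : IsDomain (Localization.Away (map (algebraMap R K) g)) :=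
    IsLocalization.isDomain_localization (powers_le_nonZeroDivisors_of_noZeroDivisors hg)
  have hS0 := factorFam_of (C : K →+* MvPolynomial (Fin (k + 2)) K) mv_unit h1 h2 h3 h4
  have hT := factorFam_of (C : K →+* MvPolynomial (Fin (k + 1)) K) mv_unit h1' h2' h3' h4'
  obtain ⟨δ, _, hS⟩ := unitFam_of (C : K →+* MvPolynomial (Fin (k + 2)) K) hg hS0
  rw [← pull_C (fun i => map (algebraMap R K) (F i)) (map (algebraMap R K) g)] at hS
  exact rank_units (C : K →+* MvPolynomial (Fin (k + 1)) K) (pull_unit (algebraMap R K) h.unit)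
    (h.irr K) hS hT

end Pool.Agent.Lib.MP_1a0ddd_nt.Un
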