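import Pool.Agent.Lib.MP_1a0ddd_nt.Un.RFam
import Pool.Agent.Lib.MP_1a0ddd_nt.Un.RRk
import Pool.Agent.Lib.MP_1a0ddd_nt.Un.RMea
import Pool.Agent.Lib.MP_1a0ddd_nt.Fb.Fin

/-! Q1 for fibrations in curves of rational varieties over an arbitrary base. -/

set_option autoImplicit false

namespace Pool.Agent.Lib.MP_1a0ddd_nt.Un

open MvPolynomial Pool.Agent.Lib.MP_1a0ddd_nt.V Pool.Agent.Lib.MP_1a0ddd_nt.Fb
  Pool.Agent.Lib.MP_1a0ddd_nt.Cn

theorem main_R {R : Type} [CommRing R] {d k : ℕ} (hR : BaseVar R d)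
    {F : Fin (k + 1) → MvPolynomial (Fin (k + 2)) R} {g : MvPolynomial (Fin (k + 2)) R}
    {B : MvPolynomial (Fin (k + 1)) R} (h : FibGeo R k F g B) : ∃ u : ℕ, NagaoR F g B d u := by
  have := hR.domain
  obtain ⟨m, hm, hm'⟩ := mv_family hR h.ne
  obtain ⟨s, hs, hs'⟩ := mv_family hR h.neB
  have hK : ∀ (K : Type) [Field K] [Algebra R K] [IsFractionRing R K],
      unitRk (pull (fun i => map (algebraMap R K) (F i)) (map (algebraMap R K) g)) + s = m := by
    intro K _ _ _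
    obtain ⟨q, h1, h2, h3, h4⟩ := hm K
    obtain ⟨q', h1', h2', h3', h4'⟩ := hs K
    exact rank_R h K h1 h2 h3 h4 h1' h2' h3' h4'
  obtain ⟨u, hu⟩ : ∃ u, u + s = m := ⟨_, hK (FractionRing R)⟩
  have hu' : (u : ℝ) = (m : ℝ) - s := by
    rw [← hu]
    push_cast
    ring
  have hmean := mean_R hR h.unit hm' hs'
  rw [← hu'] at hmean
  refine ⟨u, hmean, fun K _ _ _ => ?_, fun c A _ _ _ ψ hi hB hA => ?_⟩
  · have hg : map (algebraMap R K) g ≠ 0 := fun h1 => h.ne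
      (map_injective _ (IsFractionRing.injective R K) (by rw [h1, map_zero]))
    obtain ⟨h1, h2⟩ := gen_pid hg _ (pull_C _ _) (pull_unit (algebraMap R K) h.unit) (h.irr K)
    have h3 := hK K
    exact ⟨h1, h2, by omega⟩
  · have h1 := proj_R hR h.neB hmean c A ψ hi hB hA
    convert h1 using 7
    ring

end Pool.Agent.Lib.MP_1a0ddd_nt.Un
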